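import Pool.Agent.Lib.H8da.Kill

set_option autoImplicit false
set_option linter.unusedSectionVars false

/-!
# The homomorphism defined by a colouring

Black box: `Core.lean` and `Kill.lean` (`sum_Rw`, `sum_Dm`).

PROOF of `exists_hom`. Let `o k, m e k, c e : Ix E → ZMod (p ^ 2)` be the basis vectors
`Pi.single (.om k) 1`, `Pi.single (.mu e k) 1`, `Pi.single (.ce e) 1`; `d e k = x (s e) k - x (t e) k`
(integers), `w e : Fin 2` is `1` if `¬ (p : ℤ) ∣ d e 0` and `0` otherwise (so that `d e k'` is not
divisible by `p` for the other index `k' ≠ w e`). Put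
  `a (.oo k) = p • o k`, `a (.mu e k) = p • m e k`, `a (.mm k) = 0`, `a .p1 = 0`, `a .p2 = 0`,
  `a (.sg i) = ∑ k, x i k • o k`, `a (.zz k) = o k`, `a (.aa e) = -∑ k, d e k • m e k + p • c e`,
  `a (.bb e) = ∑ k, d e k • (m e k - o k)`, `a (.ph e) = m e (w e)`, `a (.ta e) = c e`.
The row sums `yv r = ∑ j, Dm s t r j • a j` are (from the definition of `Dm` by `Pi.single`)
  `yv (.ro k) = a (.oo k) - a (.mm k) = p • o k`, `yv (.rm e k) = p • m e k`,
  `yv (.rc e) = a (.sg (s e)) - a (.sg (t e)) + a (.aa e) + a (.bb e) = p • c e`,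
  `yv (.rt e) = c e`, `yv (.rb e) = a (.bb e)`, `yv (.rp e) = m e (w e)`, `yv (.rz k) = o k`.
-/

namespace Pool.Agent.Lib.H8da

/-- the basis of the homocyclic group -/
inductive Ix (E : Type)
  | om (k : Fin 2) : Ix E
  | mu (e : E) (k : Fin 2) : Ix E
  | ce (e : E) : Ix E
deriving DecidableEq, Fintype

variable {V E : Type} [DecidableEq V] [DecidableEq E] [Fintype V] [Fintype E]

namespace BwdAux

/-- the basis as a sum type -/
def ixE (E : Type) : Ix E ≃ Fin 2 ⊕ ((E × Fin 2) ⊕ E) where
  toFun
    | .om k => .inl k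
    | .mu e k => .inr (.inl (e, k))
    | .ce e => .inr (.inr e)
  invFun
    | .inl k => .om k
    | .inr (.inl (e, k)) => .mu e k
    | .inr (.inr e) => .ce e
  left_inv := by intro r; cases r <;> rfl
  right_inv := by rintro (k | ⟨e, k⟩ | e) <;> rfl

theorem sum_single {M : Type*} [AddCommGroup M] (f : Nd V E → M) (i : Nd V E) :
    ∑ j, (Pi.single i 1 : Nd V E → ℤ) j • f j = f i := by
  rw [Finset.sum_eq_single i]
  · simp
  · intro j _ hj
    simp [Pi.single_eq_of_ne hj]
  · simp

/-- basis vectors -/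
def ob (E : Type) [DecidableEq E] (p : ℕ) (k : Fin 2) : Ix E → ZMod (p ^ 2) := Pi.single (.om k) 1

/-- basis vectors -/
def mb (p : ℕ) (e : E) (k : Fin 2) : Ix E → ZMod (p ^ 2) := Pi.single (.mu e k) 1

/-- basis vectors -/
def cb (p : ℕ) (e : E) : Ix E → ZMod (p ^ 2) := Pi.single (.ce e) 1

/-- the images of the types -/
def av (p : ℕ) (s t : E → V) (x : V → Fin 2 → ℤ) (w : E → Fin 2) :
    Nd V E → Ix E → ZMod (p ^ 2)
  | .oo k => (p : ℤ) • ob E p k
  | .mu e k => (p : ℤ) • mb p e k
  | .mm _ => 0
  | .p1 => 0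
  | .p2 => 0
  | .sg i => ∑ k, x i k • ob E p k
  | .zz k => ob E p k
  | .aa e => -(∑ k, (x (s e) k - x (t e) k) • mb p e k) + (p : ℤ) • cb p e
  | .bb e => ∑ k, (x (s e) k - x (t e) k) • (mb p e k - ob E p k)
  | .ph e => mb p e (w e)
  | .ta e => cb p e

/-- the row sums -/
def yy (p : ℕ) (s t : E → V) (x : V → Fin 2 → ℤ) (w : E → Fin 2) :
    Rw E → Ix E → ZMod (p ^ 2)
  | .ro k => (p : ℤ) • ob E p k
  | .rz k => ob E p k
  | .rm e k => (p : ℤ) • mb p e k
  | .rc e => (p : ℤ) • cb p e
  | .rt e => cb p e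
  | .rb e => ∑ k, (x (s e) k - x (t e) k) • (mb p e k - ob E p k)
  | .rp e => mb p e (w e)

theorem row_eq (p : ℕ) (s t : E → V) (x : V → Fin 2 → ℤ) (w : E → Fin 2) (r : Rw E) :
    ∑ j, Dm s t r j • av p s t x w j = yy p s t x w r := by
  cases r with
  | ro k =>
    simp only [Dm, Pi.sub_apply, sub_smul, Finset.sum_sub_distrib, sum_single]
    simp [av, yy]
  | rz k =>
    simp only [Dm, Pi.add_apply, add_smul, Finset.sum_add_distrib, sum_single]
    simp [av, yy]
  | rm e k =>
    simp only [Dm, Pi.sub_apply, sub_smul, Finset.sum_sub_distrib, sum_single]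
    simp [av, yy]
  | rc e =>
    simp only [Dm, Pi.sub_apply, Pi.add_apply, sub_smul, add_smul, Finset.sum_sub_distrib,
      Finset.sum_add_distrib, sum_single]
    simp only [av, yy, Fin.sum_univ_two, sub_smul, smul_sub]
    abel
  | rt e =>
    simp only [Dm, Pi.add_apply, add_smul, Finset.sum_add_distrib, sum_single]
    simp [av, yy]
  | rb e =>
    simp only [Dm, Pi.add_apply, add_smul, Finset.sum_add_distrib, sum_single]
    simp [av, yy]
  | rp e =>
    simp only [Dm, Pi.add_apply, add_smul, Finset.sum_add_distrib, sum_single]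
    simp [av, yy]

theorem sq_smul (p : ℕ) (v : Ix E → ZMod (p ^ 2)) : (p : ℤ) • ((p : ℤ) • v) = 0 := by
  funext i
  have : ((p ^ 2 : ℕ) : ZMod (p ^ 2)) = 0 := ZMod.natCast_self _
  have h2 : (p : ZMod (p ^ 2)) * (p : ZMod (p ^ 2)) = 0 := by
    have h3 : (p : ZMod (p ^ 2)) ^ 2 = 0 := by exact_mod_cast this
    exact (pow_two _).symm.trans h3
  rw [← mul_smul, Pi.smul_apply, zsmul_eq_mul, Pi.zero_apply]
  push_cast
  rw [h2, zero_mul]

theorem unit_mem {p : ℕ} (hp : p.Prime) (S : Submodule ℤ (Ix E → ZMod (p ^ 2))) {d : ℤ}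
    (hd : ¬ (p : ℤ) ∣ d) {v : Ix E → ZMod (p ^ 2)} (h : d • v ∈ S) : v ∈ S := by
  have h1 : IsCoprime (p : ℤ) d := (Nat.prime_iff_prime_int.1 hp).coprime_iff_not_dvd.2 hd
  have h2 : IsCoprime ((p : ℤ) ^ 2) d := IsCoprime.pow_left h1
  obtain ⟨u, u', huu⟩ := h2
  have h3 : v = u' • (d • v) := by
    have h4 : v = (u * (p : ℤ) ^ 2 + u' * d) • v := by rw [huu, one_smul]
    have h5 : (u * (p : ℤ) ^ 2) • v = 0 := by
      rw [show u * (p : ℤ) ^ 2 = u * ((p : ℤ) * p) by ring, mul_smul, mul_smul, sq_smul,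
        smul_zero]
    rw [add_smul, h5, zero_add, mul_smul] at h4
    exact h4
  rw [h3]
  exact S.smul_mem _ h

theorem span_top {p : ℕ} (hp : p.Prime) {s t : E → V} (x : V → Fin 2 → ℤ) (w : E → Fin 2)
    (hw : ∀ e, ∃ k, k ≠ w e ∧ ¬ (p : ℤ) ∣ x (s e) k - x (t e) k) (v : Ix E → ZMod (p ^ 2)) :
    v ∈ Submodule.span ℤ (Set.range (yy p s t x w)) := by
  set S := Submodule.span ℤ (Set.range (yy p s t x w)) with hS
  have hy : ∀ r, yy p s t x w r ∈ S := fun r => Submodule.subset_span ⟨r, rfl⟩
  have ho : ∀ k, ob E p k ∈ S := fun k => hy (.rz k)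
  have hc : ∀ e, cb p e ∈ S := fun e => hy (.rt e)
  have hm : ∀ e k, mb p e k ∈ S := by
    intro e k
    obtain ⟨k', hk', hd⟩ := hw e
    have hwm : mb p e (w e) ∈ S := hy (.rp e)
    by_cases hk : k = w e
    · rw [hk]
      exact hwm
    · have hkk : k = k' := by
        have := k.2
        have := k'.2
        have := (w e).2
        rw [← Ne, Fin.ne_iff_vne] at hk
        rw [Fin.ne_iff_vne] at hk'
        exact Fin.ext (by omega)
      subst hkk
      apply unit_mem hp S hd
      have h1 : ∑ k, (x (s e) k - x (t e) k) • mb p e k ∈ S := by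
        have h2 : ∑ k, (x (s e) k - x (t e) k) • mb p e k =
            yy p s t x w (.rb e) + ∑ k, (x (s e) k - x (t e) k) • ob E p k := by
          simp only [yy, smul_sub, Finset.sum_sub_distrib, sub_add_cancel]
        rw [h2]
        exact S.add_mem (hy _) (S.sum_mem fun k _ => S.smul_mem _ (ho k))
      have h3 : ∑ k, (x (s e) k - x (t e) k) • mb p e k =
          (x (s e) k - x (t e) k) • mb p e k +
            (x (s e) (w e) - x (t e) (w e)) • mb p e (w e) := by
        have h4 : (Finset.univ : Finset (Fin 2)) = {k, w e} := by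
          have h5 : ∀ a b : Fin 2, ¬ a = b → (Finset.univ : Finset (Fin 2)) = {a, b} := by decide
          exact h5 _ _ hk
        rw [h4, Finset.sum_pair hk]
      rw [h3] at h1
      exact (S.add_mem_iff_left (S.smul_mem _ hwm)).1 h1
  have hb : ∀ i : Ix E, (Pi.single i 1 : Ix E → ZMod (p ^ 2)) ∈ S := by
    intro i
    cases i with
    | om k => exact ho k
    | mu e k => exact hm e k
    | ce e => exact hc e
  have hp0 : NeZero (p ^ 2) := ⟨pow_ne_zero 2 hp.ne_zero⟩
  have hv : v = ∑ i, ((v i).val : ℤ) • (Pi.single i 1 : Ix E → ZMod (p ^ 2)) := by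
    funext j
    rw [Finset.sum_apply, Finset.sum_eq_single j]
    · simp
    · intro i _ hi
      simp [Pi.single_eq_of_ne hi.symm]
    · simp
  rw [hv]
  exact S.sum_mem fun i _ => S.smul_mem _ (hb i)

theorem shift (p : ℕ) {s t : E → V} (a : Nd V E → Ix E → ZMod (p ^ 2)) (n : Rw E → ℤ) :
    ∑ i, ((p : ℤ) * (0 : Nd V E → ℤ) i + ∑ r, n r * Dm s t r i) • a i =
      ∑ r, n r • ∑ j, Dm s t r j • a j := by
  simp only [Pi.zero_apply, mul_zero, zero_add, Finset.sum_smul, Finset.smul_sum]
  rw [Finset.sum_comm]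
  simp only [mul_smul]

theorem sh_of {p : ℕ} {s t : E → V} {x : V → Fin 2 → ℤ} {w : E → Fin 2} {j : Nd V E}
    (n : Rw E → ℤ) (h0 : ∀ i, ¬ LT s t j i → cs s t n i = 0)
    (h1 : (p : ℤ) • av p s t x w j = ∑ r, n r • yy p s t x w r) :
    ∃ (n : Rw E → ℤ) (c : Nd V E → ℤ),
        (∀ i, ¬ LT s t j i → (p : ℤ) * c i + ∑ r, n r * Dm s t r i = 0) ∧
          (p : ℤ) • av p s t x w j =
            ∑ i, ((p : ℤ) * c i + ∑ r, n r * Dm s t r i) • av p s t x w i := by
  refine ⟨n, 0, fun i hi => ?_, ?_⟩
  · rw [sum_Dm, h0 i hi]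
    simp
  · rw [shift, h1]
    exact Finset.sum_congr rfl fun r _ => by rw [row_eq]

end BwdAux

open BwdAux

theorem card_Ix : Fintype.card (Ix E) = 2 + 3 * Fintype.card E := by
  rw [Fintype.card_congr (ixE E)]
  simp only [Fintype.card_sum, Fintype.card_prod, Fintype.card_fin]
  ring

theorem exists_hom {p : ℕ} (hp : p.Prime) {s t : E → V} (x : V → Fin 2 → ℤ)
    (hx : ∀ e, ∃ k, ¬ (p : ℤ) ∣ x (s e) k - x (t e) k) :
    ∃ a : Nd V E → Ix E → ZMod (p ^ 2),
      (∀ x : Ix E → ZMod (p ^ 2), ∃ (n : Rw E → ℤ) (c : Nd V E → ℤ),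
        x = ∑ r, n r • ∑ j, Dm s t r j • a j + ∑ j, c j • ((p : ℤ) • a j)) ∧
      ∀ j, ∃ (n : Rw E → ℤ) (c : Nd V E → ℤ),
        (∀ i, ¬ LT s t j i → (p : ℤ) * c i + ∑ r, n r * Dm s t r i = 0) ∧
          (p : ℤ) • a j = ∑ i, ((p : ℤ) * c i + ∑ r, n r * Dm s t r i) • a i := by
  classical
  have hx' : ∀ e, ∃ w : Fin 2, ∃ k, k ≠ w ∧ ¬ (p : ℤ) ∣ x (s e) k - x (t e) k := by
    intro e
    obtain ⟨k, hk⟩ := hx e
    have h5 : ∀ k : Fin 2, k ≠ 1 - k := by decide
    exact ⟨1 - k, k, h5 k, hk⟩
  choose w hw using hx'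
  refine ⟨av p s t x w, fun v => ?_, fun j => ?_⟩
  · obtain ⟨n, hn⟩ := (Submodule.mem_span_range_iff_exists_fun ℤ).1 (span_top hp x w hw v)
    refine ⟨n, 0, ?_⟩
    simp only [row_eq, Pi.zero_apply, zero_smul, Finset.sum_const_zero, add_zero]
    exact hn.symm
  · cases j with
    | oo k =>
      refine sh_of 0 (fun i _ => ?_) ?_
      · cases i <;> simp [cs]
      · simp only [av, sq_smul, Pi.zero_apply, zero_smul, Finset.sum_const_zero]
    | mu e k =>
      refine sh_of 0 (fun i _ => ?_) ?_
      · cases i <;> simp [cs]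
      · simp only [av, sq_smul, Pi.zero_apply, zero_smul, Finset.sum_const_zero]
    | mm k =>
      refine sh_of 0 (fun i _ => ?_) ?_
      · cases i <;> simp [cs]
      · simp [av]
    | p1 =>
      refine sh_of 0 (fun i _ => ?_) ?_
      · cases i <;> simp [cs]
      · simp [av]
    | p2 =>
      refine sh_of 0 (fun i _ => ?_) ?_
      · cases i <;> simp [cs]
      · simp [av]
    | sg i =>
      refine sh_of (fun r => match r with | .ro k => x i k | _ => 0) (fun i' hi' => ?_) ?_
      · cases i' <;> simp_all [cs, LT]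
      · rw [sum_Rw]
        simp only [av, yy, zero_smul, Finset.sum_const_zero, add_zero, Finset.smul_sum]
        exact Finset.sum_congr rfl fun k _ => smul_comm _ _ _
    | zz k0 =>
      refine sh_of (fun r => match r with | .ro k => if k = k0 then 1 else 0 | _ => 0)
        (fun i' hi' => ?_) ?_
      · cases i' <;> simp_all [cs, LT]
      · rw [sum_Rw]
        simp [av, yy]
    | aa e0 =>
      refine sh_of (fun r => match r with
        | .rm e k => if e = e0 then -(x (s e) k - x (t e) k) else 0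
        | _ => 0) (fun i' hi' => ?_) ?_
      · cases i' with
        | mu e k =>
          simp only [LT] at hi'
          simp only [cs]
          rw [if_neg]
          exact fun h => hi' h.symm
        | _ => simp_all [cs, LT]
      · rw [sum_Rw]
        simp only [av, yy, zero_smul, Finset.sum_const_zero, add_zero, zero_add, smul_add,
          sq_smul]
        rw [Finset.sum_eq_single e0]
        · simp only [if_true, smul_neg, Finset.smul_sum, neg_smul, Finset.sum_neg_distrib]
          congr 1
          exact Finset.sum_congr rfl fun k _ => smul_comm _ _ _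
        · intro e _ he
          simp [he]
        · simp
    | bb e0 =>
      refine sh_of (fun r => match r with
        | .rm e k => if e = e0 then (x (s e) k - x (t e) k) else 0
        | .ro k => -(x (s e0) k - x (t e0) k)
        | _ => 0) (fun i' hi' => ?_) ?_
      · cases i' with
        | mu e k =>
          simp only [LT] at hi'
          simp only [cs]
          rw [if_neg]
          exact fun h => hi' h.symm
        | mm k =>
          simp [cs]
        | _ => simp_all [cs, LT]
      · rw [sum_Rw]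
        simp only [av, yy, zero_smul, Finset.sum_const_zero, add_zero, zero_add]
        rw [Finset.sum_eq_single (s := Finset.univ) (a := e0)]
        · simp only [if_true, Fin.sum_univ_two, smul_sub, neg_smul, smul_add, sub_smul,
            smul_comm (p : ℤ) _ (_ : Ix E → ZMod (p ^ 2))]
          abel
        · intro e _ he
          simp [he]
        · simp
    | ph e0 =>
      refine sh_of (fun r => match r with
        | .rm e k => if e = e0 then (if k = w e0 then 1 else 0) else 0
        | _ => 0) (fun i' hi' => ?_) ?_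
      · cases i' with
        | mu e k =>
          simp only [LT] at hi'
          simp only [cs]
          rw [if_neg]
          exact fun h => hi' h.symm
        | _ => simp_all [cs, LT]
      · rw [sum_Rw]
        simp only [av, yy, zero_smul, Finset.sum_const_zero, add_zero, zero_add]
        rw [Finset.sum_eq_single e0]
        · simp
        · intro e _ he
          simp [he]
        · simp
    | ta e0 =>
      refine sh_of (fun r => match r with
        | .rc e => if e = e0 then 1 else 0
        | _ => 0) (fun i' hi' => ?_) ?_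
      · cases i' with
        | sg i =>
          simp only [LT, not_or] at hi'
          simp [cs, hi'.1, hi'.2]
        | aa e =>
          simp only [LT] at hi'
          simp only [cs]
          rw [if_neg]
          exact fun h => hi' h.symm
        | bb e =>
          simp only [LT] at hi'
          simp only [cs, add_zero]
          rw [if_neg]
          exact fun h => hi' h.symm
        | _ => simp_all [cs, LT]
      · rw [sum_Rw]
        simp [av, yy]

end Pool.Agent.Lib.H8da
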