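import Pool.Agent.Lib.H8da.Shape

set_option autoImplicit false
set_option linter.unusedSectionVars false

/-!
# The colouring defined by a homocyclic regulating quotient

Black box: `Shape.lean` (only the structure `Shape`) and `Kill.lean` (`sum_Rw`).

PROOF of `colour`. `X = Fin m → ZMod (p ^ 2)`, `m = 2 + 3 |E|`, `W = Fin m → ZMod p`.
(1) There is an additive map `P : W →+ X` which is injective and whose range consists of all
`p • x` and also of all `x` with `p • x = 0` (coordinatewise `ZMod p → ZMod (p ^ 2)`,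
`u ↦ p * u.val`; as an additive map `ZMod.lift p ⟨zmultiplesHom _ (p : ZMod (p ^ 2)), _⟩`).
In particular `P (k • w) = k • P w` for integers `k`, and `p • P w = 0`.
(2) Choose `om k, mu e k, tv e : W` with `P (om k) = y (.ro k)`, `P (mu e k) = y (.rm e k)`
(both are killed by `p`) and `P (tv e) = v (.ta e)` (`= p • y (.rt e)`). Let `L` be the
`ZMod p`-span of these `2 + 2 |E| + |E| = m` vectors of `W`.
(3) `L = ⊤`. Every `v i` has the form `P w` with `w ∈ L` (by the formulas `v_*` of `Shape`, `0` for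
the maximal types); so `p • v i = 0`, and `p • y r = P w` with `w ∈ L` (by the formulas `y_*`). Given
`w : W`, `P w = p • x'` for some `x'`, `x' = ∑ n r • y r + ∑ c i • v i` by `hgen`, so
`P w = ∑ n r • (p • y r) + 0 ∈ P(L)`, so `w ∈ L` as `P` is injective.
(4) So the family `om, mu, tv` (indexed by `Fin 2 ⊕ (E × Fin 2) ⊕ E`, of cardinality
`m = finrank (ZMod p) W`) is linearly independent
(`linearIndependent_of_top_le_span_of_card_eq_finrank`), a basis. Let `co k : W →ₗ[ZMod p] ZMod p` be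
the coordinate at `om k`, and `ct e` the coordinate at `tv e`.
(5) Put `Ve = v (.sg (s e)) - v (.sg (t e)) + v (.aa e) + v (.bb e) = p • y (.rc e)`. It is `P w` with
`w = ∑ k, (x (s e) k - x (t e) k) • om k + ∑ k, al e k • mu e k + ∑ k, be e k • (mu e k - om k)`.
Claim `Ve = 0`. By `v_ta`, `0 = p • v (.ta e) = ta e • Ve + 0`. If `p ∤ ta e` then, as
`p • Ve = 0` too, `Ve = 0` (Bezout). If `ta e = p * q`, then `v (.ta e) = q • Ve + (ro, rm terms)`
is `P w'` with `w'` in the span of the `om, mu`, so `tv e = w'`, contradiction: apply `ct e`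
(`ct e (tv e) = 1`, `ct e` kills all `om, mu`).
(6) Apply `P`-injectivity and `co k` to `Ve = 0`: `x (s e) k - x (t e) k - be e k = 0` in `ZMod p`.
(7) The `3 |E| + 2 = m` vectors `tv e`, `bv e`, `pv e`, `zv k` with `P (bv e) = v (.bb e)`,
`P (pv e) = v (.ph e)`, `P (zv k) = v (.zz k)` also span `W`: as in (3), `P w = ∑ n r • (p • y r)`,
and `p • y (.ro k) = 0`, `p • y (.rm e k) = 0`, `p • y (.rc e) = Ve = 0`, the other `p • y r` are
in the span. So they are linearly independent, so `bv e ≠ 0`, `v (.bb e) ≠ 0`. By `v_bb` some `be e k`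
is not divisible by `p` (otherwise `v (.bb e) = 0` as `p` kills `y (.rm e k)`, `y (.ro k)`).
(8) So by (6) `x (s e) k ≠ x (t e) k` in `ZMod p` for this `k`.
-/

namespace Pool.Agent.Lib.H8da

variable {V E : Type} [DecidableEq V] [DecidableEq E] [Fintype V] [Fintype E]

namespace ColourAux

variable (p : ℕ) [Fact p.Prime]

/-- multiplication by `p` from `ZMod p` to `ZMod (p ^ 2)` -/
noncomputable def Pz : ZMod p →+ ZMod (p ^ 2) :=
  ZMod.lift p ⟨zmultiplesHom (ZMod (p ^ 2)) (p : ZMod (p ^ 2)), by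
    rw [zmultiplesHom_apply, zsmul_eq_mul]
    have h1 : ((p : ℤ) : ZMod (p ^ 2)) * (p : ZMod (p ^ 2)) = ((p ^ 2 : ℕ) : ZMod (p ^ 2)) := by
      push_cast; ring
    rw [h1, ZMod.natCast_self]⟩

theorem Pz_coe (n : ℤ) : Pz p (n : ZMod p) = ((n * p : ℤ) : ZMod (p ^ 2)) := by
  unfold Pz
  rw [ZMod.lift_coe]
  simp only [zmultiplesHom_apply, zsmul_eq_mul]
  push_cast
  rfl

theorem Pz_inj (a : ZMod p) (h : Pz p a = 0) : a = 0 := by
  obtain ⟨n, rfl⟩ := ZMod.intCast_surjective a
  rw [Pz_coe, ZMod.intCast_zmod_eq_zero_iff_dvd] at h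
  rw [ZMod.intCast_zmod_eq_zero_iff_dvd]
  push_cast at h
  rw [pow_two] at h
  have hp : (p : ℤ) ≠ 0 := by exact_mod_cast (Fact.out : p.Prime).ne_zero
  exact Int.dvd_of_mul_dvd_mul_right hp h

theorem Pz_mul (x : ZMod (p ^ 2)) : ∃ a : ZMod p, (p : ℤ) • x = Pz p a := by
  obtain ⟨n, rfl⟩ := ZMod.intCast_surjective x
  refine ⟨(n : ZMod p), ?_⟩
  rw [Pz_coe, zsmul_eq_mul]
  push_cast
  ring

theorem Pz_ker (x : ZMod (p ^ 2)) (h : (p : ℤ) • x = 0) : ∃ a : ZMod p, x = Pz p a := by
  obtain ⟨n, rfl⟩ := ZMod.intCast_surjective x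
  have h1 : (((p : ℤ) * n : ℤ) : ZMod (p ^ 2)) = 0 := by
    rw [zsmul_eq_mul] at h
    push_cast at h ⊢
    exact h
  rw [ZMod.intCast_zmod_eq_zero_iff_dvd] at h1
  push_cast at h1
  rw [pow_two] at h1
  have hp : (p : ℤ) ≠ 0 := by exact_mod_cast (Fact.out : p.Prime).ne_zero
  obtain ⟨k, hk⟩ := Int.dvd_of_mul_dvd_mul_left hp h1
  refine ⟨(k : ZMod p), ?_⟩
  rw [Pz_coe, hk, mul_comm]

theorem Pz_range (a : ZMod p) : ∃ x : ZMod (p ^ 2), Pz p a = (p : ℤ) • x := by
  obtain ⟨n, rfl⟩ := ZMod.intCast_surjective a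
  refine ⟨(n : ZMod (p ^ 2)), ?_⟩
  rw [Pz_coe, zsmul_eq_mul]
  push_cast
  ring

/-- the coordinatewise map -/
noncomputable def PP (m : ℕ) : (Fin m → ZMod p) →+ (Fin m → ZMod (p ^ 2)) := (Pz p).compLeft (Fin m)

variable (m : ℕ)

theorem PP_apply (w : Fin m → ZMod p) (i : Fin m) : PP p m w i = Pz p (w i) := rfl

theorem PP_inj : Function.Injective (PP p m) := by
  rw [injective_iff_map_eq_zero]
  intro w hw
  funext i
  exact Pz_inj p _ (congrFun hw i)

theorem PP_mul (x : Fin m → ZMod (p ^ 2)) : ∃ w, (p : ℤ) • x = PP p m w := by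
  choose f hf using fun i => Pz_mul p (x i)
  exact ⟨f, funext hf⟩

theorem PP_ker (x : Fin m → ZMod (p ^ 2)) (h : (p : ℤ) • x = 0) : ∃ w, x = PP p m w := by
  choose f hf using fun i => Pz_ker p (x i) (congrFun h i)
  exact ⟨f, funext hf⟩

theorem PP_range (w : Fin m → ZMod p) : ∃ x, PP p m w = (p : ℤ) • x := by
  choose f hf using fun i => Pz_range p (w i)
  exact ⟨f, funext hf⟩

theorem PP_p (w : Fin m → ZMod p) : (p : ℤ) • PP p m w = 0 := by
  rw [← map_zsmul]
  have h1 : (p : ℤ) • w = 0 := by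
    funext i
    simp
  rw [h1, map_zero]

end ColourAux

open ColourAux

theorem colour {p : ℕ} [Fact p.Prime] {s t : E → V} {m : ℕ} (hm : m = 2 + 3 * Fintype.card E)
    {v : Nd V E → (Fin m → ZMod (p ^ 2))} {y : Rw E → (Fin m → ZMod (p ^ 2))}
    {x : V → Fin 2 → ℤ} {z : Fin 2 → Fin 2 → ℤ} {al ph be : E → Fin 2 → ℤ} {ta : E → ℤ}
    {la : E → Fin 2 → ℤ} {ka : E → E → Fin 2 → ℤ}
    (h : Shape p s t v y x z al ph be ta la ka)
    (hgen : ∀ x : Fin m → ZMod (p ^ 2), ∃ (n : Rw E → ℤ) (c : Nd V E → ℤ),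
      x = ∑ r, n r • y r + ∑ i, c i • v i) (e : E) :
    ∃ k, ((x (s e) k : ℤ) : ZMod p) ≠ ((x (t e) k : ℤ) : ZMod p) := by
  classical
  set P := PP p m with hP
  have hPinj : Function.Injective P := PP_inj p m
  choose om hom using fun k => PP_ker p m _ (h.y_ro k)
  choose mu hmu using fun e k => PP_ker p m _ (h.y_rm e k)
  have ht : ∀ e, ∃ w, v (.ta e) = P w := fun e => by
    rw [← h.y_rt e]; exact PP_mul p m _
  choose tv htv using ht
  set bv : E → (Fin m → ZMod p) := fun e => ∑ k, be e k • (mu e k - om k) with hbvd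
  set pv : E → (Fin m → ZMod p) := fun e => ∑ k, ph e k • mu e k with hpvd
  set zv : Fin 2 → (Fin m → ZMod p) := fun k => ∑ l, z k l • om l with hzvd
  set cv : E → (Fin m → ZMod p) := fun e => ∑ k, (x (s e) k - x (t e) k) • om k +
    ∑ k, al e k • mu e k + bv e with hcvd
  have hbv : ∀ e, v (.bb e) = P (bv e) := by
    intro e
    rw [h.v_bb, hbvd, map_sum]
    refine Finset.sum_congr rfl fun k _ => ?_
    rw [map_zsmul, map_sub, hmu, hom]
  have hpv : ∀ e, v (.ph e) = P (pv e) := by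
    intro e
    rw [h.v_ph, hpvd, map_sum]
    refine Finset.sum_congr rfl fun k _ => ?_
    rw [map_zsmul, hmu]
  have hzv : ∀ k, v (.zz k) = P (zv k) := by
    intro k
    rw [h.v_zz, hzvd, map_sum]
    refine Finset.sum_congr rfl fun k _ => ?_
    rw [map_zsmul, hom]
  have hcv : ∀ e, (p : ℤ) • y (.rc e) = P (cv e) := by
    intro e
    have h1 : P (cv e) = ∑ k, (x (s e) k - x (t e) k) • y (.ro k) + ∑ k, al e k • y (.rm e k) +
        P (bv e) := by
      rw [hcvd]
      simp only [map_add, map_sum, map_zsmul, hom, hmu]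
      rfl
    rw [h.y_rc, h.v_sg, h.v_sg, h.v_aa, hbv, h1, ← Finset.sum_sub_distrib]
    simp only [sub_smul]
  have hro : ∀ (a : ℤ) (k : Fin 2), (p : ℤ) • a • y (.ro k) = 0 := fun a k => by
    rw [smul_comm, h.y_ro, smul_zero]
  have hrm : ∀ (a : ℤ) (e : E) (k : Fin 2), (p : ℤ) • a • y (.rm e k) = 0 := fun a e k => by
    rw [smul_comm, h.y_rm, smul_zero]
  have hv0 : ∀ i, (p : ℤ) • v i = 0 := by
    intro i
    cases i with
    | sg i => rw [h.v_sg, Finset.smul_sum]; exact Finset.sum_eq_zero fun k _ => hro _ k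
    | zz k => rw [hzv]; exact PP_p p m _
    | ta e => rw [htv]; exact PP_p p m _
    | aa e => rw [h.v_aa, Finset.smul_sum]; exact Finset.sum_eq_zero fun k _ => hrm _ e k
    | bb e => rw [hbv]; exact PP_p p m _
    | ph e => rw [hpv]; exact PP_p p m _
    | mu e k => rw [h.v_mu, smul_zero]
    | mm k => rw [h.v_mm, smul_zero]
    | oo k => rw [h.v_oo, smul_zero]
    | p1 => rw [h.v_p1, smul_zero]
    | p2 => rw [h.v_p2, smul_zero]
  obtain ⟨pw, hpw, hw1, hw2, hw3, hw4, hw5, hw6, hw7⟩ : ∃ pw : Rw E → (Fin m → ZMod p),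
      (∀ r, (p : ℤ) • y r = P (pw r)) ∧ (∀ k, pw (.ro k) = 0) ∧ (∀ e k, pw (.rm e k) = 0) ∧
      (∀ k, pw (.rz k) = zv k) ∧ (∀ e, pw (.rt e) = tv e) ∧ (∀ e, pw (.rb e) = bv e) ∧
      (∀ e, pw (.rp e) = pv e) ∧ (∀ e, pw (.rc e) = cv e) := by
    refine ⟨fun r => match r with
      | .ro _ => 0
      | .rm _ _ => 0
      | .rz k => zv k
      | .rt e => tv e
      | .rb e => bv e
      | .rp e => pv e
      | .rc e => cv e, ?_, fun _ => rfl, fun _ _ => rfl, fun _ => rfl, fun _ => rfl,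
      fun _ => rfl, fun _ => rfl, fun _ => rfl⟩
    intro r
    cases r with
    | ro k => simp only [map_zero]; exact h.y_ro k
    | rz k => simp only; rw [h.y_rz, hzv]
    | rm e k => simp only [map_zero]; exact h.y_rm e k
    | rc e => exact hcv e
    | rt e => simp only; rw [h.y_rt, htv]
    | rb e => simp only; rw [h.y_rb, hbv]
    | rp e => simp only; rw [h.y_rp, hpv]
  have hG : ∀ w, ∃ n : Rw E → ℤ, w = ∑ r, n r • pw r := by
    intro w
    obtain ⟨x', hx'⟩ := PP_range p m w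
    obtain ⟨n, c, hx⟩ := hgen x'
    refine ⟨n, hPinj ?_⟩
    rw [hP, hx', hx, smul_add, Finset.smul_sum, Finset.smul_sum, ← hP, map_sum]
    have h0 : ∑ i, (p : ℤ) • c i • v i = 0 := Finset.sum_eq_zero fun i _ => by
      rw [smul_comm, hv0, smul_zero]
    rw [h0, add_zero]
    refine Finset.sum_congr rfl fun r _ => ?_
    rw [smul_comm, hpw, map_zsmul]
  have hfin : Module.finrank (ZMod p) (Fin m → ZMod p) = m := by simp
  -- the first basis
  set b1 : (Fin 2 ⊕ (E × Fin 2) ⊕ E) → (Fin m → ZMod p) :=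
    Sum.elim om (Sum.elim (fun q => mu q.1 q.2) tv) with hb1
  have m1 : ∀ k, om k ∈ Submodule.span (ZMod p) (Set.range b1) := fun k =>
    Submodule.subset_span ⟨Sum.inl k, rfl⟩
  have m2 : ∀ e k, mu e k ∈ Submodule.span (ZMod p) (Set.range b1) := fun e k =>
    Submodule.subset_span ⟨Sum.inr (Sum.inl (e, k)), rfl⟩
  have m3 : ∀ e, tv e ∈ Submodule.span (ZMod p) (Set.range b1) := fun e =>
    Submodule.subset_span ⟨Sum.inr (Sum.inr e), rfl⟩
  have m4 : ∀ e, bv e ∈ Submodule.span (ZMod p) (Set.range b1) := fun e =>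
    Submodule.sum_mem _ fun k _ => zsmul_mem (sub_mem (m2 e k) (m1 k)) _
  have hsp1 : ⊤ ≤ Submodule.span (ZMod p) (Set.range b1) := by
    intro w _
    obtain ⟨n, hn⟩ := hG w
    rw [hn]
    refine Submodule.sum_mem _ fun r _ => zsmul_mem ?_ _
    cases r with
    | ro k => rw [hw1]; exact zero_mem _
    | rz k => rw [hw3]; exact Submodule.sum_mem _ fun l _ => zsmul_mem (m1 l) _
    | rm e k => rw [hw2]; exact zero_mem _
    | rc e =>
      rw [hw7]
      exact add_mem (add_mem (Submodule.sum_mem _ fun l _ => zsmul_mem (m1 l) _)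
        (Submodule.sum_mem _ fun l _ => zsmul_mem (m2 e l) _)) (m4 e)
    | rt e => rw [hw4]; exact m3 e
    | rb e => rw [hw5]; exact m4 e
    | rp e => rw [hw6]; exact Submodule.sum_mem _ fun l _ => zsmul_mem (m2 e l) _
  have hli1 : LinearIndependent (ZMod p) b1 := by
    apply linearIndependent_of_top_le_span_of_card_eq_finrank hsp1
    rw [hfin, hm]
    simp
    ring
  set B1 := Module.Basis.mk hli1 hsp1 with hB1
  have hco : ∀ i j, B1.coord i (b1 j) = if j = i then 1 else 0 := by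
    intro i j
    have h1 : b1 j = B1 j := by rw [hB1, Module.Basis.mk_apply]
    rw [h1, Module.Basis.coord_apply, Module.Basis.repr_self, Finsupp.single_apply]
  have co_om : ∀ k l, B1.coord (Sum.inl k) (om l) = if l = k then 1 else 0 := by
    intro k l
    have := hco (Sum.inl k) (Sum.inl l)
    simpa [hb1] using this
  have co_mu : ∀ k e l, B1.coord (Sum.inl k) (mu e l) = 0 := by
    intro k e l
    have := hco (Sum.inl k) (Sum.inr (Sum.inl (e, l)))
    simpa [hb1] using this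
  have ct_om : ∀ e l, B1.coord (Sum.inr (Sum.inr e)) (om l) = 0 := by
    intro e l
    have := hco (Sum.inr (Sum.inr e)) (Sum.inl l)
    simpa [hb1] using this
  have ct_mu : ∀ e e' l, B1.coord (Sum.inr (Sum.inr e)) (mu e' l) = 0 := by
    intro e e' l
    have := hco (Sum.inr (Sum.inr e)) (Sum.inr (Sum.inl (e', l)))
    simpa [hb1] using this
  have ct_tv : ∀ e, B1.coord (Sum.inr (Sum.inr e)) (tv e) = 1 := by
    intro e
    have := hco (Sum.inr (Sum.inr e)) (Sum.inr (Sum.inr e))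
    simpa [hb1] using this
  have hcast : ∀ (n : ℤ) (w : Fin m → ZMod p), n • w = ((n : ℤ) : ZMod p) • w := fun n w =>
    (Int.cast_smul_eq_zsmul (ZMod p) n w).symm
  have hcv0 : ∀ e, cv e = 0 := by
    intro e
    by_cases hta : ((ta e : ℤ) : ZMod p) = 0
    · exfalso
      obtain ⟨q, hq⟩ := (ZMod.intCast_zmod_eq_zero_iff_dvd _ _).1 hta
      have h1 : tv e = q • cv e + ∑ k, la e k • om k + ∑ e', ∑ k, ka e e' k • mu e' k := by
        apply hPinj
        rw [← htv, h.v_ta, hq, mul_comm, mul_smul, hcv]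
        simp only [map_add, map_sum, map_zsmul, hom, hmu]
        rfl
      have h2 := congrArg (B1.coord (Sum.inr (Sum.inr e))) h1
      rw [ct_tv, hcvd, hbvd] at h2
      simp only [map_add, map_sum, map_zsmul, map_sub, ct_om, ct_mu, smul_zero, sub_self,
        Finset.sum_const_zero, add_zero] at h2
      exact one_ne_zero h2
    · have h1 : ta e • cv e = 0 := by
        apply hPinj
        have h2 : (p : ℤ) • v (.ta e) = 0 := hv0 _
        rw [h.v_ta, smul_add, smul_add, Finset.smul_sum, Finset.smul_sum] at h2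
        have h3 : ∑ k, (p : ℤ) • la e k • y (.ro k) = 0 :=
          Finset.sum_eq_zero fun k _ => hro _ k
        have h4 : ∑ e', (p : ℤ) • ∑ k, ka e e' k • y (.rm e' k) = 0 :=
          Finset.sum_eq_zero fun e' _ => by
            rw [Finset.smul_sum]
            exact Finset.sum_eq_zero fun k _ => hrm _ e' k
        rw [h3, h4, add_zero, add_zero, smul_comm, hcv] at h2
        rw [map_zsmul, h2, map_zero]
      rw [hcast] at h1
      exact (smul_eq_zero.1 h1).resolve_left hta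
  have hbe : ∀ k, ((x (s e) k : ℤ) : ZMod p) - ((x (t e) k : ℤ) : ZMod p) -
      ((be e k : ℤ) : ZMod p) = 0 := by
    intro k
    have h2 := congrArg (B1.coord (Sum.inl k)) (hcv0 e)
    rw [hcvd, hbvd] at h2
    simp only [map_add, map_sum, map_zsmul, map_sub, co_om, co_mu, smul_zero, map_zero,
      Finset.sum_const_zero, add_zero, zero_sub, smul_neg, Finset.sum_neg_distrib] at h2
    simp only [zsmul_eq_mul, mul_ite, mul_one, mul_zero, Finset.sum_ite_eq', Finset.mem_univ,
      if_true, Int.cast_sub] at h2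
    rw [← h2]
    ring
  -- the second basis
  set b2 : (Fin 2 ⊕ E ⊕ E ⊕ E) → (Fin m → ZMod p) :=
    Sum.elim zv (Sum.elim tv (Sum.elim bv pv)) with hb2
  have hsp2 : ⊤ ≤ Submodule.span (ZMod p) (Set.range b2) := by
    intro w _
    obtain ⟨n, hn⟩ := hG w
    rw [hn]
    refine Submodule.sum_mem _ fun r _ => zsmul_mem ?_ _
    cases r with
    | ro k => rw [hw1]; exact zero_mem _
    | rz k => rw [hw3]; exact Submodule.subset_span ⟨Sum.inl k, rfl⟩
    | rm e k => rw [hw2]; exact zero_mem _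
    | rc e => rw [hw7, hcv0]; exact zero_mem _
    | rt e => rw [hw4]; exact Submodule.subset_span ⟨Sum.inr (Sum.inl e), rfl⟩
    | rb e => rw [hw5]; exact Submodule.subset_span ⟨Sum.inr (Sum.inr (Sum.inl e)), rfl⟩
    | rp e => rw [hw6]; exact Submodule.subset_span ⟨Sum.inr (Sum.inr (Sum.inr e)), rfl⟩
  have hli2 : LinearIndependent (ZMod p) b2 := by
    apply linearIndependent_of_top_le_span_of_card_eq_finrank hsp2
    rw [hfin, hm]
    simp
    ring
  have hbne : bv e ≠ 0 := hli2.ne_zero (Sum.inr (Sum.inr (Sum.inl e)))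
  by_contra hcon
  push Not at hcon
  apply hbne
  rw [hbvd]
  refine Finset.sum_eq_zero fun k _ => ?_
  have h1 := hbe k
  rw [hcon k, sub_self, zero_sub, neg_eq_zero] at h1
  rw [hcast, h1, zero_smul]

end Pool.Agent.Lib.H8da
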