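import Pool.Agent.Lib.H8da.Crit

set_option autoImplicit false
set_option linter.unusedSectionVars false

/-!
The types and the generators of the groups attached to a finite graph with vertex set `V` and edge
set `E` (an edge `e` joins `s e` and `t e`).
-/

namespace Pool.Agent.Lib.H8da

/-- the types -/
inductive Nd (V E : Type)
  | sg (i : V) : Nd V E
  | zz (t : Fin 2) : Nd V E
  | ta (e : E) : Nd V E
  | aa (e : E) : Nd V E
  | bb (e : E) : Nd V E
  | ph (e : E) : Nd V E
  | mu (e : E) (t : Fin 2) : Nd V E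
  | mm (t : Fin 2) : Nd V E
  | oo (t : Fin 2) : Nd V E
  | p1 : Nd V E
  | p2 : Nd V E
deriving DecidableEq, Fintype

/-- the generators -/
inductive Rw (E : Type)
  | ro (t : Fin 2) : Rw E
  | rz (t : Fin 2) : Rw E
  | rm (e : E) (t : Fin 2) : Rw E
  | rc (e : E) : Rw E
  | rt (e : E) : Rw E
  | rb (e : E) : Rw E
  | rp (e : E) : Rw E
deriving DecidableEq, Fintype

variable {V E : Type} [DecidableEq V] [DecidableEq E]

/-- the strict order of the types -/
def LT (s t : E → V) : Nd V E → Nd V E → Prop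
  | .sg _, .oo _ => True
  | .sg _, .mm _ => True
  | .zz _, .oo _ => True
  | .zz _, .mm _ => True
  | .aa _, .mm _ => True
  | .aa e, .mu e' _ => e = e'
  | .ph _, .mm _ => True
  | .ph e, .mu e' _ => e = e'
  | .bb _, .oo _ => True
  | .bb e, .mu e' _ => e = e'
  | .ta e, .sg i => i = s e ∨ i = t e
  | .ta e, .aa e' => e = e'
  | .ta e, .bb e' => e = e'
  | .ta _, .oo _ => True
  | .ta _, .mm _ => True
  | .ta e, .mu e' _ => e = e'
  | _, _ => False

/-- the rows of the matrix of the generators -/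
def Dm (s t : E → V) : Rw E → Nd V E → ℤ
  | .ro k => Pi.single (.oo k) 1 - Pi.single (.mm k) 1
  | .rz k => Pi.single (.zz k) 1 + Pi.single .p2 1
  | .rm e k => Pi.single (.mu e k) 1 - Pi.single (.mm k) 1
  | .rc e => Pi.single (.sg (s e)) 1 - Pi.single (.sg (t e)) 1 + Pi.single (.aa e) 1 +
      Pi.single (.bb e) 1
  | .rt e => Pi.single (.ta e) 1 + Pi.single .p1 1
  | .rb e => Pi.single (.bb e) 1 + Pi.single .p2 1
  | .rp e => Pi.single (.ph e) 1 + Pi.single .p2 1

variable [Fintype E]

/-- the columns of the matrix, applied to a row vector -/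
def cs (s t : E → V) (n : Rw E → ℤ) : Nd V E → ℤ
  | .sg i => ∑ e, ((if i = s e then 1 else 0) - (if i = t e then 1 else 0)) * n (.rc e)
  | .zz k => n (.rz k)
  | .ta e => n (.rt e)
  | .aa e => n (.rc e)
  | .bb e => n (.rc e) + n (.rb e)
  | .ph e => n (.rp e)
  | .mu e k => n (.rm e k)
  | .mm k => -n (.ro k) - ∑ e, n (.rm e k)
  | .oo k => n (.ro k)
  | .p1 => ∑ e, n (.rt e)
  | .p2 => ∑ e, n (.rb e) + ∑ e, n (.rp e) + ∑ k, n (.rz k)

/-- the generators that may occur in an element supported on the types `> j` -/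
def Al : Nd V E → Rw E → Prop
  | .sg _, .ro _ => True
  | .zz _, .ro _ => True
  | .aa e, .rm e' _ => e' = e
  | .ph e, .rm e' _ => e' = e
  | .bb _, .ro _ => True
  | .bb e, .rm e' _ => e' = e
  | .ta _, .ro _ => True
  | .ta _, .rm _ _ => True
  | .ta e, .rc e' => e' = e
  | _, _ => False

end Pool.Agent.Lib.H8da
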