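import Pool.Agent.Lib.H8da.Model

set_option autoImplicit false
set_option linter.unusedSectionVars false

/-!
The groups `grp p S D`: types, the regulating subgroup, and two criteria for regulating quotients.
-/

namespace Pool.Agent.Lib.H8da

open Pool.Agent.Lib.C8da183

variable {p : ℕ} [Fact p.Prime] {J R : Type*} [Fintype J] [DecidableEq J] [Fintype R]
  {S : J → Set ℕ} {D : R → J → ℤ}

/-- the `j`-th basis vector -/
def bv (j : J) : J → ℚ := Pi.single j 1

theorem bv_self (j : J) : bv j j = 1 := Pi.single_eq_same j 1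

theorem bv_ne {i j : J} (h : i ≠ j) : bv j i = 0 := Pi.single_eq_of_ne h 1

theorem smul_bv_mem_base {j : J} {a : ℚ} (ha : a ∈ loc (S j)) : a • bv j ∈ baseG S := by
  intro i
  by_cases h : i = j
  · subst h
    rw [Pi.smul_apply, bv_self, smul_eq_mul, mul_one]
    exact ha
  · rw [Pi.smul_apply, bv_ne h, smul_zero]
    exact (loc (S i)).zero_mem

theorem bv_mem_base (j : J) : bv j ∈ baseG S := by
  have := smul_bv_mem_base (S := S) (j := j) (a := 1) (by exact_mod_cast int_mem_loc (S j) 1)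
  rwa [one_smul] at this

theorem bv_mem (j : J) : bv j ∈ grp p S D := base_le (bv_mem_base j)

theorem typeLE_bv (hprime : ∀ j, ∀ q ∈ S j, q.Prime) (i j : J) :
    TypeLE (grp p S D) (bv i) (grp p S D) (bv j) ↔ S i ⊆ S j := by
  have hp : p.Prime := Fact.out
  constructor
  · rintro ⟨n, hn, h⟩ l hl
    have hlp : l.Prime := hprime i l hl
    set m : ℕ := p * n with hm
    have hm0 : 0 < m := Nat.mul_pos hp.pos hn
    have h1 : ((l : ℚ) ^ m)⁻¹ • bv i ∈ grp p S D :=
      base_le (smul_bv_mem_base (inv_pow_mem_loc hlp hl m))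
    have h2 := p_mem_base (h _ h1) j
    have h3 : (p • (((l : ℚ) ^ m)⁻¹ • (n • bv j))) j = (m : ℚ) / (l : ℚ) ^ m := by
      rw [Pi.smul_apply, Pi.smul_apply, Pi.smul_apply, bv_self, smul_eq_mul, nsmul_eq_mul,
        nsmul_eq_mul, mul_one, hm]
      push_cast
      ring
    rw [h3] at h2
    have hl0 : (l : ℚ) ≠ 0 := by exact_mod_cast hlp.ne_zero
    set a : ℚ := (m : ℚ) / (l : ℚ) ^ m with ha
    by_contra hlS
    have h4 : ¬ l ∣ a.den := fun hd => hlS (h2 l hlp hd)
    have h5 : a.den ∣ l ^ m := by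
      have h6 := Rat.den_dvd (m : ℤ) ((l ^ m : ℕ) : ℤ)
      rw [Rat.divInt_eq_div] at h6
      have h7 : (((m : ℤ) : ℚ) / (((l ^ m : ℕ) : ℤ) : ℚ)) = a := by
        rw [ha]; push_cast; rfl
      rw [h7] at h6
      exact Int.natCast_dvd_natCast.1 h6
    have h6 : a.den = 1 := by
      obtain ⟨t, _, ht⟩ := (Nat.dvd_prime_pow hlp).1 h5
      rcases Nat.eq_zero_or_pos t with h7 | h7
      · rw [ht, h7, pow_zero]
      · exact absurd (by rw [ht]; exact dvd_pow_self l h7.ne') h4
    have h7 : (a.num : ℚ) = a := by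
      have := Rat.mul_den_eq_num a
      rw [h6] at this
      simpa using this.symm
    have h8 : (a.num : ℤ) * (l : ℤ) ^ m = m := by
      have h9 : (a.num : ℚ) * (l : ℚ) ^ m = m := by
        rw [h7, ha, div_mul_cancel₀ _ (pow_ne_zero _ hl0)]
      exact_mod_cast h9
    have h9 : (l : ℤ) ^ m ∣ (m : ℤ) := ⟨a.num, by rw [mul_comm]; exact h8.symm⟩
    have h10 : l ^ m ∣ m := by exact_mod_cast h9
    exact absurd (Nat.le_of_dvd hm0 h10) (not_le.2 (Nat.lt_pow_self hlp.one_lt))
  · intro h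
    refine ⟨p, hp.pos, fun q hq => ?_⟩
    have h1 := p_mem_base hq i
    rw [Pi.smul_apply, Pi.smul_apply, bv_self, smul_eq_mul, mul_one, nsmul_eq_mul] at h1
    have h2 : q • (p • bv j) = ((p : ℚ) * q) • bv j := by
      rw [← Nat.cast_smul_eq_nsmul ℚ, smul_smul, mul_comm]
    rw [h2]
    exact base_le (smul_bv_mem_base (loc_mono h h1))

theorem refbv (hS : ∀ j, p ∉ S j) : Ref (grp p S D) (baseG S) (bv : J → J → ℚ)
    (fun j => LinearMap.proj j) := ref hS

/-- the strict order of the types -/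
def lt (S : J → Set ℕ) (j i : J) : Prop := S j ⊆ S i ∧ ¬ S i ⊆ S j

theorem mem_up_bv (hS : ∀ j, p ∉ S j) (hprime : ∀ j, ∀ q ∈ S j, q.Prime) {y : J → ℚ}
    (hy : y ∈ grp p S D) (j : J) :
    y ∈ up (grp p S D) (bv j) ↔ ∀ i, y i ≠ 0 → S j ⊆ S i := by
  rw [(refbv hS).mem_up_iff hy]
  refine forall_congr' fun i => ?_
  rw [typeLE_bv hprime]
  rfl

theorem mem_sharp_bv (hS : ∀ j, p ∉ S j) (hprime : ∀ j, ∀ q ∈ S j, q.Prime) {y : J → ℚ}
    (hy : y ∈ grp p S D) (j : J) :
    y ∈ sharp (grp p S D) (bv j) ↔ ∀ i, ¬ lt S j i → y i = 0 := by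
  rw [(refbv hS).mem_sharp_iff hy]
  refine forall_congr' fun i => ?_
  rw [typeLE_bv hprime, typeLE_bv hprime]
  constructor
  · intro h h1
    by_contra h2
    exact h1 (h h2)
  · intro h h1
    by_contra h2
    exact h1 (h h2)

/-- no element of the row space supported on the types `≥ j` involves `j` -/
def RegCond (p : ℕ) (S : J → Set ℕ) (D : R → J → ℤ) : Prop :=
  ∀ j, ∀ k ∈ rowSpace p D, (∀ i, k i ≠ 0 → S j ⊆ S i) → k j = 0

theorem coord_of_up (hS : ∀ j, p ∉ S j) (hprime : ∀ j, ∀ q ∈ S j, q.Prime)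
    (hreg : RegCond p S D) {y : J → ℚ} {j : J} (hy : y ∈ up (grp p S D) (bv j)) :
    y j ∈ loc (S j) := by
  have hyG : y ∈ grp p S D := up_le hy
  have h1 := (mem_up_bv hS hprime hyG j).1 hy
  have h2 : red 1 hS (⟨y, hyG⟩ : grp p S D) ∈ rowSpace p D := by
    rw [← range_red hS]; exact ⟨_, rfl⟩
  have h3 := hreg j _ h2 (fun i hi => by
    apply h1
    intro h0
    apply hi
    rw [red_apply]
    have h4 : rd p 1 ((p : ℚ) * y i) (pi_mul hS hyG i) = rd p 1 ((0 : ℤ) : ℚ) (PI.int 0) :=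
      rd_congr (by rw [h0]; simp) _ _
    rw [h4, rd_int]
    simp)
  rw [red_apply, rd_eq_zero_iff] at h3
  have hp0 : (p : ℚ) ≠ 0 := by exact_mod_cast (Fact.out : p.Prime).ne_zero
  rw [mul_div_cancel_left₀ _ hp0] at h3
  exact (coord_mem_iff hS hyG j).2 h3

theorem rest_mem_sharp (hS : ∀ j, p ∉ S j) (hprime : ∀ j, ∀ q ∈ S j, q.Prime)
    (hanti : ∀ i j, S i ⊆ S j → S j ⊆ S i → i = j) (hreg : RegCond p S D) {y : J → ℚ} {j : J}
    (hy : y ∈ up (grp p S D) (bv j)) : y - y j • bv j ∈ sharp (grp p S D) (bv j) := by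
  have hyG : y ∈ grp p S D := up_le hy
  have h1 := (mem_up_bv hS hprime hyG j).1 hy
  have h2 : y j • bv j ∈ grp p S D := base_le (smul_bv_mem_base (coord_of_up hS hprime hreg hy))
  rw [mem_sharp_bv hS hprime ((grp p S D).sub_mem hyG h2)]
  intro i hi
  rw [Pi.sub_apply, Pi.smul_apply]
  by_cases h3 : i = j
  · rw [h3, bv_self, smul_eq_mul, mul_one, sub_self]
  · rw [bv_ne h3, smul_zero, sub_zero]
    by_contra h4
    exact hi ⟨h1 i h4, fun h5 => h3 (hanti i j h5 (h1 i h4))⟩

theorem isRegulating (hS : ∀ j, p ∉ S j) (hprime : ∀ j, ∀ q ∈ S j, q.Prime)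
    (hanti : ∀ i j, S i ⊆ S j → S j ⊆ S i → i = j) (hreg : RegCond p S D) :
    IsRegulating (grp p S D) (baseG S) := by
  refine (refbv hS).isRegulating fun j y hy => ?_
  rw [AddSubgroup.mem_sup]
  exact ⟨y j • bv j, smul_bv_mem_base (coord_of_up hS hprime hreg hy), y - y j • bv j,
    rest_mem_sharp hS hprime hanti hreg hy, by abel⟩

theorem isACD (hS : ∀ j, p ∉ S j) : IsACD (grp p S D) := (refbv hS).isACD

theorem card_rowSpace_dvd : Nat.card (rowSpace p D) ∣ p ^ Fintype.card J := by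
  have : NeZero (p ^ 1) := ⟨by rw [pow_one]; exact (Fact.out : p.Prime).ne_zero⟩
  have h1 := AddSubgroup.card_addSubgroup_dvd_card (rowSpace p D)
  have h2 : Nat.card (J → ZMod (p ^ 1)) = p ^ Fintype.card J := by
    rw [Nat.card_eq_fintype_card, Fintype.card_fun, ZMod.card, pow_one]
  rwa [h2] at h1

/-- Consequences of a regulating quotient. -/
theorem forward (hS : ∀ j, p ∉ S j) (hprime : ∀ j, ∀ q ∈ S j, q.Prime)
    (hanti : ∀ i j, S i ⊆ S j → S j ⊆ S i → i = j) (hreg : RegCond p S D) {X : Type*}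
    [AddCommGroup X] [Finite X] (hX : RegQuot (grp p S D) X) :
    Nat.card X = Nat.card (rowSpace p D) ∧ ∃ (v : J → X) (y : R → X),
      (∀ (n : R → ℤ) (c : J → ℤ), (∀ i, (p : ℤ) * c i + ∑ r, n r * D r i = 0) →
        ∑ r, n r • y r + ∑ i, c i • v i = 0) ∧
      (∀ x : X, ∃ (n : R → ℤ) (c : J → ℤ), x = ∑ r, n r • y r + ∑ i, c i • v i) ∧
      ∀ j, ∃ (n : R → ℤ) (c : J → ℤ), (∀ i, ¬ lt S j i → (p : ℤ) * c i + ∑ r, n r * D r i = 0) ∧
        v j = ∑ r, n r • y r + ∑ i, c i • v i := by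
  obtain ⟨hcard, π, hsurj, hup⟩ := (regQuot_iff (isACD hS)
    (isRegulating hS hprime hanti hreg)).1 hX
  rw [relIndex_eq hS] at hcard
  have hp : p.Prime := Fact.out
  have hp0 : (p : ℚ) ≠ 0 := by exact_mod_cast hp.ne_zero
  set v : J → X := fun j => π ⟨bv j, bv_mem j⟩ with hv
  set y : R → X := fun r => π ⟨gen p D r, gen_mem r⟩ with hy
  -- rational multiples of the basis vectors
  have hmult : ∀ (j : J) (a : ℚ) (ha : a ∈ loc (S j)), ∃ m : ℤ,
      π ⟨a • bv j, base_le (smul_bv_mem_base ha)⟩ = m • v j ∧ ∀ z : ℤ, a = z → m = z := by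
    intro j a ha
    by_cases hz : ∃ z : ℤ, a = z
    · obtain ⟨z, rfl⟩ := hz
      refine ⟨z, ?_, fun z' hz' => by exact_mod_cast hz'⟩
      rw [hv]
      simp only
      rw [← map_zsmul]
      congr 1
    · set g : grp p S D := ⟨a • bv j, base_le (smul_bv_mem_base ha)⟩ with hg
      have hcop : Nat.Coprime a.den (Nat.card X) := by
        rw [hcard]
        refine Nat.Coprime.coprime_dvd_right card_rowSpace_dvd (Nat.Coprime.pow_right _ ?_)
        rw [Nat.coprime_comm, Nat.Prime.coprime_iff_not_dvd hp]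
        exact fun hd => hS j (ha p hp hd)
      obtain ⟨s, t, hst⟩ : IsCoprime (a.den : ℤ) (Nat.card X : ℤ) :=
        Nat.isCoprime_iff_coprime.mpr hcop
      have h1 : (a.den : ℤ) • g = a.num • (⟨bv j, bv_mem j⟩ : grp p S D) := by
        apply Subtype.ext
        rw [AddSubgroup.coe_zsmul, AddSubgroup.coe_zsmul, hg]
        change (a.den : ℤ) • (a • bv j) = a.num • bv j
        rw [← Int.cast_smul_eq_zsmul ℚ, ← Int.cast_smul_eq_zsmul ℚ, smul_smul]
        congr 1
        push_cast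
        rw [mul_comm]
        exact Rat.mul_den_eq_num a
      refine ⟨s * a.num, ?_, fun z hz' => absurd ⟨z, hz'⟩ hz⟩
      have h2 : (Nat.card X : ℤ) • π g = 0 := by
        rw [natCast_zsmul]; exact card_nsmul_eq_zero'
      calc π g = (s * (a.den : ℤ) + t * (Nat.card X : ℤ)) • π g := by rw [hst, one_smul]
        _ = s • ((a.den : ℤ) • π g) + t • ((Nat.card X : ℤ) • π g) := by
            rw [add_smul, mul_smul, mul_smul]
        _ = s • (a.num • v j) := by
            rw [h2, smul_zero, add_zero, ← map_zsmul π, h1, map_zsmul]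
        _ = (s * a.num) • v j := (mul_smul _ _ _).symm
  -- images of elements
  have himg : ∀ (n : R → ℤ) (c : J → ℚ) (hc : c ∈ baseG S),
      ∃ m : J → ℤ, (∀ i (z : ℤ), c i = z → m i = z) ∧
        ∀ g : grp p S D, (g : J → ℚ) = c + ∑ r, n r • gen p D r →
          π g = ∑ r, n r • y r + ∑ i, m i • v i := by
    intro n c hc
    choose m hm1 hm2 using fun i => hmult i (c i) (hc i)
    refine ⟨m, fun i z hz => hm2 i z hz, fun g hg => ?_⟩
    have h1 : g = ∑ r, n r • (⟨gen p D r, gen_mem r⟩ : grp p S D) +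
        ∑ i, (⟨c i • bv i, base_le (smul_bv_mem_base (hc i))⟩ : grp p S D) := by
      apply Subtype.ext
      rw [AddSubgroup.coe_add, AddSubgroup.val_finsetSum, AddSubgroup.val_finsetSum, hg, add_comm]
      congr 1
      funext k
      simp only [Finset.sum_apply, Pi.smul_apply, smul_eq_mul]
      rw [Finset.sum_eq_single k]
      · rw [bv_self, mul_one]
      · intro b _ hb
        rw [bv_ne (Ne.symm hb), mul_zero]
      · intro h; exact absurd (Finset.mem_univ k) h
    rw [h1, map_add, map_sum, map_sum]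
    congr 1
    · exact Finset.sum_congr rfl fun r _ => map_zsmul π _ _
    · exact Finset.sum_congr rfl fun i _ => hm1 i
  have hcoord : ∀ (n : R → ℤ) (c : J → ℚ) (i : J),
      (p : ℚ) * (c + ∑ r, n r • gen p D r) i = (p : ℚ) * c i + ((∑ r, n r * D r i : ℤ) : ℚ) := by
    intro n c i
    rw [Pi.add_apply, Finset.sum_apply, mul_add, Finset.mul_sum]
    push_cast
    congr 1
    refine Finset.sum_congr rfl fun r _ => ?_
    simp only [Pi.smul_apply, gen, zsmul_eq_mul]
    field_simp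
  refine ⟨hcard, v, y, ?_, ?_, ?_⟩
  · intro n c h
    obtain ⟨m, hm1, hm2⟩ := himg n (fun i => (c i : ℚ)) (fun i => int_mem_loc _ _)
    have h1 : m = c := funext fun i => hm1 i (c i) rfl
    have h2 := hm2 0 (by
      funext i
      have h3 := hcoord n (fun i => (c i : ℚ)) i
      have h4 : (p : ℚ) * (c i : ℚ) + ((∑ r, n r * D r i : ℤ) : ℚ) = 0 := by
        exact_mod_cast h i
      rw [h4] at h3
      rcases mul_eq_zero.1 h3 with h5 | h5
      · exact absurd h5 hp0
      · rw [h5]; rfl)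
    rw [map_zero, h1] at h2
    exact h2.symm
  · intro x
    obtain ⟨g, rfl⟩ := hsurj x
    obtain ⟨n, c, hc, e⟩ := mem_grp.1 g.2
    obtain ⟨m, _, hm2⟩ := himg n c hc
    exact ⟨n, m, hm2 g e⟩
  · intro j
    have h0 : (bv j : J → ℚ) ≠ 0 := (refbv (D := D) hS).b_ne_zero j
    obtain ⟨z, hz, e⟩ := hup (bv j) (bv_mem j) h0
      ⟨⟨bv j, bv_mem j⟩, AddSubgroup.mem_addSubgroupOf.mpr (self_mem_up (bv_mem j)), rfl⟩
    have hz' : (z : J → ℚ) ∈ sharp (grp p S D) (bv j) := AddSubgroup.mem_addSubgroupOf.mp hz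
    have hz2 := (mem_sharp_bv hS hprime z.2 j).1 hz'
    obtain ⟨n, c, hc, ez⟩ := mem_grp.1 z.2
    obtain ⟨m, hm1, hm2⟩ := himg n c hc
    refine ⟨n, m, fun i hi => ?_, ?_⟩
    · have h1 : (p : ℚ) * c i + ((∑ r, n r * D r i : ℤ) : ℚ) = 0 := by
        rw [← hcoord, ← ez, hz2 i hi, mul_zero]
      -- `c i` is an integer
      have h2 : ∃ w : ℤ, c i = w := by
        set N : ℤ := ∑ r, n r * D r i with hN
        have h3 : c i = ((-N : ℤ) : ℚ) / ((p : ℤ) : ℚ) := by
          push_cast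
          rw [eq_div_iff hp0]
          linarith
        have h4 : (c i).den ∣ p := by
          have h5 := Rat.den_dvd (-N) (p : ℤ)
          rw [Rat.divInt_eq_div, ← h3] at h5
          exact Int.natCast_dvd_natCast.1 h5
        rcases (Nat.dvd_prime hp).1 h4 with h5 | h5
        · refine ⟨(c i).num, ?_⟩
          have := Rat.mul_den_eq_num (c i)
          rw [h5] at this
          simpa using this
        · exfalso
          exact hS i (hc i p hp (by rw [h5]))
      obtain ⟨w, hw⟩ := h2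
      rw [hm1 i w hw]
      rw [hw] at h1
      exact_mod_cast h1
    · rw [← hm2 z ez]
      exact e.symm

/-- A sufficient condition for a homocyclic regulating quotient. -/
theorem backward (hS : ∀ j, p ∉ S j) (hprime : ∀ j, ∀ q ∈ S j, q.Prime)
    (hanti : ∀ i j, S i ⊆ S j → S j ⊆ S i → i = j) (hreg : RegCond p S D) {I : Type*}
    [Fintype I] (hcard : Nat.card (I → ZMod (p ^ 2)) = Nat.card (rowSpace p D))
    (a : J → I → ZMod (p ^ 2))
    (hgen : ∀ x : I → ZMod (p ^ 2), ∃ (n : R → ℤ) (c : J → ℤ),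
      x = ∑ r, n r • ∑ j, D r j • a j + ∑ j, c j • ((p : ℤ) • a j))
    (hsh : ∀ j, ∃ (n : R → ℤ) (c : J → ℤ),
      (∀ i, ¬ lt S j i → (p : ℤ) * c i + ∑ r, n r * D r i = 0) ∧
        (p : ℤ) • a j = ∑ i, ((p : ℤ) * c i + ∑ r, n r * D r i) • a i) :
    RegQuot (grp p S D) (I → ZMod (p ^ 2)) := by
  have hp : p.Prime := Fact.out
  have hp0 : (p : ℚ) ≠ 0 := by exact_mod_cast hp.ne_zero
  have : NeZero (p ^ 2) := ⟨pow_ne_zero _ hp.ne_zero⟩
  rw [regQuot_iff (isACD hS) (isRegulating hS hprime hanti hreg)]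
  refine ⟨by rw [hcard, relIndex_eq hS], ?_⟩
  set π : grp p S D →+ (I → ZMod (p ^ 2)) :=
    { toFun := fun g => ∑ j, red 2 hS g j • a j
      map_zero' := by simp
      map_add' := fun g h => by
        rw [map_add, ← Finset.sum_add_distrib]
        exact Finset.sum_congr rfl fun j _ => by rw [Pi.add_apply, add_smul] } with hπ
  have hπapp : ∀ g : grp p S D, π g = ∑ j, red 2 hS g j • a j := fun g => rfl
  have hπgen : ∀ r, π ⟨gen p D r, gen_mem r⟩ = ∑ j, D r j • a j := by
    intro r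
    rw [hπapp, red_gen]
    exact Finset.sum_congr rfl fun j _ => by rw [Int.cast_smul_eq_zsmul]
  have hπbv : ∀ (j : J) (q : ℚ) (hq : q ∈ loc (S j)),
      ∃ m : ℤ, π ⟨q • bv j, base_le (smul_bv_mem_base hq)⟩ = m • ((p : ℤ) • a j) ∧
        ∀ z : ℤ, q = z → m = z := by
    intro j q hq
    have hPI : PI p q := pi_of_loc (hS j) hq
    have h1 : π ⟨q • bv j, base_le (smul_bv_mem_base hq)⟩ =
        rd p 2 ((p : ℚ) * q) ((PI.nat p).mul hPI) • a j := by
      rw [hπapp, Finset.sum_eq_single j]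
      · rw [red_apply]
        congr 1
        exact rd_congr (by
          change (p : ℚ) * (q • bv j) j = p * q
          rw [Pi.smul_apply, bv_self, smul_eq_mul, mul_one]) _ _
      · intro i _ hi
        rw [red_apply]
        have h2 : rd p 2 ((p : ℚ) * (q • bv j : J → ℚ) i)
            (pi_mul hS (base_le (D := D) (smul_bv_mem_base hq)) i) =
            rd p 2 ((0 : ℤ) : ℚ) (PI.int 0) := rd_congr (by
              rw [Pi.smul_apply, bv_ne hi]; simp) _ _
        change rd p 2 ((p : ℚ) * (q • bv j : J → ℚ) i)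
            (pi_mul hS (base_le (D := D) (smul_bv_mem_base hq)) i) • a i = 0
        rw [h2, rd_int]
        simp
      · intro h; exact absurd (Finset.mem_univ j) h
    by_cases hz : ∃ z : ℤ, q = z
    · obtain ⟨z, rfl⟩ := hz
      refine ⟨z, ?_, fun z' hz' => by exact_mod_cast hz'⟩
      rw [h1]
      have h2 : rd p 2 ((p : ℚ) * (z : ℚ)) ((PI.nat p).mul hPI) =
          rd p 2 ((z * p : ℤ) : ℚ) (PI.int _) := rd_congr (by push_cast; ring) _ _
      rw [h2, rd_int, Int.cast_smul_eq_zsmul, mul_smul]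
    · obtain ⟨m, hm⟩ := ZMod.intCast_surjective (rd p 2 q hPI)
      refine ⟨m, ?_, fun z hz' => absurd ⟨z, hz'⟩ hz⟩
      rw [h1]
      have h2 : rd p 2 ((p : ℚ) * q) ((PI.nat p).mul hPI) =
          ((m * p : ℤ) : ZMod (p ^ 2)) := by
        have h3 : rd p 2 ((p : ℚ) * q) ((PI.nat p).mul hPI) =
            rd p 2 (q * ((p : ℤ) : ℚ)) (hPI.mul (PI.int _)) :=
          rd_congr (by push_cast; ring) _ _
        rw [h3, rd_mul hPI (PI.int _), rd_int, ← hm]
        push_cast
        rfl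
      rw [h2, Int.cast_smul_eq_zsmul, mul_smul]
  have hπbv1 : ∀ j, π ⟨bv j, bv_mem j⟩ = (p : ℤ) • a j := by
    intro j
    obtain ⟨m, hm1, hm2⟩ := hπbv j ((1 : ℤ) : ℚ) (int_mem_loc _ _)
    rw [hm2 1 rfl, one_smul] at hm1
    rw [← hm1]
    congr 1
    apply Subtype.ext
    change bv j = ((1 : ℤ) : ℚ) • bv j
    rw [Int.cast_one, one_smul]
  refine ⟨π, ?_, ?_⟩
  · intro x
    obtain ⟨n, c, rfl⟩ := hgen x
    refine ⟨∑ r, n r • (⟨gen p D r, gen_mem r⟩ : grp p S D) + ∑ j, c j • (⟨bv j, bv_mem j⟩ : grp p S D), ?_⟩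
    rw [map_add, map_sum, map_sum]
    congr 1
    · exact Finset.sum_congr rfl fun r _ => by rw [map_zsmul, hπgen]
    · exact Finset.sum_congr rfl fun j _ => by rw [map_zsmul, hπbv1]
  · intro x hx hx0
    rintro _ ⟨g, hg, rfl⟩
    have hgu : (g : J → ℚ) ∈ up (grp p S D) x := AddSubgroup.mem_addSubgroupOf.mp hg
    by_cases hex : ∃ j, TypeLE (grp p S D) x (grp p S D) (bv j) ∧
        TypeLE (grp p S D) (bv j) (grp p S D) x
    · obtain ⟨j, h1, h2⟩ := hex
      rw [up_eq_of_equiv h1 h2] at hgu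
      rw [sharp_eq_of_equiv h1 h2]
      have hloc := coord_of_up hS hprime hreg hgu
      have hrest := rest_mem_sharp hS hprime hanti hreg hgu
      obtain ⟨n, c, hnc, hpa⟩ := hsh j
      -- the element of the sharp group with image `p a_j`
      set z : grp p S D := ∑ r, n r • (⟨gen p D r, gen_mem r⟩ : grp p S D) +
        ∑ i, c i • (⟨bv i, bv_mem i⟩ : grp p S D)
        with hz
      have hzc : ∀ i, (p : ℚ) * (z : J → ℚ) i = (((p : ℤ) * c i + ∑ r, n r * D r i : ℤ) : ℚ) := by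
        intro i
        rw [hz, AddSubgroup.coe_add, AddSubgroup.val_finsetSum, AddSubgroup.val_finsetSum,
          Pi.add_apply, Finset.sum_apply, Finset.sum_apply]
        have e1 : ∑ r, ((n r • (⟨gen p D r, gen_mem r⟩ : grp p S D) : grp p S D) : J → ℚ) i =
            ∑ r, (n r : ℚ) * ((D r i : ℚ) / p) := by
          refine Finset.sum_congr rfl fun r _ => ?_
          rw [AddSubgroup.coe_zsmul, Pi.smul_apply, zsmul_eq_mul]
          rfl
        have e2 : ∑ k, ((c k • (⟨bv k, bv_mem k⟩ : grp p S D) : grp p S D) : J → ℚ) i = (c i : ℚ) := by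
          rw [Finset.sum_eq_single i]
          · rw [AddSubgroup.coe_zsmul, Pi.smul_apply]
            change c i • bv i i = _
            rw [bv_self, zsmul_eq_mul, mul_one]
          · intro b _ hb
            rw [AddSubgroup.coe_zsmul, Pi.smul_apply]
            change c b • bv b i = _
            rw [bv_ne (Ne.symm hb), smul_zero]
          · intro h; exact absurd (Finset.mem_univ i) h
        rw [e1, e2, mul_add, Finset.mul_sum]
        push_cast
        rw [add_comm]
        congr 1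
        exact Finset.sum_congr rfl fun r _ => by field_simp
      have hzs : (z : J → ℚ) ∈ sharp (grp p S D) (bv j) := by
        rw [mem_sharp_bv hS hprime z.2]
        intro i hi
        have h3 := hzc i
        rw [hnc i hi, Int.cast_zero] at h3
        rcases mul_eq_zero.1 h3 with h4 | h4
        · exact absurd h4 hp0
        · exact h4
      have hπz : π z = (p : ℤ) • a j := by
        rw [hz, map_add, map_sum, map_sum, hpa]
        have e1 : ∑ r, π (n r • (⟨gen p D r, gen_mem r⟩ : grp p S D)) = ∑ i, (∑ r, n r * D r i) • a i := by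
          simp_rw [map_zsmul, hπgen, Finset.smul_sum, smul_smul]
          rw [Finset.sum_comm]
          simp_rw [Finset.sum_smul]
        have e2 : ∑ i, π (c i • (⟨bv i, bv_mem i⟩ : grp p S D)) = ∑ i, ((p : ℤ) * c i) • a i := by
          refine Finset.sum_congr rfl fun i _ => ?_
          rw [map_zsmul, hπbv1, smul_smul, mul_comm]
        rw [e1, e2, ← Finset.sum_add_distrib]
        refine Finset.sum_congr rfl fun i _ => ?_
        rw [← add_smul, add_comm]
      obtain ⟨m, hm1, _⟩ := hπbv j _ hloc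
      refine ⟨⟨(g : J → ℚ) - (g : J → ℚ) j • bv j, sharp_le hrest⟩ + m • z, ?_, ?_⟩
      · refine AddSubgroup.add_mem _ (AddSubgroup.mem_addSubgroupOf.mpr hrest)
          (AddSubgroup.zsmul_mem _ (AddSubgroup.mem_addSubgroupOf.mpr hzs) _)
      · rw [map_add, map_zsmul, hπz, ← hm1, ← map_add]
        congr 1
        apply Subtype.ext
        rw [AddSubgroup.coe_add]
        simp
    · refine ⟨g, AddSubgroup.mem_addSubgroupOf.mpr ?_, rfl⟩
      rw [(refbv hS).mem_sharp_iff g.2]
      intro j hj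
      have h1 := ((refbv hS).mem_up_iff g.2).mp hgu j hj
      exact ⟨h1, fun h2 => hex ⟨j, h1, h2⟩⟩

end Pool.Agent.Lib.H8da
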