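import Mathlib

set_option autoImplicit false

/-!
Almost completely decomposable groups given by finite data.
-/

namespace Pool.Agent.Lib.H8da

/-- The `j`-th prime number different from `p`. -/
noncomputable def pr (p j : ℕ) : ℕ := Nat.nth (fun q => q.Prime ∧ q ≠ p) j

/-- The rational numbers whose denominator has all its prime divisors in `S`; for a set `S` of
prime numbers this is the subring of `ℚ` generated by the numbers `1 / q`, `q ∈ S`. -/
def loc (S : Set ℕ) : AddSubgroup ℚ where
  carrier := {a | ∀ q : ℕ, q.Prime → q ∣ a.den → q ∈ S}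
  add_mem' := by
    intro a b ha hb q hq hd
    have h1 : q ∣ a.den * b.den := hd.trans (Rat.add_den_dvd a b)
    rcases (Nat.Prime.dvd_mul hq).1 h1 with h | h
    · exact ha q hq h
    · exact hb q hq h
  zero_mem' := by
    intro q hq hd
    rw [Rat.den_zero] at hd
    exact absurd (Nat.dvd_one.1 hd) hq.one_lt.ne'
  neg_mem' := by
    intro a ha q hq hd
    rw [Rat.den_neg_eq_den] at hd
    exact ha q hq hd

variable {J R : Type*}

/-- The direct sum of the rank one groups `loc (S j)`. -/
def baseG (S : J → Set ℕ) : AddSubgroup (J → ℚ) where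
  carrier := {v | ∀ j, v j ∈ loc (S j)}
  add_mem' := fun ha hb j => (loc (S j)).add_mem (ha j) (hb j)
  zero_mem' := fun j => (loc (S j)).zero_mem
  neg_mem' := fun ha j => (loc (S j)).neg_mem (ha j)

/-- The vector `(1 / p) D_r`. -/
def gen (p : ℕ) (D : R → J → ℤ) (r : R) : J → ℚ := fun j => (D r j : ℚ) / p

/-- The group generated by the direct sum of the rank one groups `loc (S j)` and the vectors
`(1 / p) D_r`. -/
def grp (p : ℕ) (S : J → Set ℕ) (D : R → J → ℤ) : AddSubgroup (J → ℚ) :=
  baseG S ⊔ AddSubgroup.closure (Set.range (gen p D))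

end Pool.Agent.Lib.H8da
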