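import Pool.Agent.Lib.H8da.Crit

set_option autoImplicit false
set_option linter.unusedSectionVars false

/-!
# Transport of the criteria along an embedding of index sets

Black box: `Crit.lean` (`forward`, `backward`, `RegCond`, `lt`) and `Model.lean` (`rowSpace`).
A structure `Emb` says that the index set `A` of types and rows of `grp p S D` contains copies
`ι : J → A` (types) and `ρ : R → A` (rows) of smaller index sets, that all other rows and columns
of `D` vanish and that all other types are maximal (`junk`).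

PROOFS (everything is bookkeeping).
* An integer vector `n : R → ℤ` is extended by zero along `ρ` (`Function.extend ρ n 0`), an integer
  vector `c : J → ℤ` along `ι`. Then `∑ a, (ext n) a * D a (ι i) = ∑ r, n r * Dm r i`, and
  `∑ a, (ext n) a • y a = ∑ r, n r • y (ρ r)`, similarly for `c`. Conversely for any `n : A → ℤ`:
  `∑ a, n a * D a (ι i) = ∑ r, n (ρ r) * Dm r i` (rows outside `ρ` are zero, `D_row`), and
  `∑ a, n a * D a b = 0` for `b ∉ range ι` (`D_col`).
  (General lemma: if `f a = 0` for all `a ∉ range ρ` then `∑ a, f a = ∑ r, f (ρ r)`;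
  `Finset.sum_subset` / `Function.Injective.sum...` / `Finset.sum_map`.)
* `regCond`: an element `k` of `rowSpace p D` is `fun b => ((∑ a, n a * D a b : ℤ) : ZMod (p ^ 1))`
  for some `n : A → ℤ` (`AddSubgroup.closure_induction`, or `AddSubgroup.mem_closure_range_iff`).
  If `j ∉ range ι` then `k j = 0` by `D_col`. If `j = ι j'` use `hreg j' (n ∘ ρ)`: for `i ≠ j'` with
  `¬ LT j' i` we have `k (ι i) = 0`, since otherwise `S (ι j') ⊆ S (ι i)`, and then either
  `S (ι i) ⊆ S (ι j')`, so `ι i = ι j'` by `anti`, or `lt S (ι j') (ι i)`, so `LT j' i`.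
  Note `ZMod (p ^ 1)`: `(ZMod.intCast_zmod_eq_zero_iff_dvd z (p ^ 1))`, and `p ^ 1 = p`.
* `card_rowSpace`: the map `(R → ZMod (p ^ 1)) → rowSpace p D`, or: `rowSpace p D` is the range of
  the additive map `w ↦ ∑ r, w r • row (ρ r)` from `R → ZMod (p ^ 1)`; it is injective by `hind`
  (lift `w` to integers); hence the card is `(p ^ 1) ^ card R`.
* `forward`: take `v, y` of `forward`, and use `v ∘ ι`, `y ∘ ρ`. First: for `a ∉ range ρ` the first
  relation with `n = Pi.single a 1`, `c = 0` gives `y a = 0`; for `a ∉ range ι` the third statement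
  and `junk` (so that the condition holds for all `i`), followed by the first, gives `v a = 0`.
* `backward`: extend `a` by zero along `ι`; for `j ∉ range ι` use `n = 0`, `c = 0`.
-/

namespace Pool.Agent.Lib.H8da

/-- see the header -/
structure Emb {A J R : Type} (p : ℕ) (S : A → Set ℕ) (D : A → A → ℤ) (ι : J → A) (ρ : R → A)
    (Dm : R → J → ℤ) (LT : J → J → Prop) : Prop where
  hS : ∀ a, p ∉ S a
  prime : ∀ a, ∀ q ∈ S a, q.Prime
  anti : ∀ a b, S a ⊆ S b → S b ⊆ S a → a = b
  injι : Function.Injective ι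
  injρ : Function.Injective ρ
  lt_iff : ∀ i j, lt S (ι i) (ι j) ↔ LT i j
  junk : ∀ a b, a ∉ Set.range ι → ¬ lt S a b
  D_eq : ∀ r j, D (ρ r) (ι j) = Dm r j
  D_row : ∀ a b, a ∉ Set.range ρ → D a b = 0
  D_col : ∀ a b, b ∉ Set.range ι → D a b = 0

variable {p : ℕ} [Fact p.Prime] {A J R : Type} [Fintype A] [DecidableEq A] [Fintype J]
  [DecidableEq J] [Fintype R] [DecidableEq R] {S : A → Set ℕ} {D : A → A → ℤ} {ι : J → A}
  {ρ : R → A} {Dm : R → J → ℤ} {LT : J → J → Prop}

namespace EmbAux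

theorem sum_inj {A R M : Type*} [Fintype A] [Fintype R] [AddCommMonoid M] {ρ : R → A}
    (hρ : Function.Injective ρ) (f : A → M) (hf : ∀ a, a ∉ Set.range ρ → f a = 0) :
    ∑ a, f a = ∑ r, f (ρ r) :=
  (Fintype.sum_of_injective ρ hρ (fun r => f (ρ r)) f hf (fun _ => rfl)).symm

/-- extension by zero -/
noncomputable def ex {A R M : Type*} [Zero M] (ρ : R → A) (n : R → M) : A → M :=
  Function.extend ρ n 0

theorem ex_app {A R M : Type*} [Zero M] {ρ : R → A} (hρ : Function.Injective ρ) (n : R → M)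
    (r : R) : ex ρ n (ρ r) = n r := hρ.extend_apply n 0 r

theorem ex_out {A R M : Type*} [Zero M] (ρ : R → A) (n : R → M)
    {a : A} (ha : a ∉ Set.range ρ) : ex ρ n a = 0 := by
  unfold ex
  rw [Function.extend_apply' n (0 : A → M) a (fun ⟨r, hr⟩ => ha ⟨r, hr⟩)]
  rfl

end EmbAux

open EmbAux

theorem Emb.sum_ex (h : Emb p S D ι ρ Dm LT) (n : R → ℤ) (b : A) :
    ∑ a, ex ρ n a * D a b = ∑ r, n r * D (ρ r) b := by
  rw [sum_inj h.injρ (fun a => ex ρ n a * D a b)]
  · exact Finset.sum_congr rfl fun r _ => by rw [ex_app h.injρ]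
  · intro a ha
    rw [ex_out ρ n ha, zero_mul]

theorem Emb.sum_ex' (h : Emb p S D ι ρ Dm LT) (n : R → ℤ) (j : J) :
    ∑ a, ex ρ n a * D a (ι j) = ∑ r, n r * Dm r j := by
  rw [h.sum_ex]
  exact Finset.sum_congr rfl fun r _ => by rw [h.D_eq]

theorem Emb.sum_out (h : Emb p S D ι ρ Dm LT) (n : A → ℤ) {b : A} (hb : b ∉ Set.range ι) :
    ∑ a, n a * D a b = 0 :=
  Finset.sum_eq_zero fun a _ => by rw [h.D_col a b hb, mul_zero]

theorem Emb.sum_res (h : Emb p S D ι ρ Dm LT) (n : A → ℤ) (j : J) :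
    ∑ a, n a * D a (ι j) = ∑ r, n (ρ r) * Dm r j := by
  rw [sum_inj h.injρ (fun a => n a * D a (ι j))]
  · exact Finset.sum_congr rfl fun r _ => by rw [h.D_eq]
  · intro a ha
    rw [h.D_row a _ ha, mul_zero]

theorem rowSpace_rep {k : A → ZMod (p ^ 1)} (hk : k ∈ rowSpace p D) :
    ∃ n : A → ℤ, k = fun b => ((∑ a, n a * D a b : ℤ) : ZMod (p ^ 1)) := by
  unfold rowSpace at hk
  induction hk using AddSubgroup.closure_induction with
  | mem x hx =>
    obtain ⟨a, rfl⟩ := hx
    refine ⟨Pi.single a 1, ?_⟩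
    funext b
    rw [Finset.sum_eq_single a]
    · rw [Pi.single_eq_same, one_mul]
    · intro c _ hc
      rw [Pi.single_eq_of_ne hc, zero_mul]
    · intro hc
      exact absurd (Finset.mem_univ a) hc
  | zero =>
    refine ⟨0, ?_⟩
    funext b
    simp
  | add x y _ _ hx hy =>
    obtain ⟨n, rfl⟩ := hx
    obtain ⟨m, rfl⟩ := hy
    refine ⟨n + m, ?_⟩
    funext b
    rw [Pi.add_apply, ← Int.cast_add, ← Finset.sum_add_distrib]
    congr 1
    exact Finset.sum_congr rfl fun a _ => by rw [Pi.add_apply, add_mul]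
  | neg x _ hx =>
    obtain ⟨n, rfl⟩ := hx
    refine ⟨-n, ?_⟩
    funext b
    rw [Pi.neg_apply, ← Int.cast_neg, ← Finset.sum_neg_distrib]
    congr 1
    exact Finset.sum_congr rfl fun a _ => by rw [Pi.neg_apply, neg_mul]

theorem cast_zero_iff (z : ℤ) : ((z : ℤ) : ZMod (p ^ 1)) = 0 ↔ (p : ℤ) ∣ z := by
  have h := ZMod.intCast_zmod_eq_zero_iff_dvd z (p ^ 1)
  rw [h, pow_one]

theorem Emb.regCond (h : Emb p S D ι ρ Dm LT)
    (hreg : ∀ (j : J) (n : R → ℤ), (∀ i, i ≠ j → ¬ LT j i → (p : ℤ) ∣ ∑ r, n r * Dm r i) →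
      (p : ℤ) ∣ ∑ r, n r * Dm r j) : RegCond p S D := by
  intro j k hk hsub
  obtain ⟨n, rfl⟩ := rowSpace_rep hk
  by_cases hj : j ∈ Set.range ι
  · obtain ⟨j', rfl⟩ := hj
    change ((∑ a, n a * D a (ι j') : ℤ) : ZMod (p ^ 1)) = 0
    rw [cast_zero_iff, h.sum_res]
    apply hreg
    intro i hij hLT
    rw [← h.sum_res, ← cast_zero_iff]
    by_contra hne
    have h1 : S (ι j') ⊆ S (ι i) := hsub (ι i) hne
    by_cases h2 : S (ι i) ⊆ S (ι j')
    · exact hij (h.injι (h.anti _ _ h2 h1))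
    · exact hLT ((h.lt_iff j' i).1 ⟨h1, h2⟩)
  · change ((∑ a, n a * D a j : ℤ) : ZMod (p ^ 1)) = 0
    rw [h.sum_out n hj, Int.cast_zero]

/-- the map from coefficient vectors to the row space -/
noncomputable def EmbAux.rowMap (p : ℕ) (D : A → A → ℤ) (ρ : R → A) :
    (R → ZMod (p ^ 1)) →+ (A → ZMod (p ^ 1)) where
  toFun w := fun b => ∑ r, w r * ((D (ρ r) b : ℤ) : ZMod (p ^ 1))
  map_zero' := by
    funext b
    simp
  map_add' w w' := by
    funext b
    rw [Pi.add_apply, ← Finset.sum_add_distrib]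
    exact Finset.sum_congr rfl fun r _ => by rw [Pi.add_apply, add_mul]

theorem Emb.card_rowSpace (h : Emb p S D ι ρ Dm LT)
    (hind : ∀ n : R → ℤ, (∀ i, (p : ℤ) ∣ ∑ r, n r * Dm r i) → ∀ r, (p : ℤ) ∣ n r) :
    Nat.card (rowSpace p D) = p ^ Fintype.card R := by
  have hp : p.Prime := Fact.out
  have hne : NeZero (p ^ 1) := ⟨by rw [pow_one]; exact hp.ne_zero⟩
  have happ : ∀ (w : R → ZMod (p ^ 1)) (b : A), rowMap p D ρ w b =
      ∑ r, w r * ((D (ρ r) b : ℤ) : ZMod (p ^ 1)) := fun _ _ => rfl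
  have hrange : rowSpace p D = (rowMap p D ρ).range := by
    apply le_antisymm
    · unfold rowSpace
      rw [AddSubgroup.closure_le]
      rintro _ ⟨a, rfl⟩
      by_cases ha : a ∈ Set.range ρ
      · obtain ⟨r, rfl⟩ := ha
        refine ⟨Pi.single r 1, ?_⟩
        funext b
        rw [happ, Finset.sum_eq_single r]
        · rw [Pi.single_eq_same, one_mul]
        · intro c _ hc
          rw [Pi.single_eq_of_ne hc, zero_mul]
        · intro hc
          exact absurd (Finset.mem_univ r) hc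
      · refine ⟨0, ?_⟩
        funext b
        change (rowMap p D ρ 0) b = ((D a b : ℤ) : ZMod (p ^ 1))
        rw [map_zero, h.D_row a b ha]
        simp
    · rintro _ ⟨w, rfl⟩
      choose z hz using fun r => ZMod.intCast_surjective (w r)
      have e : rowMap p D ρ w = ∑ r, z r • (fun b => ((D (ρ r) b : ℤ) : ZMod (p ^ 1))) := by
        funext b
        rw [happ, Finset.sum_apply]
        apply Finset.sum_congr rfl
        intro r _
        rw [Pi.smul_apply, zsmul_eq_mul, hz r]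
      rw [e]
      refine AddSubgroup.sum_mem _ fun r _ => ?_
      exact AddSubgroup.zsmul_mem _ (AddSubgroup.subset_closure (Set.mem_range_self (ρ r))) _
  have hinj : Function.Injective (rowMap p D ρ) := by
    rw [injective_iff_map_eq_zero]
    intro w hw
    choose z hz using fun r => ZMod.intCast_surjective (w r)
    have h1 : ∀ i, (p : ℤ) ∣ ∑ r, z r * Dm r i := by
      intro i
      rw [← cast_zero_iff]
      have h2 := congrFun hw (ι i)
      rw [happ] at h2
      rw [Int.cast_sum]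
      rw [Pi.zero_apply] at h2
      rw [← h2]
      apply Finset.sum_congr rfl
      intro r _
      rw [Int.cast_mul, hz r, h.D_eq]
    funext r
    have h3 := hind z h1 r
    rw [← cast_zero_iff, hz r] at h3
    rw [h3]
    rfl
  rw [hrange, ← Nat.card_congr (AddMonoidHom.ofInjective hinj).toEquiv,
    Nat.card_eq_fintype_card, Fintype.card_fun, ZMod.card, pow_one]

theorem Emb.forward (h : Emb p S D ι ρ Dm LT) (hreg : RegCond p S D) {X : Type*}
    [AddCommGroup X] [Finite X] (hX : Pool.Agent.Lib.C8da183.RegQuot (grp p S D) X) :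
    Nat.card X = Nat.card (rowSpace p D) ∧ ∃ (v : J → X) (y : R → X),
      (∀ (n : R → ℤ) (c : J → ℤ), (∀ i, (p : ℤ) * c i + ∑ r, n r * Dm r i = 0) →
        ∑ r, n r • y r + ∑ i, c i • v i = 0) ∧
      (∀ x : X, ∃ (n : R → ℤ) (c : J → ℤ), x = ∑ r, n r • y r + ∑ i, c i • v i) ∧
      ∀ j, ∃ (n : R → ℤ) (c : J → ℤ), (∀ i, ¬ LT j i → (p : ℤ) * c i + ∑ r, n r * Dm r i = 0) ∧
        v j = ∑ r, n r • y r + ∑ i, c i • v i := by
  obtain ⟨hc, v, y, h1, h2, h3⟩ :=
    Pool.Agent.Lib.H8da.forward h.hS h.prime h.anti hreg hX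
  have hy0 : ∀ a, a ∉ Set.range ρ → y a = 0 := by
    intro a ha
    have h4 := h1 (Pi.single a 1) 0 (by
      intro i
      rw [Pi.zero_apply, mul_zero, zero_add]
      apply Finset.sum_eq_zero
      intro r _
      by_cases hr : r = a
      · rw [hr, h.D_row a i ha, mul_zero]
      · rw [Pi.single_eq_of_ne hr, zero_mul])
    rw [Finset.sum_eq_single a] at h4
    · rw [Pi.single_eq_same, one_smul] at h4
      simpa using h4
    · intro c _ hc
      rw [Pi.single_eq_of_ne hc, zero_smul]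
    · intro hc
      exact absurd (Finset.mem_univ a) hc
  have hv0 : ∀ a, a ∉ Set.range ι → v a = 0 := by
    intro a ha
    obtain ⟨n, c, h4, h5⟩ := h3 a
    rw [h5]
    exact h1 n c fun i => h4 i (h.junk a i ha)
  have hys : ∀ n : A → ℤ, ∑ a, n a • y a = ∑ r, n (ρ r) • y (ρ r) := fun n =>
    sum_inj h.injρ (fun a => n a • y a) fun a ha => by rw [hy0 a ha, smul_zero]
  have hvs : ∀ c : A → ℤ, ∑ a, c a • v a = ∑ j, c (ι j) • v (ι j) := fun c =>
    sum_inj h.injι (fun a => c a • v a) fun a ha => by rw [hv0 a ha, smul_zero]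
  refine ⟨hc, v ∘ ι, y ∘ ρ, ?_, ?_, ?_⟩
  · intro n c hnc
    have h4 := h1 (ex ρ n) (ex ι c) (by
      intro b
      by_cases hb : b ∈ Set.range ι
      · obtain ⟨i, rfl⟩ := hb
        rw [ex_app h.injι, h.sum_ex']
        exact hnc i
      · rw [ex_out ι c hb, h.sum_out _ hb, mul_zero, add_zero])
    rw [hys, hvs] at h4
    rw [← h4]
    congr 1
    · exact Finset.sum_congr rfl fun r _ => by rw [ex_app h.injρ]; rfl
    · exact Finset.sum_congr rfl fun j _ => by rw [ex_app h.injι]; rfl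
  · intro x
    obtain ⟨n, c, hx⟩ := h2 x
    refine ⟨n ∘ ρ, c ∘ ι, ?_⟩
    rw [hx, hys, hvs]
    rfl
  · intro j
    obtain ⟨n, c, h4, h5⟩ := h3 (ι j)
    refine ⟨n ∘ ρ, c ∘ ι, ?_, ?_⟩
    · intro i hi
      have h6 := h4 (ι i) (fun h7 => hi ((h.lt_iff j i).1 h7))
      rw [h.sum_res] at h6
      exact h6
    · change v (ι j) = _
      rw [h5, hys, hvs]
      rfl

theorem Emb.backward (h : Emb p S D ι ρ Dm LT) (hreg : RegCond p S D) {I : Type*}
    [Fintype I] (hcard : Nat.card (I → ZMod (p ^ 2)) = Nat.card (rowSpace p D))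
    (a : J → I → ZMod (p ^ 2))
    (hgen : ∀ x : I → ZMod (p ^ 2), ∃ (n : R → ℤ) (c : J → ℤ),
      x = ∑ r, n r • ∑ j, Dm r j • a j + ∑ j, c j • ((p : ℤ) • a j))
    (hsh : ∀ j, ∃ (n : R → ℤ) (c : J → ℤ),
      (∀ i, ¬ LT j i → (p : ℤ) * c i + ∑ r, n r * Dm r i = 0) ∧
        (p : ℤ) • a j = ∑ i, ((p : ℤ) * c i + ∑ r, n r * Dm r i) • a i) :
    Pool.Agent.Lib.C8da183.RegQuot (grp p S D) (I → ZMod (p ^ 2)) := by
  have hDs : ∀ b : A, ∑ d, D b d • ex ι a d = ∑ j, D b (ι j) • a j := by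
    intro b
    rw [sum_inj h.injι (fun d => D b d • ex ι a d) fun d hd => by
      rw [ex_out ι a hd, smul_zero]]
    exact Finset.sum_congr rfl fun j _ => by rw [ex_app h.injι]
  apply Pool.Agent.Lib.H8da.backward h.hS h.prime h.anti hreg hcard (ex ι a)
  · intro x
    obtain ⟨n, c, hx⟩ := hgen x
    refine ⟨ex ρ n, ex ι c, ?_⟩
    rw [hx]
    congr 1
    · rw [sum_inj h.injρ (fun b => ex ρ n b • ∑ d, D b d • ex ι a d) fun b hb => by
        rw [ex_out ρ n hb, zero_smul]]
      apply Finset.sum_congr rfl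
      intro r _
      rw [ex_app h.injρ, hDs]
      congr 1
      exact Finset.sum_congr rfl fun j _ => by rw [h.D_eq]
    · rw [sum_inj h.injι (fun b => ex ι c b • ((p : ℤ) • ex ι a b)) fun b hb => by
        rw [ex_out ι c hb, zero_smul]]
      exact Finset.sum_congr rfl fun j _ => by rw [ex_app h.injι, ex_app h.injι]
  · intro j
    by_cases hj : j ∈ Set.range ι
    · obtain ⟨j', rfl⟩ := hj
      obtain ⟨n, c, h1, h2⟩ := hsh j'
      have hcoef : ∀ i : J, (p : ℤ) * ex ι c (ι i) + ∑ b, ex ρ n b * D b (ι i)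
          = (p : ℤ) * c i + ∑ r, n r * Dm r i := by
        intro i
        rw [ex_app h.injι, h.sum_ex']
      refine ⟨ex ρ n, ex ι c, ?_, ?_⟩
      · intro i hi
        by_cases hir : i ∈ Set.range ι
        · obtain ⟨i', rfl⟩ := hir
          rw [hcoef]
          exact h1 i' fun h3 => hi ((h.lt_iff j' i').2 h3)
        · rw [ex_out ι c hir, h.sum_out _ hir, mul_zero, add_zero]
      · rw [ex_app h.injι, h2]
        rw [sum_inj h.injι (fun b => ((p : ℤ) * ex ι c b + ∑ d, ex ρ n d * D d b) • ex ι a b)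
          fun b hb => by rw [ex_out ι a hb, smul_zero]]
        exact Finset.sum_congr rfl fun i _ => by rw [hcoef, ex_app h.injι]
    · refine ⟨0, 0, ?_, ?_⟩
      · intro i _
        simp
      · rw [ex_out ι a hj, smul_zero]
        symm
        apply Finset.sum_eq_zero
        intro i _
        simp

end Pool.Agent.Lib.H8da
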