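import Pool.Agent.Lib.H8da.TabDefs

set_option autoImplicit false

/-!
# Colourings of the join with a complete graph

Black boxes: `TabDefs.lean` (only `eF`), `Pool/Agent/Lib/P2ba8ab/Poly.lean` (`Gr`, `adjN`,
`adjN_fin`).

PROOF. `eF g a b = true ↔ a < b ∧ (a and b are adjacent in g, or g.n ≤ b)` for `a, b < g.n + q`.
(⇒) Let `x` be given. The `q` vertices `≥ g.n` have pairwise different colours, and no vertex
`< g.n` has one of these colours. The set `C'` of the other colours has `3` elements; colour `g.G`
with it: adjacent vertices `a ≠ b` of `g` have different colours (apply the hypothesis to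
`(min a b, max a b)`). Then use `C' ≃ Fin 3`.
(⇐) Let `c` be a colouring of `g.G` with `Fin 3`. Fix a bijection `Fin 3 ⊕ Fin q ≃ C` and give the
vertex `a < g.n` the colour `inl (c a)`, the vertex `g.n + i` the colour `inr i`.
-/

namespace Pool.Agent.Lib.H8da

open Pool.Agent.Lib.P2ba8ab

private lemma eF_iff (g : Gr) (a b : ℕ) :
    eF g a b = true ↔ a < b ∧ (adjN g a b = true ∨ ¬ b < g.n) := by
  unfold eF
  simp only [Bool.and_eq_true, Bool.or_eq_true, decide_eq_true_eq, Bool.not_eq_true',
    decide_eq_false_iff_not]

theorem join_colour (g : Gr) (q : ℕ) {C : Type} [Fintype C] (hC : Fintype.card C = q + 3) :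
    (∃ x : Fin (g.n + q) → C, ∀ a b : Fin (g.n + q), eF g a b = true → x a ≠ x b) ↔
      g.G.Colorable 3 := by
  classical
  constructor
  · rintro ⟨x, hx⟩
    set y : Fin q → C := fun i => x (Fin.natAdd g.n i) with hy
    have hlt : ∀ i j : Fin q, i < j → y i ≠ y j := by
      intro i j hij
      refine hx _ _ ((eF_iff g _ _).2 ⟨?_, Or.inr ?_⟩)
      · rw [Fin.val_natAdd, Fin.val_natAdd]
        have : (i : ℕ) < j := hij
        omega
      · rw [Fin.val_natAdd]
        omega
    have hinj : Function.Injective y := by
      intro i j hij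
      rcases lt_trichotomy i j with h | h | h
      · exact absurd hij (hlt i j h)
      · exact h
      · exact absurd hij.symm (hlt j i h)
    have hne : ∀ a : Fin g.n, x (Fin.castAdd q a) ∉ Set.range y := by
      rintro a ⟨i, hi⟩
      refine hx (Fin.castAdd q a) (Fin.natAdd g.n i) ((eF_iff g _ _).2 ⟨?_, Or.inr ?_⟩) hi.symm
      · rw [Fin.val_castAdd, Fin.val_natAdd]
        have := a.2
        omega
      · rw [Fin.val_natAdd]
        omega
    have hadj : ∀ a b : Fin g.n, a < b → g.G.Adj a b →
        x (Fin.castAdd q a) ≠ x (Fin.castAdd q b) := by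
      intro a b hab h
      refine hx _ _ ((eF_iff g _ _).2 ⟨hab, Or.inl ?_⟩)
      rw [Fin.val_castAdd, Fin.val_castAdd]
      exact (adjN_fin g a b).2 h
    have hcard : Fintype.card {c : C // ¬ c ∈ Set.range y} = 3 := by
      rw [Fintype.card_subtype_compl, hC]
      have h1 : Fintype.card {c : C // c ∈ Set.range y} = q := by
        have h2 := Set.card_range_of_injective hinj
        rw [Fintype.card_fin] at h2
        exact (Fintype.card_congr (Equiv.refl _)).trans h2
      rw [h1]
      omega
    have hcol : g.G.Coloring {c : C // ¬ c ∈ Set.range y} :=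
      SimpleGraph.Coloring.mk (fun a => ⟨x (Fin.castAdd q a), hne a⟩) (by
        intro a b hab h
        have h1 : x (Fin.castAdd q a) = x (Fin.castAdd q b) := congrArg Subtype.val h
        rcases lt_trichotomy a b with h2 | h2 | h2
        · exact hadj a b h2 hab h1
        · exact hab.ne h2
        · exact hadj b a h2 hab.symm h1.symm)
    have h := hcol.colorable
    rwa [hcard] at h
  · rintro ⟨c⟩
    have e : Fin 3 ⊕ Fin q ≃ C := Fintype.equivOfCardEq (by
      rw [Fintype.card_sum, Fintype.card_fin, Fintype.card_fin, hC]
      omega)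
    refine ⟨fun v => e (Fin.addCases (fun a => Sum.inl (c a)) (fun i => Sum.inr i) v), ?_⟩
    intro a b hab h
    have h1 := e.injective h
    rw [eF_iff] at hab
    revert hab h1
    clear h
    refine Fin.addCases (fun a' => ?_) (fun i => ?_) a
    · refine Fin.addCases (fun b' => ?_) (fun j => ?_) b
      · intro hab h1
        rw [Fin.addCases_left, Fin.addCases_left] at h1
        rw [Fin.val_castAdd, Fin.val_castAdd] at hab
        rcases hab.2 with h2 | h2
        · exact c.valid ((adjN_fin g a' b').1 h2) (Sum.inl_injective h1)
        · exact h2 b'.2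
      · intro _ h1
        rw [Fin.addCases_left, Fin.addCases_right] at h1
        exact absurd h1 (by simp)
    · refine Fin.addCases (fun b' => ?_) (fun j => ?_) b
      · intro hab _
        rw [Fin.val_natAdd, Fin.val_castAdd] at hab
        have := b'.2
        omega
      · intro hab h1
        rw [Fin.addCases_right, Fin.addCases_right] at h1
        rw [Fin.val_natAdd, Fin.val_natAdd] at hab
        have h2 : i = j := Sum.inr_injective h1
        rw [h2] at hab
        omega

end Pool.Agent.Lib.H8da
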