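import Pool.Agent.Lib.H8da.TabDefs
import Pool.Agent.Lib.P5135r.Red

set_option autoImplicit false

/-!
# The finite data of a graph are computable in polynomial time

Black boxes: `TabDefs.lean`, `Pool/Agent/Lib/P2ba8ab/Poly.lean` (`poly_iT`, `poly_iA`, `poly_iB`,
`poly_n`) and `Pool/Agent/Lib/P5135r/Pair.lean`, `Red.lean`
(`Rd`, `Rd.adj`, `Rd.n`, `Rd.up`, `rd_gr`; see `poly_rows`, `poly_gr2`, `poly_red1` for the pattern
that is to be followed).

PROOF. (1) `flat` of a matrix given by a function `H : ℕ → ℕ → Bool` on `Fin k` is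
`(List.range (k * k)).map (fun l => H (l / k) (l % k))` (see `rows_eq`, `flatten_ofFn` in
`P5135r/Pair.lean`), and is computable in polynomial time by `PolyC.map_range` if `H` is
(see `poly_rows`; here without symmetrisation, so the proof is simpler).
(2) `tF`, `pF`, `mF` with `F = eF g` are Boolean combinations of `PolyB.natEq`, `PolyB.lt` of the
numbers `tg i = iT 8 7 i`, `ca N i`, `cb N i` (`poly_iT`, `poly_iA`, `poly_iB`), constants, and of
`eF g (ca N i) (cb N i)` which is `PolyB` by `Rd.adj`. Here `N = g.n + q`.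
(3) the encoding: `PolyC.append hk (PolyC.cons false (PolyC.append hT (PolyC.append hP hM)))`.
-/

namespace Pool.Agent.Lib.H8da

open Pool.Agent.Lib.PolyTime Pool.Agent.Lib.Pa7c826 Pool.Agent.Lib.P2ba8ab Pool.Agent.Lib.P5135r

namespace PolyTAux

section

variable {α : Type} {D : α → Prop} {ctx : List (α → List Bool)}

private theorem flat_eq (k : ℕ) (H : ℕ → ℕ → Bool) :
    flat (fun i j : Fin k => H i j) = (List.range (k * k)).map (fun l => H (l / k) (l % k)) := by
  unfold flat
  rw [← flatten_ofFn]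

private theorem poly_flat {K : α → ℕ} {H : α → ℕ → ℕ → Bool} (hK : PolyN D ctx K)
    (hH : ∀ u v : α × ℕ → ℕ,
      PolyN (fun p : α × ℕ => D p.1 ∧ p.2 < K p.1 * K p.1)
        (PolyTime.lift ctx ++ [fun p => un p.2]) u →
      PolyN (fun p : α × ℕ => D p.1 ∧ p.2 < K p.1 * K p.1)
        (PolyTime.lift ctx ++ [fun p => un p.2]) v →
      PolyB (fun p : α × ℕ => D p.1 ∧ p.2 < K p.1 * K p.1)
        (PolyTime.lift ctx ++ [fun p => un p.2]) (fun p => H p.1 (u p) (v p))) :
    PolyC D ctx (fun a => flat (fun i j : Fin (K a) => H a i j)) := by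
  have hu := upN (n := fun a => K a * K a) hK
  have hL := last (D := D) (ctx := ctx) (n := fun a => K a * K a)
  have h3 := hH _ _ (nDiv' hL hu) (nMod' hL hu)
  refine (PolyC.map_range (hK.mul hK) h3).congr (fun a _ => ?_)
  rw [flat_eq]

variable {g : α → Gr} {N : α → ℕ}

private theorem poly_eF (hg : Rd D ctx g) {a b : α → ℕ} (ha : PolyN D ctx a) (hb : PolyN D ctx b) :
    PolyB D ctx (fun x => eF (g x) (a x) (b x)) :=
  (PolyB.lt ha hb).and ((hg.adj ha hb).or (PolyB.lt hb hg.n).not)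

private theorem poly_tg {i : α → ℕ} (hi : PolyN D ctx i) : PolyN D ctx (fun a => tg (i a)) :=
  poly_iT hi

private theorem poly_ca {i : α → ℕ} (hN : PolyN D ctx N) (hi : PolyN D ctx i) :
    PolyN D ctx (fun a => ca (N a) (i a)) := poly_iA hi hN

private theorem poly_cb {i : α → ℕ} (hN : PolyN D ctx N) (hi : PolyN D ctx i) :
    PolyN D ctx (fun a => cb (N a) (i a)) := poly_iB hi hN

private theorem poly_usN (hg : Rd D ctx g) (hN : PolyN D ctx N) {i : α → ℕ} (hi : PolyN D ctx i) :
    PolyB D ctx (fun x => usN (eF (g x)) (N x) (i x)) :=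
  (PolyB.lt (poly_tg hi) (PolyN.const 8)).or
    (((PolyB.natEq (poly_tg hi) (PolyN.const 8)).and
      (PolyB.natEq (poly_ca hN hi) (poly_cb hN hi))).or
      ((PolyB.lt (poly_tg hi) (PolyN.const 9)).not.and
        (poly_eF hg (poly_ca hN hi) (poly_cb hN hi))))

private theorem poly_isM {x : α → ℕ} (hx : PolyN D ctx x) : PolyB D ctx (fun p => isM (x p)) :=
  (PolyB.lt hx (PolyN.const 2)).not.and (PolyB.lt hx (PolyN.const 4))

private theorem poly_isO {x : α → ℕ} (hx : PolyN D ctx x) : PolyB D ctx (fun p => isO (x p)) :=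
  (PolyB.lt hx (PolyN.const 4)).not.and (PolyB.lt hx (PolyN.const 6))

private theorem poly_isMu {x : α → ℕ} (hx : PolyN D ctx x) : PolyB D ctx (fun p => isMu (x p)) :=
  (PolyB.lt hx (PolyN.const 13)).not

private theorem poly_ltB {x a b x' a' b' : α → ℕ} (hx : PolyN D ctx x) (ha : PolyN D ctx a)
    (hb : PolyN D ctx b) (hx' : PolyN D ctx x') (ha' : PolyN D ctx a') (hb' : PolyN D ctx b') :
    PolyB D ctx (fun p => ltB (x p) (a p) (b p) (x' p) (a' p) (b' p)) := by
  have e := (PolyB.natEq ha ha').and (PolyB.natEq hb hb')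
  have M := poly_isM hx'
  have O := poly_isO hx'
  have U := poly_isMu hx'
  have c : ∀ n : ℕ, PolyB D ctx (fun p => decide (x p = n)) := fun n =>
    PolyB.natEq hx (PolyN.const n)
  have c' : ∀ n : ℕ, PolyB D ctx (fun p => decide (x' p = n)) := fun n =>
    PolyB.natEq hx' (PolyN.const n)
  exact (((c 8).or (PolyB.lt hx (PolyN.const 2))).and (M.or O)).or
    ((((c 10).or (c 12)).and (M.or (U.and e))).or
    (((c 11).and (O.or (U.and e))).or
    ((c 9).and (((c' 8).and ((PolyB.natEq ha' ha).or (PolyB.natEq ha' hb))).or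
      ((((c' 10).or ((c' 11).or U)).and e).or (M.or O))))))

private theorem poly_plB {x a b x' a' b' : α → ℕ} (hx : PolyN D ctx x) (ha : PolyN D ctx a)
    (hb : PolyN D ctx b) (hx' : PolyN D ctx x') (ha' : PolyN D ctx a') (hb' : PolyN D ctx b') :
    PolyB D ctx (fun p => plB (x p) (a p) (b p) (x' p) (a' p) (b' p)) := by
  have e := (PolyB.natEq ha ha').and (PolyB.natEq hb hb')
  have c : ∀ n : ℕ, PolyB D ctx (fun p => decide (x p = n)) := fun n =>
    PolyB.natEq hx (PolyN.const n)
  have c' : ∀ n : ℕ, PolyB D ctx (fun p => decide (x' p = n)) := fun n =>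
    PolyB.natEq hx' (PolyN.const n)
  exact ((c 10).and ((c' 8).and (PolyB.natEq ha' ha))).or
    (((c 10).and ((c' 11).and e)).or
    (((c 9).and (c' 6)).or
    (((c 11).or ((c 12).or (PolyB.lt hx (PolyN.const 2)))).and (c' 7))))

private theorem poly_ndB {x : α → ℕ} (hx : PolyN D ctx x) : PolyB D ctx (fun p => ndB (x p)) :=
  (poly_isM hx).or ((PolyB.lt hx (PolyN.const 6)).not.and (PolyB.lt hx (PolyN.const 9)))

private theorem poly_miB {x a b x' a' b' : α → ℕ} (hx : PolyN D ctx x)
    (hb : PolyN D ctx b) (hx' : PolyN D ctx x') (ha' : PolyN D ctx a') :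
    PolyB D ctx (fun p => miB (x p) (a p) (b p) (x' p) (a' p) (b' p)) := by
  have c : ∀ n : ℕ, PolyB D ctx (fun p => decide (x p = n)) := fun n =>
    PolyB.natEq hx (PolyN.const n)
  have c' : ∀ n : ℕ, PolyB D ctx (fun p => decide (x' p = n)) := fun n =>
    PolyB.natEq hx' (PolyN.const n)
  exact (((c 4).or (c 13)).and (c' 2)).or
    ((((c 5).or (c 14)).and (c' 3)).or
    ((c 10).and ((c' 8).and (PolyB.natEq ha' hb))))

private theorem poly_tF (hg : Rd D ctx g) (hN : PolyN D ctx N) {i j : α → ℕ}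
    (hi : PolyN D ctx i) (hj : PolyN D ctx j) :
    PolyB D ctx (fun x => tF (eF (g x)) (N x) (i x) (j x)) :=
  (PolyB.natEq hi hj).or (((poly_usN hg hN hi).and (poly_usN hg hN hj)).and
    (poly_ltB (poly_tg hj) (poly_ca hN hj) (poly_cb hN hj) (poly_tg hi) (poly_ca hN hi)
      (poly_cb hN hi)))

private theorem poly_pF (hg : Rd D ctx g) (hN : PolyN D ctx N) {i j : α → ℕ}
    (hi : PolyN D ctx i) (hj : PolyN D ctx j) :
    PolyB D ctx (fun x => pF (eF (g x)) (N x) (i x) (j x)) :=
  ((poly_usN hg hN hi).and (poly_usN hg hN hj)).and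
    (((PolyB.natEq hi hj).and (poly_ndB (poly_tg hi)).not).or
      (poly_plB (poly_tg hi) (poly_ca hN hi) (poly_cb hN hi) (poly_tg hj) (poly_ca hN hj)
        (poly_cb hN hj)))

private theorem poly_mF (hg : Rd D ctx g) (hN : PolyN D ctx N) {i j : α → ℕ}
    (hi : PolyN D ctx i) (hj : PolyN D ctx j) :
    PolyB D ctx (fun x => mF (eF (g x)) (N x) (i x) (j x)) :=
  ((poly_usN hg hN hi).and (poly_usN hg hN hj)).and
    (poly_miB (poly_tg hi) (poly_cb hN hi) (poly_tg hj) (poly_ca hN hj))

end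

end PolyTAux

open PolyTAux in
theorem poly_mkI (q : ℕ) : PolyC (fun _ : Gr => True) [Gr.encode]
    (fun g => (mkI (g.n + q) (eF g)).encode) := by
  have hn := poly_n (D := fun _ : Gr => True)
  have hN : PolyN (fun _ : Gr => True) [Gr.encode] (fun g => g.n + q) := hn.add (PolyN.const q)
  have hK : PolyN (fun _ : Gr => True) [Gr.encode] (fun g => 8 + (g.n + q) * (g.n + q) * 7) :=
    (PolyN.const 8).add ((hN.mul hN).mul (PolyN.const 7))
  have hR := Rd.up (n := fun g : Gr => (8 + (g.n + q) * (g.n + q) * 7) *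
    (8 + (g.n + q) * (g.n + q) * 7)) (rd_gr (D := fun _ : Gr => True))
  have hN' := upN (n := fun g : Gr => (8 + (g.n + q) * (g.n + q) * 7) *
    (8 + (g.n + q) * (g.n + q) * 7)) hN
  have hT : PolyC (fun _ : Gr => True) [Gr.encode] (fun g : Gr =>
      flat (fun i j : Fin (8 + (g.n + q) * (g.n + q) * 7) => tF (eF g) (g.n + q) i j)) :=
    poly_flat (H := fun g : Gr => tF (eF g) (g.n + q)) hK
      (fun u v hu hv => poly_tF hR hN' hu hv)
  have hP : PolyC (fun _ : Gr => True) [Gr.encode] (fun g : Gr =>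
      flat (fun i j : Fin (8 + (g.n + q) * (g.n + q) * 7) => pF (eF g) (g.n + q) i j)) :=
    poly_flat (H := fun g : Gr => pF (eF g) (g.n + q)) hK
      (fun u v hu hv => poly_pF hR hN' hu hv)
  have hM : PolyC (fun _ : Gr => True) [Gr.encode] (fun g : Gr =>
      flat (fun i j : Fin (8 + (g.n + q) * (g.n + q) * 7) => mF (eF g) (g.n + q) i j)) :=
    poly_flat (H := fun g : Gr => mF (eF g) (g.n + q)) hK
      (fun u v hu hv => poly_mF hR hN' hu hv)
  exact (PolyC.append hK (PolyC.cons false (PolyC.append hT (PolyC.append hP hM)))).congr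
    (fun _ _ => rfl)

end Pool.Agent.Lib.H8da
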