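import Pool.Agent.Lib.H8da.Tab
import Pool.Agent.Lib.H8da.PolyT
import Pool.Agent.Lib.H8da.Join
import Pool.Agent.Lib.H8da.Colour
import Pool.Agent.Lib.H8da.Bwd

set_option autoImplicit false
set_option linter.unusedSectionVars false

/-!
The reduction of 3-colourability to the realisation of homocyclic regulating quotients.
-/

namespace Pool.Agent.Lib.H8da

open Pool.Agent.Lib.C8da183 Pool.Agent.Lib.P2ba8ab

theorem regQuot_congr {V : Type*} [AddCommGroup V] [Module ℚ V] {G : AddSubgroup V} {X Y : Type*}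
    [AddCommGroup X] [AddCommGroup Y] (e : X ≃+ Y) (h : RegQuot G X) : RegQuot G Y := by
  obtain ⟨C, hC, ⟨φ⟩⟩ := h
  exact ⟨C, hC, ⟨φ.trans e⟩⟩

section

variable {p : ℕ} [Fact p.Prime] {A V E : Type} [Fintype A] [DecidableEq A] [Fintype V]
  [DecidableEq V] [Fintype E] [DecidableEq E] {S : A → Set ℕ} {D : A → A → ℤ} {s t : E → V}
  {ι : Nd V E → A} {ρ : Rw E → A}

theorem core_reg (h : Emb p S D ι ρ (Dm s t) (LT s t)) : RegCond p S D := by
  refine h.regCond fun j n hn => ?_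
  rw [sum_Dm]
  exact reg fun i hi hlt => by rw [← sum_Dm]; exact hn i hi hlt

theorem core_card (h : Emb p S D ι ρ (Dm s t) (LT s t)) :
    Nat.card (rowSpace p D) = p ^ (2 * (2 + 3 * Fintype.card E)) := by
  rw [h.card_rowSpace fun n hn r => ind (s := s) (t := t) (fun i => by rw [← sum_Dm]; exact hn i) r,
    card_Rw]

theorem card_homocyclic (p : ℕ) [Fact p.Prime] {I : Type*} [Fintype I] :
    Nat.card (I → ZMod (p ^ 2)) = p ^ (2 * Fintype.card I) := by
  rw [Nat.card_fun, Nat.card_zmod, Nat.card_eq_fintype_card, ← pow_mul]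

theorem core_iff (h : Emb p S D ι ρ (Dm s t) (LT s t)) :
    (∃ r : ℕ, RegQuot (grp p S D) (Fin r → ZMod (p ^ 2))) ↔
      ∃ x : V → Fin 2 → ZMod p, ∀ e, x (s e) ≠ x (t e) := by
  have hp : p.Prime := Fact.out
  have : NeZero (p ^ 2) := ⟨pow_ne_zero _ hp.ne_zero⟩
  have : NeZero p := ⟨hp.ne_zero⟩
  constructor
  · rintro ⟨r, hr⟩
    obtain ⟨hcard, v, y, h1, h2, h3⟩ := h.forward (core_reg h) hr
    rw [core_card h, card_homocyclic, Fintype.card_fin] at hcard
    have hm : r = 2 + 3 * Fintype.card E := by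
      have := Nat.pow_right_injective hp.two_le hcard
      omega
    obtain ⟨x, z, al, ph, be, ta, la, ka, hs⟩ := exists_shape hp v y
      (fun n c hnc => h1 n c fun i => by rw [sum_Dm]; exact hnc i)
      (fun j => by
        obtain ⟨n, c, h4, h5⟩ := h3 j
        exact ⟨n, c, fun i hi => by rw [← sum_Dm]; exact h4 i hi, h5⟩)
    refine ⟨fun i k => (x i k : ZMod p), fun e he => ?_⟩
    obtain ⟨k, hk⟩ := colour hm hs h2 e
    exact hk (congrFun he k)
  · rintro ⟨c, hc⟩
    set x : V → Fin 2 → ℤ := fun i k => ((c i k).val : ℤ) with hx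
    have hxc : ∀ i k, ((x i k : ℤ) : ZMod p) = c i k := by
      intro i k
      rw [hx]
      simp
    obtain ⟨a, ha1, ha2⟩ := exists_hom hp (s := s) (t := t) x (fun e => by
      by_contra hcon
      push Not at hcon
      refine hc e (funext fun k => ?_)
      have h1 := (ZMod.intCast_zmod_eq_zero_iff_dvd (x (s e) k - x (t e) k) p).2 (hcon k)
      rw [Int.cast_sub, hxc, hxc, sub_eq_zero] at h1
      exact h1)
    have h4 := h.backward (core_reg h) (I := Ix E)
      (by rw [core_card h, card_homocyclic, card_Ix]) a ha1 ha2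
    refine ⟨Fintype.card (Ix E), regQuot_congr ?_ h4⟩
    exact (LinearEquiv.funCongrLeft ℤ (ZMod (p ^ 2)) (Fintype.equivFin (Ix E)).symm).toAddEquiv

end

/-- a finite group killed by `p` -/
theorem exists_equiv {p : ℕ} [Fact p.Prime] {X : Type*} [AddCommGroup X] [Finite X]
    (h : ∀ x : X, p • x = 0) : ∃ m : ℕ, Nonempty (X ≃+ (Fin m → ZMod p)) := by
  let i1 : Module (ZMod p) X := AddCommGroup.zmodModule h
  have h2 : Module.Finite (ZMod p) X := by
    refine ⟨⟨(Set.toFinite (Set.univ : Set X)).toFinset, ?_⟩⟩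
    simp
  have h3 : Module.Free (ZMod p) X := Module.Free.of_divisionRing _ _
  let b := @Module.finBasis (ZMod p) X _ _ _ h3 inferInstance h2
  exact ⟨@Module.finrank (ZMod p) X _ _ _, ⟨b.equivFun.toAddEquiv⟩⟩

theorem elementary {p : ℕ} [Fact p.Prime] {A : Type} [Fintype A] [DecidableEq A] {S : A → Set ℕ}
    {D : A → A → ℤ} (hS : ∀ a, p ∉ S a) (hprime : ∀ a, ∀ q ∈ S a, q.Prime)
    (hanti : ∀ i j, S i ⊆ S j → S j ⊆ S i → i = j) (hreg : RegCond p S D) :
    ∃ m : ℕ, RegQuot (grp p S D) (Fin m → ZMod p) := by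
  have hidx : (baseG S).relIndex (grp p S D) ≠ 0 := (refbv hS).fin
  have hfi : ((baseG S).addSubgroupOf (grp p S D)).FiniteIndex := ⟨hidx⟩
  have hfin : Finite ((grp p S D) ⧸ (baseG S).addSubgroupOf (grp p S D)) := inferInstance
  obtain ⟨m, ⟨e⟩⟩ := exists_equiv (p := p)
    (X := (grp p S D) ⧸ (baseG S).addSubgroupOf (grp p S D)) (by
      intro x
      induction x using QuotientAddGroup.induction_on with
      | H g =>
        rw [← QuotientAddGroup.mk_nsmul, QuotientAddGroup.eq_zero_iff,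
          AddSubgroup.mem_addSubgroupOf, AddSubgroup.coe_nsmul]
        exact p_mem_base g.2)
  exact ⟨m, baseG S, isRegulating hS hprime hanti hreg, ⟨e⟩⟩

/-- The reduction. -/
theorem reduction (p : ℕ) (hp : p.Prime) :
    (∀ x : Inst, IsACD (x.group p)) ∧
    ∃ f : Gr → Inst, Nonempty (Turing.TM2ComputableInPolyTime Gr.encode Inst.encode f) ∧
      ∀ g : Gr, IsRegulating ((f g).group p) ((f g).base p) ∧
        (∀ x ∈ (f g).group p, p • x ∈ (f g).base p) ∧
        (∃ m : ℕ, RegQuot ((f g).group p) (Fin m → ZMod p)) ∧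
        (g.G.Colorable 3 ↔ ∃ r : ℕ, RegQuot ((f g).group p) (Fin r → ZMod (p ^ 2))) := by
  have : Fact p.Prime := ⟨hp⟩
  refine ⟨fun x => isACD fun i => x.notMem_primes p i, fun g => mkI (g.n + (p ^ 2 - 3)) (eF g),
    ?_, fun g => ?_⟩
  · obtain ⟨⟨tm, time, hout⟩⟩ := Pool.Agent.Lib.PolyTime.PolyC.toTM2 Gr.encode
      (D := fun _ => True) (fun g => mkI (g.n + (p ^ 2 - 3)) (eF g)) Inst.encode
      (poly_mkI (p ^ 2 - 3))
    exact ⟨⟨tm, time, fun g => hout ⟨g, trivial⟩⟩⟩
  · obtain ⟨ι, ρ, h⟩ := emb_mkI p (g.n + (p ^ 2 - 3)) (eF g)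
    have hreg := core_reg h
    have hS := h.hS
    refine ⟨isRegulating hS h.prime h.anti hreg, fun x hx => p_mem_base hx,
      elementary hS h.prime h.anti hreg, ?_⟩
    have hp4 : 2 ^ 2 ≤ p ^ 2 := Nat.pow_le_pow_left hp.two_le 2
    have hC : Fintype.card (Fin 2 → ZMod p) = p ^ 2 - 3 + 3 := by
      have : NeZero p := ⟨hp.ne_zero⟩
      rw [Fintype.card_fun, ZMod.card, Fintype.card_fin]
      omega
    rw [← join_colour g (p ^ 2 - 3) hC]
    refine Iff.trans ?_ (core_iff h).symm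
    constructor
    · rintro ⟨x, hx⟩
      exact ⟨x, fun e => hx _ _ e.2⟩
    · rintro ⟨x, hx⟩
      exact ⟨x, fun a b hab => hx ⟨(a, b), hab⟩⟩

end Pool.Agent.Lib.H8da
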