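import Pool.Agent.Lib.H8da.Defs

set_option autoImplicit false

/-!
Almost completely decomposable groups as finite input.
-/

namespace Pool.Agent.Lib.H8da

/-- Finite data for an almost completely decomposable group: three Boolean `k × k` matrices. -/
structure Inst where
  /-- the number of rank one groups -/
  k : ℕ
  /-- the `j`-th prime number divides the `i`-th rank one group -/
  T : Fin k → Fin k → Bool
  /-- positions of the entries `1` -/
  P : Fin k → Fin k → Bool
  /-- positions of the entries `-1` -/
  M : Fin k → Fin k → Bool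

/-- The rows of a Boolean matrix, one after the other. -/
def flat {k : ℕ} (A : Fin k → Fin k → Bool) : List Bool :=
  (List.ofFn fun i : Fin k => List.ofFn fun j : Fin k => A i j).flatten

/-- The bit string of the finite data: the number `k` in unary, a `0`, and the rows of the three
matrices. -/
def Inst.encode (x : Inst) : List Bool :=
  List.replicate x.k true ++ false :: (flat x.T ++ (flat x.P ++ flat x.M))

/-- The set of the primes by which the `i`-th rank one group is divisible. -/
def Inst.primes (p : ℕ) (x : Inst) (i : Fin x.k) : Set ℕ :=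
  {q | ∃ j : Fin x.k, x.T i j = true ∧ q = pr p j}

/-- The entries `1`, `-1`, `0` of the matrix of the generators. -/
def Inst.entry (x : Inst) (i j : Fin x.k) : ℤ :=
  (if x.P i j = true then 1 else 0) - (if x.M i j = true then 1 else 0)

/-- The direct sum of the `k` rank one groups. -/
def Inst.base (p : ℕ) (x : Inst) : AddSubgroup (Fin x.k → ℚ) := baseG (x.primes p)

/-- The almost completely decomposable group. -/
def Inst.group (p : ℕ) (x : Inst) : AddSubgroup (Fin x.k → ℚ) := grp p (x.primes p) x.entry

theorem pr_infinite (p : ℕ) : (setOf fun q : ℕ => q.Prime ∧ q ≠ p).Infinite := by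
  have h := Nat.infinite_setOf_prime.diff (Set.finite_singleton p)
  refine h.mono ?_
  rintro q ⟨h1, h2⟩
  exact ⟨h1, h2⟩

theorem pr_spec (p j : ℕ) : (pr p j).Prime ∧ pr p j ≠ p :=
  Nat.nth_mem_of_infinite (pr_infinite p) j

theorem pr_injective (p : ℕ) : Function.Injective (pr p) :=
  Nat.nth_injective (pr_infinite p)

theorem Inst.primes_prime {p : ℕ} {x : Inst} {i : Fin x.k} {q : ℕ} (h : q ∈ x.primes p i) :
    q.Prime := by
  obtain ⟨j, _, rfl⟩ := h
  exact (pr_spec p j).1

theorem Inst.notMem_primes (p : ℕ) (x : Inst) (i : Fin x.k) : p ∉ x.primes p i := by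
  rintro ⟨j, _, h⟩
  exact (pr_spec p j).2 h.symm

theorem Inst.pr_mem {p : ℕ} {x : Inst} {i j : Fin x.k} :
    pr p j ∈ x.primes p i ↔ x.T i j = true := by
  constructor
  · rintro ⟨l, hl, h⟩
    have : j = l := Fin.ext (pr_injective p h)
    rwa [this]
  · exact fun h => ⟨j, h, rfl⟩

end Pool.Agent.Lib.H8da
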