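import Pool.Agent.Lib.H8da.Core

set_option autoImplicit false
set_option linter.unusedSectionVars false

/-!
# Column sums and killed rows

Black box: `Core.lean` (`Nd`, `Rw`, `LT`, `Dm`, `cs`, `Al`).

PROOFS.
* `sum_Rw`: split the sum over the inductive type (equivalence with a sum type, or
  `Fintype.sum_equiv`).
* `sum_Dm`: `sum_Rw`, then cases on `j`, `simp [Dm, cs, Pi.single_apply]`.
* `ind`: the columns `oo k, zz k, mu e k, aa e, ta e, ph e` are private for
  `ro k, rz k, rm e k, rc e, rt e, rp e`; `n (rb e)` from the columns `bb e` and `aa e`.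
* `kill`: cases on `j`. The private columns other than `j` and the types `> j` are available.
  - `sg i`: all private columns but `oo` are available; `bb e` and `aa e` give `rb e`.
  - `zz k`: the same for all rows but `rz k` (and `ro`); `rz k` then from column `p2`
    (`∑ rb + ∑ rp + ∑ rz`, all other terms are divisible).
  - `aa e`: private columns give `ro`, `rz`, `rt`, `rp`, `rm e' k` (`e' ≠ e`), `rc e'` (`e' ≠ e`),
    then `rb e'` (`e' ≠ e`) from `bb e'`; `rb e` from column `p2`; `rc e` from column `bb e`.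
  - `ph e`: `rp e` from column `p2`, all others directly.
  - `bb e`: `rb e` from column `p2`, all others (`rt, rp, rz, rc`, `rb e'`, `rm e' k` for
    `e' ≠ e`) directly.
  - `ta e`: `rt e'` (`e' ≠ e`) from `ta e'`, `rt e` from column `p1`; `rp`, `rz` directly;
    `rc e'`, `rb e'` for `e' ≠ e` directly, `rb e` from column `p2`.
  - `oo k`: `ro k` from column `mm k` (`rm` is private), all others directly.
  - `mu e k`: `rm e k` from column `mm k`, all others directly.
  - `mm k`, `p1`, `p2`: all rows directly by the private columns.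
* `reg`: from `kill`: `sg i`: the rows `rc e` are killed; `zz k`: `rz k`; `ta e`: `rt e`; `aa e`:
  `rc e`; `bb e`: `rc e`, `rb e`; `ph e`: `rp e`; `mu e k`: `rm e k`; `mm k`: `ro k` and `rm e k`;
  `oo k`: `ro k`; `p1`: `rt e`; `p2`: `rb, rp, rz`.
-/

namespace Pool.Agent.Lib.H8da

variable {V E : Type} [DecidableEq V] [DecidableEq E] [Fintype E] {s t : E → V}

namespace KillAux

/-- the generators as a sum type -/
def eqv (E : Type) : Rw E ≃ Fin 2 ⊕ (Fin 2 ⊕ ((E × Fin 2) ⊕ (E ⊕ (E ⊕ (E ⊕ E))))) where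
  toFun
    | .ro k => .inl k
    | .rz k => .inr (.inl k)
    | .rm e k => .inr (.inr (.inl (e, k)))
    | .rc e => .inr (.inr (.inr (.inl e)))
    | .rt e => .inr (.inr (.inr (.inr (.inl e))))
    | .rb e => .inr (.inr (.inr (.inr (.inr (.inl e)))))
    | .rp e => .inr (.inr (.inr (.inr (.inr (.inr e)))))
  invFun
    | .inl k => .ro k
    | .inr (.inl k) => .rz k
    | .inr (.inr (.inl (e, k))) => .rm e k
    | .inr (.inr (.inr (.inl e))) => .rc e
    | .inr (.inr (.inr (.inr (.inl e)))) => .rt e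
    | .inr (.inr (.inr (.inr (.inr (.inl e))))) => .rb e
    | .inr (.inr (.inr (.inr (.inr (.inr e))))) => .rp e
  left_inv := by intro r; cases r <;> rfl
  right_inv := by
    rintro (k | k | ⟨e, k⟩ | e | e | e | e) <;> rfl

theorem dvd_of_sum {ι : Type*} [Fintype ι] [DecidableEq ι] {f : ι → ℤ} {p : ℤ} (k : ι)
    (h : p ∣ ∑ x, f x) (h' : ∀ x, x ≠ k → p ∣ f x) : p ∣ f k := by
  rw [← Finset.add_sum_erase Finset.univ f (Finset.mem_univ k)] at h
  have h2 : p ∣ ∑ x ∈ Finset.univ.erase k, f x :=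
    Finset.dvd_sum fun x hx => h' x (Finset.ne_of_mem_erase hx)
  exact (dvd_add_left h2).1 h

end KillAux

open KillAux

theorem sum_Rw {M : Type*} [AddCommMonoid M] (f : Rw E → M) :
    ∑ r, f r = ∑ k, f (.ro k) + (∑ k, f (.rz k) + (∑ e, ∑ k, f (.rm e k) + (∑ e, f (.rc e) +
      (∑ e, f (.rt e) + (∑ e, f (.rb e) + ∑ e, f (.rp e)))))) := by
  rw [← (eqv E).symm.sum_comp f]
  simp only [Fintype.sum_sum_type, Fintype.sum_prod_type]
  rfl

theorem card_Rw : Fintype.card (Rw E) = 2 * (2 + 3 * Fintype.card E) := by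
  rw [Fintype.card_congr (eqv E)]
  simp only [Fintype.card_sum, Fintype.card_prod, Fintype.card_fin]
  ring

theorem sum_Dm (n : Rw E → ℤ) (j : Nd V E) : ∑ r, n r * Dm s t r j = cs s t n j := by
  rw [sum_Rw]
  cases j with
  | mu e0 k0 =>
    have h1 : k0 = 0 ∨ k0 = 1 := by
      fin_cases k0
      · exact Or.inl rfl
      · exact Or.inr rfl
    rcases h1 with rfl | rfl <;> simp [Dm, cs, Pi.single_apply]
  | _ => simp [Dm, cs, Pi.single_apply, mul_sub, mul_add, Finset.sum_add_distrib, mul_comm] <;> try ring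

theorem ind {p : ℕ} {n : Rw E → ℤ} (h : ∀ i, (p : ℤ) ∣ cs s t n i) (r : Rw E) :
    (p : ℤ) ∣ n r := by
  cases r with
  | ro k => exact h (.oo k)
  | rz k => exact h (.zz k)
  | rm e k => exact h (.mu e k)
  | rc e => exact h (.aa e)
  | rt e => exact h (.ta e)
  | rb e => exact (dvd_add_right (h (.aa e))).1 (h (.bb e))
  | rp e => exact h (.ph e)

namespace KillAux

variable {p : ℕ} {n : Rw E → ℤ}

theorem rb_of {e : E} (h1 : (p : ℤ) ∣ cs s t n (.bb e)) (h2 : (p : ℤ) ∣ n (.rc e)) :
    (p : ℤ) ∣ n (.rb e) := (dvd_add_right h2).1 h1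

theorem rc_of {e : E} (h1 : (p : ℤ) ∣ cs s t n (.bb e)) (h2 : (p : ℤ) ∣ n (.rb e)) :
    (p : ℤ) ∣ n (.rc e) := (dvd_add_left h2).1 h1

theorem p2_rb {e : E} (h : (p : ℤ) ∣ cs s t n .p2) (h1 : ∀ e', e' ≠ e → (p : ℤ) ∣ n (.rb e'))
    (h2 : ∀ e', (p : ℤ) ∣ n (.rp e')) (h3 : ∀ k, (p : ℤ) ∣ n (.rz k)) : (p : ℤ) ∣ n (.rb e) := by
  have h4 : (p : ℤ) ∣ ∑ e', n (.rp e') := Finset.dvd_sum fun x _ => h2 x
  have h5 : (p : ℤ) ∣ ∑ k, n (.rz k) := Finset.dvd_sum fun x _ => h3 x
  have h6 : (p : ℤ) ∣ ∑ e', n (.rb e') := by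
    have := (dvd_add_left h5).1 h
    exact (dvd_add_left h4).1 this
  exact dvd_of_sum (f := fun e' => n (.rb e')) e h6 h1

theorem p2_rp {e : E} (h : (p : ℤ) ∣ cs s t n .p2) (h1 : ∀ e', e' ≠ e → (p : ℤ) ∣ n (.rp e'))
    (h2 : ∀ e', (p : ℤ) ∣ n (.rb e')) (h3 : ∀ k, (p : ℤ) ∣ n (.rz k)) : (p : ℤ) ∣ n (.rp e) := by
  have h4 : (p : ℤ) ∣ ∑ e', n (.rb e') := Finset.dvd_sum fun x _ => h2 x
  have h5 : (p : ℤ) ∣ ∑ k, n (.rz k) := Finset.dvd_sum fun x _ => h3 x
  have h6 : (p : ℤ) ∣ ∑ e', n (.rp e') := by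
    have := (dvd_add_left h5).1 h
    exact (dvd_add_right h4).1 this
  exact dvd_of_sum (f := fun e' => n (.rp e')) e h6 h1

theorem p2_rz {k : Fin 2} (h : (p : ℤ) ∣ cs s t n .p2) (h1 : ∀ k', k' ≠ k → (p : ℤ) ∣ n (.rz k'))
    (h2 : ∀ e', (p : ℤ) ∣ n (.rb e')) (h3 : ∀ e', (p : ℤ) ∣ n (.rp e')) :
    (p : ℤ) ∣ n (.rz k) := by
  have h4 : (p : ℤ) ∣ ∑ e', n (.rb e') := Finset.dvd_sum fun x _ => h2 x
  have h5 : (p : ℤ) ∣ ∑ e', n (.rp e') := Finset.dvd_sum fun x _ => h3 x
  have h6 : (p : ℤ) ∣ ∑ k', n (.rz k') := (dvd_add_right (dvd_add h4 h5)).1 h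
  exact dvd_of_sum (f := fun k' => n (.rz k')) k h6 h1

theorem p1_rt {e : E} (h : (p : ℤ) ∣ cs s t n .p1) (h1 : ∀ e', e' ≠ e → (p : ℤ) ∣ n (.rt e')) :
    (p : ℤ) ∣ n (.rt e) := dvd_of_sum (f := fun e' => n (.rt e')) e h h1

theorem mm_rm {e : E} {k : Fin 2} (h : (p : ℤ) ∣ cs s t n (.mm k)) (h0 : (p : ℤ) ∣ n (.ro k))
    (h1 : ∀ e', e' ≠ e → (p : ℤ) ∣ n (.rm e' k)) : (p : ℤ) ∣ n (.rm e k) := by
  have h2 : (p : ℤ) ∣ ∑ e', n (.rm e' k) := by
    have h3 : (p : ℤ) ∣ -n (.ro k) := (dvd_neg).2 h0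
    exact (dvd_sub_right h3).1 h
  exact dvd_of_sum (f := fun e' => n (.rm e' k)) e h2 h1

theorem mm_ro {k : Fin 2} (h : (p : ℤ) ∣ cs s t n (.mm k))
    (h1 : ∀ e', (p : ℤ) ∣ n (.rm e' k)) : (p : ℤ) ∣ n (.ro k) := by
  have h2 : (p : ℤ) ∣ ∑ e', n (.rm e' k) := Finset.dvd_sum fun x _ => h1 x
  exact (dvd_neg).1 ((dvd_sub_left h2).1 h)

end KillAux

theorem kill {p : ℕ} {j : Nd V E} {n : Rw E → ℤ}
    (h : ∀ i, i ≠ j → ¬ LT s t j i → (p : ℤ) ∣ cs s t n i) (r : Rw E) (hr : ¬ Al j r) :
    (p : ℤ) ∣ n r := by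
  cases j with
  | sg i =>
    have haa : ∀ e, (p : ℤ) ∣ n (.rc e) := fun e => h (.aa e) (by simp) (by simp [LT])
    cases r with
    | ro k => exact absurd trivial hr
    | rz k => exact h (.zz k) (by simp) (by simp [LT])
    | rm e k => exact h (.mu e k) (by simp) (by simp [LT])
    | rc e => exact haa e
    | rt e => exact h (.ta e) (by simp) (by simp [LT])
    | rb e => exact rb_of (h (.bb e) (by simp) (by simp [LT])) (haa e)
    | rp e => exact h (.ph e) (by simp) (by simp [LT])
  | zz k0 =>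
    have haa : ∀ e, (p : ℤ) ∣ n (.rc e) := fun e => h (.aa e) (by simp) (by simp [LT])
    have hrb : ∀ e, (p : ℤ) ∣ n (.rb e) := fun e =>
      rb_of (h (.bb e) (by simp) (by simp [LT])) (haa e)
    have hrp : ∀ e, (p : ℤ) ∣ n (.rp e) := fun e => h (.ph e) (by simp) (by simp [LT])
    cases r with
    | ro k => exact absurd trivial hr
    | rz k =>
      by_cases hk : k = k0
      · subst hk
        exact p2_rz (h .p2 (by simp) (by simp [LT]))
          (fun k' hk' => h (.zz k') (by simpa using hk') (by simp [LT])) hrb hrp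
      · exact h (.zz k) (by simpa using hk) (by simp [LT])
    | rm e k => exact h (.mu e k) (by simp) (by simp [LT])
    | rc e => exact haa e
    | rt e => exact h (.ta e) (by simp) (by simp [LT])
    | rb e => exact hrb e
    | rp e => exact hrp e
  | ta e0 =>
    have hrz : ∀ k, (p : ℤ) ∣ n (.rz k) := fun k => h (.zz k) (by simp) (by simp [LT])
    have hrp : ∀ e, (p : ℤ) ∣ n (.rp e) := fun e => h (.ph e) (by simp) (by simp [LT])
    have hrc : ∀ e, e ≠ e0 → (p : ℤ) ∣ n (.rc e) := fun e he =>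
      h (.aa e) (by simp) (by simpa [LT] using fun h => he h.symm)
    have hrb : ∀ e, e ≠ e0 → (p : ℤ) ∣ n (.rb e) := fun e he =>
      rb_of (h (.bb e) (by simp) (by simpa [LT] using fun h => he h.symm)) (hrc e he)
    cases r with
    | ro k => exact absurd trivial hr
    | rz k => exact hrz k
    | rm e k => exact absurd trivial hr
    | rc e => exact hrc e hr
    | rt e =>
      by_cases hk : e = e0
      · subst hk
        exact p1_rt (h .p1 (by simp) (by simp [LT]))
          (fun k' hk' => h (.ta k') (by simpa using hk') (by simp [LT]))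
      · exact h (.ta e) (by simpa using hk) (by simp [LT])
    | rb e =>
      by_cases hk : e = e0
      · subst hk
        exact p2_rb (h .p2 (by simp) (by simp [LT])) hrb hrp hrz
      · exact hrb e hk
    | rp e => exact hrp e
  | aa e0 =>
    have hrz : ∀ k, (p : ℤ) ∣ n (.rz k) := fun k => h (.zz k) (by simp) (by simp [LT])
    have hrp : ∀ e, (p : ℤ) ∣ n (.rp e) := fun e => h (.ph e) (by simp) (by simp [LT])
    have hrc : ∀ e, e ≠ e0 → (p : ℤ) ∣ n (.rc e) := fun e he =>
      h (.aa e) (by simpa using he) (by simp [LT])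
    have hrb : ∀ e, e ≠ e0 → (p : ℤ) ∣ n (.rb e) := fun e he =>
      rb_of (h (.bb e) (by simp) (by simp [LT])) (hrc e he)
    have hrb' : ∀ e, (p : ℤ) ∣ n (.rb e) := by
      intro e
      by_cases hk : e = e0
      · subst hk
        exact p2_rb (h .p2 (by simp) (by simp [LT])) hrb hrp hrz
      · exact hrb e hk
    cases r with
    | ro k => exact h (.oo k) (by simp) (by simp [LT])
    | rz k => exact hrz k
    | rm e k => exact h (.mu e k) (by simp) (by simpa [LT] using fun h => hr h.symm)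
    | rc e => exact rc_of (h (.bb e) (by simp) (by simp [LT])) (hrb' e)
    | rt e => exact h (.ta e) (by simp) (by simp [LT])
    | rb e => exact hrb' e
    | rp e => exact hrp e
  | bb e0 =>
    have hrz : ∀ k, (p : ℤ) ∣ n (.rz k) := fun k => h (.zz k) (by simp) (by simp [LT])
    have hrp : ∀ e, (p : ℤ) ∣ n (.rp e) := fun e => h (.ph e) (by simp) (by simp [LT])
    have hrc : ∀ e, (p : ℤ) ∣ n (.rc e) := fun e => h (.aa e) (by simp) (by simp [LT])
    have hrb : ∀ e, e ≠ e0 → (p : ℤ) ∣ n (.rb e) := fun e he =>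
      rb_of (h (.bb e) (by simpa using he) (by simp [LT])) (hrc e)
    cases r with
    | ro k => exact absurd trivial hr
    | rz k => exact hrz k
    | rm e k => exact h (.mu e k) (by simp) (by simpa [LT] using fun h => hr h.symm)
    | rc e => exact hrc e
    | rt e => exact h (.ta e) (by simp) (by simp [LT])
    | rb e =>
      by_cases hk : e = e0
      · subst hk
        exact p2_rb (h .p2 (by simp) (by simp [LT])) hrb hrp hrz
      · exact hrb e hk
    | rp e => exact hrp e
  | ph e0 =>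
    have hrz : ∀ k, (p : ℤ) ∣ n (.rz k) := fun k => h (.zz k) (by simp) (by simp [LT])
    have hrc : ∀ e, (p : ℤ) ∣ n (.rc e) := fun e => h (.aa e) (by simp) (by simp [LT])
    have hrb : ∀ e, (p : ℤ) ∣ n (.rb e) := fun e =>
      rb_of (h (.bb e) (by simp) (by simp [LT])) (hrc e)
    cases r with
    | ro k => exact h (.oo k) (by simp) (by simp [LT])
    | rz k => exact hrz k
    | rm e k => exact h (.mu e k) (by simp) (by simpa [LT] using fun h => hr h.symm)
    | rc e => exact hrc e
    | rt e => exact h (.ta e) (by simp) (by simp [LT])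
    | rb e => exact hrb e
    | rp e =>
      by_cases hk : e = e0
      · subst hk
        exact p2_rp (h .p2 (by simp) (by simp [LT]))
          (fun k' hk' => h (.ph k') (by simpa using hk') (by simp [LT])) hrb hrz
      · exact h (.ph e) (by simpa using hk) (by simp [LT])
  | mu e0 k0 =>
    have hrc : ∀ e, (p : ℤ) ∣ n (.rc e) := fun e => h (.aa e) (by simp) (by simp [LT])
    cases r with
    | ro k => exact h (.oo k) (by simp) (by simp [LT])
    | rz k => exact h (.zz k) (by simp) (by simp [LT])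
    | rm e k =>
      by_cases hk : e = e0
      · by_cases hk2 : k = k0
        · subst hk
          subst hk2
          exact mm_rm (h (.mm k) (by simp) (by simp [LT])) (h (.oo k) (by simp) (by simp [LT]))
            (fun e' he' => h (.mu e' k) (by simp [he']) (by simp [LT]))
        · exact h (.mu e k) (by simp [hk2]) (by simp [LT])
      · exact h (.mu e k) (by simp [hk]) (by simp [LT])
    | rc e => exact hrc e
    | rt e => exact h (.ta e) (by simp) (by simp [LT])
    | rb e => exact rb_of (h (.bb e) (by simp) (by simp [LT])) (hrc e)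
    | rp e => exact h (.ph e) (by simp) (by simp [LT])
  | mm k0 =>
    have hrc : ∀ e, (p : ℤ) ∣ n (.rc e) := fun e => h (.aa e) (by simp) (by simp [LT])
    cases r with
    | ro k => exact h (.oo k) (by simp) (by simp [LT])
    | rz k => exact h (.zz k) (by simp) (by simp [LT])
    | rm e k => exact h (.mu e k) (by simp) (by simp [LT])
    | rc e => exact hrc e
    | rt e => exact h (.ta e) (by simp) (by simp [LT])
    | rb e => exact rb_of (h (.bb e) (by simp) (by simp [LT])) (hrc e)
    | rp e => exact h (.ph e) (by simp) (by simp [LT])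
  | oo k0 =>
    have hrc : ∀ e, (p : ℤ) ∣ n (.rc e) := fun e => h (.aa e) (by simp) (by simp [LT])
    cases r with
    | ro k =>
      by_cases hk : k = k0
      · subst hk
        exact mm_ro (h (.mm k) (by simp) (by simp [LT]))
          (fun e' => h (.mu e' k) (by simp) (by simp [LT]))
      · exact h (.oo k) (by simpa using hk) (by simp [LT])
    | rz k => exact h (.zz k) (by simp) (by simp [LT])
    | rm e k => exact h (.mu e k) (by simp) (by simp [LT])
    | rc e => exact hrc e
    | rt e => exact h (.ta e) (by simp) (by simp [LT])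
    | rb e => exact rb_of (h (.bb e) (by simp) (by simp [LT])) (hrc e)
    | rp e => exact h (.ph e) (by simp) (by simp [LT])
  | p1 =>
    have hrc : ∀ e, (p : ℤ) ∣ n (.rc e) := fun e => h (.aa e) (by simp) (by simp [LT])
    cases r with
    | ro k => exact h (.oo k) (by simp) (by simp [LT])
    | rz k => exact h (.zz k) (by simp) (by simp [LT])
    | rm e k => exact h (.mu e k) (by simp) (by simp [LT])
    | rc e => exact hrc e
    | rt e => exact h (.ta e) (by simp) (by simp [LT])
    | rb e => exact rb_of (h (.bb e) (by simp) (by simp [LT])) (hrc e)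
    | rp e => exact h (.ph e) (by simp) (by simp [LT])
  | p2 =>
    have hrc : ∀ e, (p : ℤ) ∣ n (.rc e) := fun e => h (.aa e) (by simp) (by simp [LT])
    cases r with
    | ro k => exact h (.oo k) (by simp) (by simp [LT])
    | rz k => exact h (.zz k) (by simp) (by simp [LT])
    | rm e k => exact h (.mu e k) (by simp) (by simp [LT])
    | rc e => exact hrc e
    | rt e => exact h (.ta e) (by simp) (by simp [LT])
    | rb e => exact rb_of (h (.bb e) (by simp) (by simp [LT])) (hrc e)
    | rp e => exact h (.ph e) (by simp) (by simp [LT])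

theorem reg {p : ℕ} {j : Nd V E} {n : Rw E → ℤ}
    (h : ∀ i, i ≠ j → ¬ LT s t j i → (p : ℤ) ∣ cs s t n i) : (p : ℤ) ∣ cs s t n j := by
  have hk := fun r hr => kill h r hr
  cases j with
  | sg i => exact Finset.dvd_sum fun e _ => Dvd.dvd.mul_left (hk (.rc e) (fun h => h)) _
  | zz k => exact hk (.rz k) (fun h => h)
  | ta e => exact hk (.rt e) (fun h => h)
  | aa e => exact hk (.rc e) (fun h => h)
  | bb e => exact dvd_add (hk (.rc e) (fun h => h)) (hk (.rb e) (fun h => h))
  | ph e => exact hk (.rp e) (fun h => h)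
  | mu e k => exact hk (.rm e k) (fun h => h)
  | mm k =>
    exact dvd_sub ((dvd_neg).2 (hk (.ro k) (fun h => h)))
      (Finset.dvd_sum fun e _ => hk (.rm e k) (fun h => h))
  | oo k => exact hk (.ro k) (fun h => h)
  | p1 => exact Finset.dvd_sum fun e _ => hk (.rt e) (fun h => h)
  | p2 =>
    exact dvd_add (dvd_add (Finset.dvd_sum fun e _ => hk (.rb e) (fun h => h))
      (Finset.dvd_sum fun e _ => hk (.rp e) (fun h => h)))
      (Finset.dvd_sum fun k _ => hk (.rz k) (fun h => h))

end Pool.Agent.Lib.H8da
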