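import Pool.Agent.Lib.H8da.Defs
import Pool.Agent.Lib.C8da183.Criterion
import Pool.Agent.Lib.C8da183.Cut
import Pool.Agent.Lib.C8da183.Pint

set_option autoImplicit false
set_option linter.unusedSectionVars false

/-!
The groups `grp p S D`: coordinates, types, regulating subgroup and regulating index.
-/

namespace Pool.Agent.Lib.H8da

open Pool.Agent.Lib.C8da183

theorem int_mem_loc (S : Set ℕ) (n : ℤ) : (n : ℚ) ∈ loc S := by
  intro q hq hd
  rw [Rat.den_intCast] at hd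
  exact absurd (Nat.dvd_one.1 hd) hq.one_lt.ne'

theorem mul_mem_loc {S : Set ℕ} {a b : ℚ} (ha : a ∈ loc S) (hb : b ∈ loc S) : a * b ∈ loc S := by
  intro q hq hd
  have h1 : q ∣ a.den * b.den := hd.trans (Rat.mul_den_dvd a b)
  rcases (Nat.Prime.dvd_mul hq).1 h1 with h | h
  · exact ha q hq h
  · exact hb q hq h

theorem loc_mono {S S' : Set ℕ} (h : S ⊆ S') {a : ℚ} (ha : a ∈ loc S) : a ∈ loc S' :=
  fun q hq hd => h (ha q hq hd)

theorem inv_pow_mem_loc {S : Set ℕ} {q : ℕ} (hq : q.Prime) (hS : q ∈ S) (m : ℕ) :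
    ((q : ℚ) ^ m)⁻¹ ∈ loc S := by
  intro l hl hd
  have h1 : ((q : ℚ) ^ m)⁻¹ = ((1 : ℤ) : ℚ) / ((q ^ m : ℤ) : ℚ) := by
    push_cast; rw [one_div]
  rw [h1] at hd
  have h2 : ((((1 : ℤ) : ℚ) / ((q ^ m : ℤ) : ℚ)).den : ℤ) ∣ (q : ℤ) ^ m := by
    have := Rat.den_dvd (1 : ℤ) (q ^ m : ℤ)
    rwa [Rat.divInt_eq_div] at this
  have h3 : l ∣ q ^ m := by
    have h4 : ((l : ℕ) : ℤ) ∣ ((q ^ m : ℕ) : ℤ) := by
      push_cast
      exact (Int.natCast_dvd_natCast.2 hd).trans h2
    exact Int.natCast_dvd_natCast.1 h4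
  have h5 : l ∣ q := hl.dvd_of_dvd_pow h3
  rw [(Nat.prime_dvd_prime_iff_eq hl hq).1 h5]
  exact hS

section

variable {p : ℕ} [Fact p.Prime]

theorem pi_of_loc {S : Set ℕ} (hS : p ∉ S) {a : ℚ} (ha : a ∈ loc S) : PI p a := by
  apply PI.of_den
  intro h
  exact hS (ha p Fact.out h)

theorem not_dvd_den {a : ℚ} (h : PI p a) : ¬ p ∣ a.den := by
  have h1 := (Padic.norm_rat_le_one_iff_padicValuation_le_one p).1 h
  exact Rat.padicValuation_le_one_iff.1 h1

theorem mem_loc_of_mul {S : Set ℕ} {a : ℚ} (ha : PI p a) (h : (p : ℚ) * a ∈ loc S) :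
    a ∈ loc S := by
  intro q hq hd
  have hqp : q ≠ p := by
    rintro rfl
    exact not_dvd_den ha hd
  have hp0 : (p : ℚ) ≠ 0 := by exact_mod_cast (Fact.out : p.Prime).ne_zero
  have h1 : a.den ∣ p * ((p : ℚ) * a).den := by
    set b : ℚ := (p : ℚ) * a with hb
    have h2 : a = (b.num : ℚ) / (((p * b.den : ℕ) : ℤ) : ℚ) := by
      have h4 : b * (b.den : ℚ) = (b.num : ℚ) := Rat.mul_den_eq_num _
      push_cast
      rw [eq_div_iff (mul_ne_zero hp0 (by exact_mod_cast Rat.den_ne_zero _)), ← h4, hb]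
      ring
    have h3 := Rat.den_dvd b.num ((p * b.den : ℕ) : ℤ)
    rw [Rat.divInt_eq_div, ← h2] at h3
    exact Int.natCast_dvd_natCast.1 h3
  have h2 : q ∣ p * ((p : ℚ) * a).den := hd.trans h1
  rcases (Nat.Prime.dvd_mul hq).1 h2 with h3 | h3
  · exact absurd ((Nat.prime_dvd_prime_iff_eq hq Fact.out).1 h3) hqp
  · exact h q hq h3

/-- a `p`-integral rational number as a `p`-adic integer -/
noncomputable def toP (q : ℚ) (h : PI p q) : ℤ_[p] := ⟨(q : ℚ_[p]), h⟩

theorem toP_val (q : ℚ) (h : PI p q) : ((toP q h : ℤ_[p]) : ℚ_[p]) = (q : ℚ_[p]) := rfl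

/-- reduction of a `p`-integral rational number modulo `p ^ N` -/
noncomputable def rd (p : ℕ) [Fact p.Prime] (N : ℕ) (q : ℚ) (h : PI p q) : ZMod (p ^ N) :=
  PadicInt.toZModPow N (toP q h)

theorem rd_add {N : ℕ} {a b : ℚ} (ha : PI p a) (hb : PI p b) (hab : PI p (a + b)) :
    rd p N (a + b) hab = rd p N a ha + rd p N b hb := by
  have h1 : toP (a + b) hab = toP a ha + toP b hb := by
    apply Subtype.ext
    rw [PadicInt.coe_add, toP_val, toP_val, toP_val]
    push_cast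
    rfl
  unfold rd
  rw [h1, map_add]

theorem rd_mul {N : ℕ} {a b : ℚ} (ha : PI p a) (hb : PI p b) (hab : PI p (a * b)) :
    rd p N (a * b) hab = rd p N a ha * rd p N b hb := by
  have h1 : toP (a * b) hab = toP a ha * toP b hb := by
    apply Subtype.ext
    rw [PadicInt.coe_mul, toP_val, toP_val, toP_val]
    push_cast
    rfl
  unfold rd
  rw [h1, map_mul]

theorem rd_int {N : ℕ} (n : ℤ) (h : PI p (n : ℚ)) : rd p N (n : ℚ) h = (n : ZMod (p ^ N)) := by
  have h1 : toP (n : ℚ) h = (n : ℤ_[p]) := by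
    apply Subtype.ext
    rw [toP_val, PadicInt.coe_intCast]
    push_cast
    rfl
  unfold rd
  rw [h1, map_intCast]

theorem rd_congr {N : ℕ} {a b : ℚ} (e : a = b) (ha : PI p a) (hb : PI p b) :
    rd p N a ha = rd p N b hb := by
  subst e; rfl

/-- the kernel of the reduction modulo `p` -/
theorem rd_eq_zero_iff {a : ℚ} (ha : PI p a) : rd p 1 a ha = 0 ↔ PI p (a / p) := by
  have hp0 : (p : ℚ_[p]) ≠ 0 := by exact_mod_cast (Fact.out : p.Prime).ne_zero
  unfold rd
  rw [← RingHom.mem_ker, PadicInt.ker_toZModPow, Ideal.mem_span_singleton]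
  constructor
  · rintro ⟨c, hc⟩
    have h1 : (a : ℚ_[p]) = (p : ℚ_[p]) * (c : ℚ_[p]) := by
      have h2 := congrArg (fun z : ℤ_[p] => (z : ℚ_[p])) hc
      simp only [PadicInt.coe_mul, PadicInt.coe_pow, PadicInt.coe_natCast, pow_one, toP_val] at h2
      exact h2
    have h3 : ((a / p : ℚ) : ℚ_[p]) = (c : ℚ_[p]) := by
      push_cast
      rw [h1, mul_div_cancel_left₀ _ hp0]
    unfold PI
    rw [h3]
    exact c.2
  · intro h
    refine ⟨toP (a / p) h, ?_⟩
    apply Subtype.ext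
    rw [PadicInt.coe_mul, toP_val]
    change (a : ℚ_[p]) = (((p : ℤ_[p]) ^ 1 : ℤ_[p]) : ℚ_[p]) * _
    rw [PadicInt.coe_pow, PadicInt.coe_natCast, pow_one, toP_val]
    push_cast
    field_simp

end

section

variable {p : ℕ} [Fact p.Prime] {J R : Type*} [Fintype J] [DecidableEq J] [Fintype R]
  {S : J → Set ℕ} {D : R → J → ℤ}

theorem mem_grp {g : J → ℚ} : g ∈ grp p S D ↔
    ∃ n : R → ℤ, ∃ c ∈ baseG S, g = c + ∑ r, n r • gen p D r := by
  unfold grp
  rw [AddSubgroup.mem_sup]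
  constructor
  · rintro ⟨c, hc, y, hy, rfl⟩
    have h1 : ∃ n : R → ℤ, y = ∑ r, n r • gen p D r := by
      clear hc
      induction hy using AddSubgroup.closure_induction with
      | mem x hx =>
        obtain ⟨r, rfl⟩ := hx
        classical
        refine ⟨Pi.single r 1, ?_⟩
        rw [Finset.sum_eq_single r]
        · simp
        · intro b _ hb; simp [hb]
        · intro h; exact absurd (Finset.mem_univ r) h
      | zero => exact ⟨0, by simp⟩
      | add x y _ _ hx hy =>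
        obtain ⟨n, rfl⟩ := hx
        obtain ⟨m, rfl⟩ := hy
        refine ⟨n + m, ?_⟩
        rw [← Finset.sum_add_distrib]
        exact Finset.sum_congr rfl fun r _ => by rw [Pi.add_apply, add_smul]
      | neg x _ hx =>
        obtain ⟨n, rfl⟩ := hx
        refine ⟨-n, ?_⟩
        rw [← Finset.sum_neg_distrib]
        exact Finset.sum_congr rfl fun r _ => by rw [Pi.neg_apply, neg_smul]
    obtain ⟨n, rfl⟩ := h1
    exact ⟨n, c, hc, rfl⟩
  · rintro ⟨n, c, hc, rfl⟩
    refine ⟨c, hc, _, AddSubgroup.sum_mem _ fun r _ =>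
      AddSubgroup.zsmul_mem _ (AddSubgroup.subset_closure (Set.mem_range_self r)) _, rfl⟩

theorem gen_mem (r : R) : gen p D r ∈ grp p S D :=
  le_sup_right (a := baseG S) (AddSubgroup.subset_closure ⟨r, rfl⟩)

theorem base_le : baseG S ≤ grp p S D := le_sup_left

theorem p_gen (r : R) : (p : ℚ) • gen p D r = fun j => (D r j : ℚ) := by
  have hp0 : (p : ℚ) ≠ 0 := by exact_mod_cast (Fact.out : p.Prime).ne_zero
  funext j
  simp only [Pi.smul_apply, smul_eq_mul, gen]
  field_simp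

theorem p_mem_base {g : J → ℚ} (hg : g ∈ grp p S D) : p • g ∈ baseG S := by
  obtain ⟨n, c, hc, rfl⟩ := mem_grp.1 hg
  rw [smul_add]
  refine (baseG S).add_mem ((baseG S).nsmul_mem hc p) ?_
  rw [Finset.smul_sum]
  refine AddSubgroup.sum_mem _ fun r _ => ?_
  rw [smul_comm]
  refine AddSubgroup.zsmul_mem _ ?_ _
  rw [← Nat.cast_smul_eq_nsmul ℚ, p_gen]
  exact fun j => int_mem_loc _ _

theorem pi_mul (hS : ∀ j, p ∉ S j) {g : J → ℚ} (hg : g ∈ grp p S D) (j : J) :
    PI p ((p : ℚ) * g j) := by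
  have h1 := p_mem_base hg j
  rw [Pi.smul_apply, nsmul_eq_mul] at h1
  exact pi_of_loc (hS j) h1

theorem coord_mem_iff (hS : ∀ j, p ∉ S j) {g : J → ℚ} (hg : g ∈ grp p S D) (j : J) :
    g j ∈ loc (S j) ↔ PI p (g j) := by
  refine ⟨pi_of_loc (hS j), fun h => mem_loc_of_mul h ?_⟩
  have h1 := p_mem_base hg j
  rwa [Pi.smul_apply, nsmul_eq_mul] at h1

/-- reduction of `p g` modulo `p ^ N` -/
noncomputable def red (N : ℕ) (hS : ∀ j, p ∉ S j) : grp p S D →+ (J → ZMod (p ^ N)) where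
  toFun g j := rd p N ((p : ℚ) * g.1 j) (pi_mul hS g.2 j)
  map_zero' := by
    funext j
    have h1 : rd p N ((p : ℚ) * (0 : grp p S D).1 j) (pi_mul hS (0 : grp p S D).2 j) =
        rd p N ((0 : ℤ) : ℚ) (PI.int 0) := rd_congr (by simp) _ _
    rw [h1, rd_int]
    simp
  map_add' g h := by
    funext j
    have h1 : rd p N ((p : ℚ) * (g + h).1 j) (pi_mul hS (g + h).2 j) =
        rd p N ((p : ℚ) * g.1 j + (p : ℚ) * h.1 j) ((pi_mul hS g.2 j).add (pi_mul hS h.2 j)) :=
      rd_congr (by rw [AddSubgroup.coe_add, Pi.add_apply, mul_add]) _ _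
    rw [h1, rd_add (pi_mul hS g.2 j) (pi_mul hS h.2 j)]
    rfl

theorem red_apply (N : ℕ) (hS : ∀ j, p ∉ S j) (g : grp p S D) (j : J) :
    red N hS g j = rd p N ((p : ℚ) * g.1 j) (pi_mul hS g.2 j) := rfl

theorem red_gen (N : ℕ) (hS : ∀ j, p ∉ S j) (r : R) :
    red N hS (⟨gen p D r, gen_mem r⟩ : grp p S D) = fun j => ((D r j : ℤ) : ZMod (p ^ N)) := by
  have hp0 : (p : ℚ) ≠ 0 := by exact_mod_cast (Fact.out : p.Prime).ne_zero
  funext j
  rw [red_apply]
  have h1 : (p : ℚ) * gen p D r j = ((D r j : ℤ) : ℚ) := by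
    simp only [gen]
    field_simp
  rw [rd_congr h1 _ (PI.int _), rd_int]

theorem red_eq_zero_iff (hS : ∀ j, p ∉ S j) (g : grp p S D) :
    red 1 hS g = 0 ↔ g.1 ∈ baseG S := by
  have hp0 : (p : ℚ) ≠ 0 := by exact_mod_cast (Fact.out : p.Prime).ne_zero
  have h1 : ∀ j, red 1 hS g j = 0 ↔ g.1 j ∈ loc (S j) := by
    intro j
    rw [red_apply, rd_eq_zero_iff, coord_mem_iff hS g.2, mul_div_cancel_left₀ _ hp0]
  constructor
  · intro h j
    rw [← h1, h]
    rfl
  · intro h
    funext j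
    exact (h1 j).2 (h j)

/-- the subspace spanned by the rows modulo `p` -/
def rowSpace (p : ℕ) (D : R → J → ℤ) : AddSubgroup (J → ZMod (p ^ 1)) :=
  AddSubgroup.closure (Set.range fun r j => ((D r j : ℤ) : ZMod (p ^ 1)))

theorem range_red (hS : ∀ j, p ∉ S j) : (red (D := D) 1 hS).range = rowSpace p D := by
  apply le_antisymm
  · rintro _ ⟨⟨g, hg⟩, rfl⟩
    obtain ⟨n, c, hc, e⟩ := mem_grp.1 hg
    have h1 : (⟨g, hg⟩ : grp p S D) =
        (⟨c, base_le hc⟩ : grp p S D) + ∑ r, n r • (⟨gen p D r, gen_mem r⟩ : grp p S D) := by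
      apply Subtype.ext
      rw [AddSubgroup.coe_add, AddSubgroup.val_finsetSum]
      exact e
    rw [h1, map_add, map_sum, (red_eq_zero_iff hS ⟨c, base_le hc⟩).2 hc, zero_add]
    refine AddSubgroup.sum_mem _ fun r _ => ?_
    rw [map_zsmul, red_gen]
    exact AddSubgroup.zsmul_mem _ (AddSubgroup.subset_closure (Set.mem_range_self r)) _
  · unfold rowSpace
    rw [AddSubgroup.closure_le]
    rintro _ ⟨r, rfl⟩
    exact ⟨(⟨gen p D r, gen_mem r⟩ : grp p S D), red_gen 1 hS r⟩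

theorem relIndex_eq (hS : ∀ j, p ∉ S j) :
    (baseG S).relIndex (grp p S D) = Nat.card (rowSpace p D) := by
  have h1 : (baseG S).addSubgroupOf (grp p S D) = (red (D := D) 1 hS).ker := by
    ext g
    rw [AddSubgroup.mem_addSubgroupOf, AddMonoidHom.mem_ker, red_eq_zero_iff hS]
  change ((baseG S).addSubgroupOf (grp p S D)).index = _
  rw [h1, AddSubgroup.index_ker, range_red hS]

theorem ref (hS : ∀ j, p ∉ S j) : Ref (grp p S D) (baseG S)
    (fun j => (Pi.single j 1 : J → ℚ)) (fun j => LinearMap.proj j) where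
  dual := by
    intro j k
    simp [Pi.single_apply]
  expand := by
    intro g _
    funext j
    simp [Finset.sum_apply, Pi.single_apply]
  le := base_le
  mem := by
    intro j k
    by_cases h : k = j
    · subst h
      simp only [Pi.single_eq_same]
      have := int_mem_loc (S k) 1
      simpa using this
    · simp only [Pi.single_eq_of_ne h]
      exact (loc (S k)).zero_mem
  coord := by
    intro c hc j k
    by_cases h : k = j
    · subst h
      simpa using hc k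
    · have h1 : (((LinearMap.proj j : (J → ℚ) →ₗ[ℚ] ℚ) c) • (Pi.single j 1 : J → ℚ)) k = 0 := by
        simp [h]
      rw [h1]
      exact (loc (S k)).zero_mem
  fin := by
    rw [relIndex_eq hS]
    have : Fintype (ZMod (p ^ 1)) := by
      have : NeZero (p ^ 1) := ⟨by rw [pow_one]; exact (Fact.out : p.Prime).ne_zero⟩
      exact ZMod.fintype _
    exact Nat.card_pos.ne'

end

end Pool.Agent.Lib.H8da
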