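import Pool.Agent.Lib.H8da.Kill

set_option autoImplicit false
set_option linter.unusedSectionVars false

/-!
# The shape of a homomorphism that defines a regulating quotient

Black box: `Core.lean` (`Nd`, `Rw`, `LT`, `cs`, `Al`) and `Kill.lean` (`sum_Rw`, `kill`).

PROOF of `exists_shape`.
(0) `Killing lemma`. Let `n : Rw E → ℤ`, `c : Nd V E → ℤ`, and let `K : Rw E → Prop` satisfy
`K r → (p : ℤ) ∣ n r`. Put `m r = n r / p` if `K r` and `0` otherwise, `n' r = n r - p * m r` (so
`n' r = 0` if `K r` and `n' r = n r` otherwise), `c' i = c i + cs s t m i`. Then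
`p * c' i + cs s t n' i = p * c i + cs s t n i` for all `i` (additivity of `cs`, which is proved by
cases), and `hrel (n - n') (c - c')` gives
`∑ r, n r • y r + ∑ i, c i • v i = ∑ r, n' r • y r + ∑ i, c' i • v i`.
(1) For every `j` apply `hup j`, then `kill` (the hypothesis of `kill` for `i ≠ j`, `¬ LT s t j i`
holds as `cs s t n i = -(p * c i)`), and (0) with `K r = ¬ Al j r` (classical). Result: `n`, `c` with
`∀ i, ¬ LT s t j i → p * c i + cs s t n i = 0`, `∀ r, ¬ Al j r → n r = 0` and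
`v j = ∑ r, n r • y r + ∑ i, c i • v i`.
(2) For `j` one of `oo k, mm k, mu e k, p1, p2` all rows are killed (`Al j r` is false) and
`LT s t j i` is false for all `i`, so `n = 0` and then `p * c i = 0`, `c i = 0`, so `v j = 0`.
(3) The relations `y_*`: apply `hrel (Pi.single r (p : ℤ)) (fun i => -(Dm s t r i))`, that is
`c i = -(cs s t (Pi.single r 1) i)`; then evaluate the sums (or use explicit `c`), and use (2).
For example `(p : ℤ) • y (.rc e) = v (.sg (s e)) - v (.sg (t e)) + v (.aa e) + v (.bb e)`.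
(4) Let `j` be one of `sg i, zz k, aa e, ph e, bb e` and take `n, c` from (1). Then `n` is supported
on the rows `ro, rm`. So for `i` one of `sg, zz, ta, aa, bb, ph` we have `cs s t n i = 0`; and
`LT s t j i` is false, so `c i = 0`; for all other `i` we have `v i = 0` by (2). Hence `c i • v i = 0`
for all `i` and `v j = ∑ k, n (.ro k) • y (.ro k) + ∑ e', ∑ k, n (.rm e' k) • y (.rm e' k)`
(`sum_Rw`). For `sg, zz` the second sum vanishes; for `aa e, ph e` the first sum vanishes and only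
`e' = e` contributes to the second; for `bb e` only `e' = e` contributes to the second, and the
column `mm k` (`¬ LT s t (.bb e) (.mm k)`) gives `p * c (.mm k) = n (.ro k) + n (.rm e k)`, so that
`n (.ro k) • y (.ro k) = -(n (.rm e k)) • y (.ro k)` as `p • y (.ro k) = 0`: take
`be e k = n (.rm e k)`.
(5) `j = ta e`: `n` is supported on `ro`, `rm`, `rc e`. For `i = ta e'`: `cs s t n i = n (.rt e') = 0`
and `LT` is false, so `c i = 0`. For `i` one of `oo, mm, mu, p1, p2` `v i = 0`. For the other `i`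
(`sg, zz, aa, bb, ph`) `v i` is an integral combination of the `y (.ro k)` and `y (.rm e' k)` by (4).
So `v (.ta e) = n (.rc e) • y (.rc e) +` an integral combination of the `y (.ro k)`,
`y (.rm e' k)` (closure of a finite set; `AddSubgroup.closure`, or add up the coefficients).
-/

namespace Pool.Agent.Lib.H8da

variable {V E : Type} [DecidableEq V] [DecidableEq E] [Fintype V] [Fintype E]

/-- see the header -/
structure Shape (p : ℕ) (s t : E → V) {X : Type} [AddCommGroup X] (v : Nd V E → X) (y : Rw E → X)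
    (x : V → Fin 2 → ℤ) (z : Fin 2 → Fin 2 → ℤ) (al ph be : E → Fin 2 → ℤ) (ta : E → ℤ)
    (la : E → Fin 2 → ℤ) (ka : E → E → Fin 2 → ℤ) : Prop where
  v_oo : ∀ k, v (.oo k) = 0
  v_mm : ∀ k, v (.mm k) = 0
  v_mu : ∀ e k, v (.mu e k) = 0
  v_p1 : v .p1 = 0
  v_p2 : v .p2 = 0
  y_ro : ∀ k, (p : ℤ) • y (.ro k) = 0
  y_rm : ∀ e k, (p : ℤ) • y (.rm e k) = 0
  y_rz : ∀ k, (p : ℤ) • y (.rz k) = v (.zz k)
  y_rt : ∀ e, (p : ℤ) • y (.rt e) = v (.ta e)
  y_rb : ∀ e, (p : ℤ) • y (.rb e) = v (.bb e)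
  y_rp : ∀ e, (p : ℤ) • y (.rp e) = v (.ph e)
  y_rc : ∀ e, (p : ℤ) • y (.rc e) = v (.sg (s e)) - v (.sg (t e)) + v (.aa e) + v (.bb e)
  v_sg : ∀ i, v (.sg i) = ∑ k, x i k • y (.ro k)
  v_zz : ∀ k, v (.zz k) = ∑ l, z k l • y (.ro l)
  v_aa : ∀ e, v (.aa e) = ∑ k, al e k • y (.rm e k)
  v_ph : ∀ e, v (.ph e) = ∑ k, ph e k • y (.rm e k)
  v_bb : ∀ e, v (.bb e) = ∑ k, be e k • (y (.rm e k) - y (.ro k))
  v_ta : ∀ e, v (.ta e) = ta e • y (.rc e) + ∑ k, la e k • y (.ro k) +
    ∑ e', ∑ k, ka e e' k • y (.rm e' k)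

namespace ShapeAux

variable {s t : E → V}

theorem cs_lin (a b : Rw E → ℤ) (q : ℤ) (i : Nd V E) :
    cs s t (fun r => a r + q * b r) i = cs s t a i + q * cs s t b i := by
  cases i with
  | sg i =>
    simp only [cs, Finset.mul_sum]
    rw [← Finset.sum_add_distrib]
    exact Finset.sum_congr rfl fun e _ => by ring
  | _ =>
    simp only [cs, mul_add, Finset.sum_add_distrib, Finset.mul_sum, mul_sub, mul_neg] <;> ring_nf

theorem cs_zero {n : Rw E → ℤ} (h : ∀ r, n r = 0) (i : Nd V E) : cs s t n i = 0 := by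
  cases i <;> simp [cs, h]

theorem cs_mul (b : Rw E → ℤ) (q : ℤ) (i : Nd V E) :
    cs s t (fun r => q * b r) i = q * cs s t b i := by
  have h := cs_lin (s := s) (t := t) (fun _ => 0) b q i
  simp only [zero_add] at h
  rw [h, cs_zero (fun _ => rfl), zero_add]

variable {X : Type} [AddCommGroup X] {v : Nd V E → X} {y : Rw E → X} {p : ℕ}

theorem killing (hp : p.Prime)
    (hrel : ∀ (n : Rw E → ℤ) (c : Nd V E → ℤ), (∀ i, (p : ℤ) * c i + cs s t n i = 0) →
      ∑ r, n r • y r + ∑ i, c i • v i = 0)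
    (n : Rw E → ℤ) (c : Nd V E → ℤ) (K : Rw E → Prop) (hK : ∀ r, K r → (p : ℤ) ∣ n r) :
    ∃ (n' : Rw E → ℤ) (c' : Nd V E → ℤ),
      (∀ i, (p : ℤ) * c' i + cs s t n' i = p * c i + cs s t n i) ∧ (∀ r, K r → n' r = 0) ∧
        ∑ r, n' r • y r + ∑ i, c' i • v i = ∑ r, n r • y r + ∑ i, c i • v i := by
  classical
  have hp0 : (p : ℤ) ≠ 0 := by exact_mod_cast hp.ne_zero
  let m : Rw E → ℤ := fun r => if K r then n r / p else 0
  refine ⟨fun r => n r + (-p) * m r, fun i => c i + cs s t m i, ?_, ?_, ?_⟩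
  · intro i
    rw [cs_lin]
    ring
  · intro r hr
    have h1 : m r = n r / p := if_pos hr
    have h2 : (p : ℤ) * (n r / p) = n r := Int.mul_ediv_cancel' (hK r hr)
    show n r + (-p) * m r = 0
    rw [h1, neg_mul, h2]
    ring
  · have h := hrel (fun r => p * m r) (fun i => -cs s t m i) (fun i => by rw [cs_mul]; ring)
    simp only [neg_smul, Finset.sum_neg_distrib] at h
    have h' : ∑ r, ((p : ℤ) * m r) • y r = ∑ i, cs s t m i • v i := by
      rw [← sub_eq_zero, sub_eq_add_neg]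
      exact h
    simp only [add_smul, neg_mul, neg_smul, Finset.sum_add_distrib, Finset.sum_neg_distrib]
    rw [h']
    abel

/-- a good representation of `v j` -/
structure Good (p : ℕ) (s t : E → V) (v : Nd V E → X) (y : Rw E → X) (j : Nd V E)
    (n : Rw E → ℤ) (c : Nd V E → ℤ) : Prop where
  col : ∀ i, ¬ LT s t j i → (p : ℤ) * c i + cs s t n i = 0
  row : ∀ r, ¬ Al j r → n r = 0
  eq : v j = ∑ r, n r • y r + ∑ i, c i • v i

theorem good (hp : p.Prime)
    (hrel : ∀ (n : Rw E → ℤ) (c : Nd V E → ℤ), (∀ i, (p : ℤ) * c i + cs s t n i = 0) →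
      ∑ r, n r • y r + ∑ i, c i • v i = 0)
    (hup : ∀ j, ∃ (n : Rw E → ℤ) (c : Nd V E → ℤ),
      (∀ i, ¬ LT s t j i → (p : ℤ) * c i + cs s t n i = 0) ∧
        v j = ∑ r, n r • y r + ∑ i, c i • v i) (j : Nd V E) :
    ∃ n c, Good p s t v y j n c := by
  obtain ⟨n, c, h1, h2⟩ := hup j
  obtain ⟨n', c', h3, h4, h5⟩ := killing hp hrel n c (fun r => ¬ Al j r) (fun r hr => by
    refine kill (s := s) (t := t) (j := j) ?_ r hr
    intro i _ hi
    have := h1 i hi
    exact ⟨-c i, by linarith⟩)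
  refine ⟨n', c', ⟨fun i hi => ?_, h4, ?_⟩⟩
  · rw [h3, h1 i hi]
  · rw [h5, h2]

theorem good_zero (hp : p.Prime) {j : Nd V E} {n : Rw E → ℤ} {c : Nd V E → ℤ}
    (h : Good p s t v y j n c) (h1 : ∀ r, ¬ Al j r) (h2 : ∀ i, ¬ LT s t j i) : v j = 0 := by
  have hp0 : (p : ℤ) ≠ 0 := by exact_mod_cast hp.ne_zero
  have hn : ∀ r, n r = 0 := fun r => h.row r (h1 r)
  have hc : ∀ i, c i = 0 := by
    intro i
    have := h.col i (h2 i)
    rw [cs_zero hn, add_zero] at this
    exact (mul_eq_zero.1 this).resolve_left hp0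
  rw [h.eq]
  simp [hn, hc]

theorem sum_single (a : Nd V E) : ∑ i, (Pi.single a 1 : Nd V E → ℤ) i • v i = v a := by
  rw [Finset.sum_eq_single a]
  · simp
  · intro b _ hb
    rw [Pi.single_eq_of_ne hb, zero_smul]
  · intro h
    exact absurd (Finset.mem_univ a) h

theorem rel_row (hrel : ∀ (n : Rw E → ℤ) (c : Nd V E → ℤ), (∀ i, (p : ℤ) * c i + cs s t n i = 0) →
      ∑ r, n r • y r + ∑ i, c i • v i = 0) (r : Rw E) :
    (p : ℤ) • y r = ∑ i, Dm s t r i • v i := by
  have h := hrel (Pi.single r (p : ℤ)) (fun i => -(Dm s t r i)) (fun i => by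
    rw [← sum_Dm, Finset.sum_eq_single r]
    · rw [Pi.single_eq_same]
      ring
    · intro b _ hb
      rw [Pi.single_eq_of_ne hb, zero_mul]
    · intro h
      exact absurd (Finset.mem_univ r) h)
  simp only [neg_smul, Finset.sum_neg_distrib] at h
  rw [Finset.sum_eq_single r, Pi.single_eq_same] at h
  · rw [← sub_eq_zero, sub_eq_add_neg]
    exact h
  · intro b _ hb
    rw [Pi.single_eq_of_ne hb, zero_smul]
  · intro h
    exact absurd (Finset.mem_univ r) h

/-- the nodes with value zero -/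
structure Zer (v : Nd V E → X) : Prop where
  oo : ∀ k, v (.oo k) = 0
  mm : ∀ k, v (.mm k) = 0
  mu : ∀ e k, v (.mu e k) = 0
  p1 : v .p1 = 0
  p2 : v .p2 = 0

/-- the supported representation -/
theorem low (hp : p.Prime) (hz : Zer v) {j : Nd V E} {n : Rw E → ℤ} {c : Nd V E → ℤ}
    (h : Good p s t v y j n c)
    (hrz : ∀ k, ¬ Al j (.rz k)) (hrc : ∀ e, ¬ Al j (.rc e)) (hrt : ∀ e, ¬ Al j (.rt e))
    (hrb : ∀ e, ¬ Al j (.rb e)) (hrp : ∀ e, ¬ Al j (.rp e))
    (hsg : ∀ i, ¬ LT s t j (.sg i)) (hzz : ∀ i, ¬ LT s t j (.zz i)) (hta : ∀ i, ¬ LT s t j (.ta i))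
    (haa : ∀ i, ¬ LT s t j (.aa i)) (hbb : ∀ i, ¬ LT s t j (.bb i))
    (hph : ∀ i, ¬ LT s t j (.ph i)) :
    v j = ∑ k, n (.ro k) • y (.ro k) + ∑ e, ∑ k, n (.rm e k) • y (.rm e k) := by
  have hp0 : (p : ℤ) ≠ 0 := by exact_mod_cast hp.ne_zero
  have h1 : ∀ k, n (.rz k) = 0 := fun k => h.row _ (hrz k)
  have h2 : ∀ k, n (.rc k) = 0 := fun k => h.row _ (hrc k)
  have h3 : ∀ k, n (.rt k) = 0 := fun k => h.row _ (hrt k)
  have h4 : ∀ k, n (.rb k) = 0 := fun k => h.row _ (hrb k)
  have h5 : ∀ k, n (.rp k) = 0 := fun k => h.row _ (hrp k)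
  have hc : ∀ i, ¬ LT s t j i → cs s t n i = 0 → c i • v i = 0 := by
    intro i hi h0
    have := h.col i hi
    rw [h0, add_zero] at this
    rw [(mul_eq_zero.1 this).resolve_left hp0, zero_smul]
  have hcv : ∀ i, c i • v i = 0 := by
    intro i
    cases i with
    | sg i => exact hc _ (hsg i) (by simp [cs, h2])
    | zz i => exact hc _ (hzz i) (by simp [cs, h1])
    | ta i => exact hc _ (hta i) (by simp [cs, h3])
    | aa i => exact hc _ (haa i) (by simp [cs, h2])
    | bb i => exact hc _ (hbb i) (by simp [cs, h2, h4])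
    | ph i => exact hc _ (hph i) (by simp [cs, h5])
    | mu e k => rw [hz.mu, smul_zero]
    | mm k => rw [hz.mm, smul_zero]
    | oo k => rw [hz.oo, smul_zero]
    | p1 => rw [hz.p1, smul_zero]
    | p2 => rw [hz.p2, smul_zero]
  rw [h.eq, Finset.sum_eq_zero (fun i _ => hcv i), add_zero, sum_Rw]
  simp [h1, h2, h3, h4, h5]

/-- integral combinations of the low generators -/
def Comb (y : Rw E → X) (x : X) : Prop := ∃ (la : Fin 2 → ℤ) (ka : E → Fin 2 → ℤ),
  x = ∑ k, la k • y (.ro k) + ∑ e', ∑ k, ka e' k • y (.rm e' k)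

theorem Comb.zero : Comb y 0 := ⟨0, 0, by simp⟩

theorem Comb.add {a b : X} (ha : Comb y a) (hb : Comb y b) : Comb y (a + b) := by
  obtain ⟨l, k, rfl⟩ := ha
  obtain ⟨l', k', rfl⟩ := hb
  refine ⟨l + l', k + k', ?_⟩
  simp only [Pi.add_apply, add_smul, Finset.sum_add_distrib]
  abel

theorem Comb.smul {a : X} (ha : Comb y a) (q : ℤ) : Comb y (q • a) := by
  obtain ⟨l, k, rfl⟩ := ha
  refine ⟨fun i => q * l i, fun e i => q * k e i, ?_⟩
  simp only [mul_smul, smul_add, Finset.smul_sum]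

theorem Comb.sum {ι : Type} (S : Finset ι) (f : ι → X) (h : ∀ i ∈ S, Comb y (f i)) :
    Comb y (∑ i ∈ S, f i) := by
  classical
  induction S using Finset.induction_on with
  | empty => exact Comb.zero
  | insert a S ha ih =>
    rw [Finset.sum_insert ha]
    exact (h a (Finset.mem_insert_self _ _)).add (ih fun i hi => h i (Finset.mem_insert_of_mem hi))

theorem Comb.ro (k : Fin 2) : Comb y (y (.ro k)) := by
  refine ⟨Pi.single k 1, 0, ?_⟩
  rw [Finset.sum_eq_single k]
  · simp
  · intro b _ hb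
    rw [Pi.single_eq_of_ne hb, zero_smul]
  · intro h
    exact absurd (Finset.mem_univ k) h

theorem Comb.rm (e : E) (k : Fin 2) : Comb y (y (.rm e k)) := by
  refine ⟨0, Pi.single e (Pi.single k 1), ?_⟩
  have h1 : ∑ k', (0 : Fin 2 → ℤ) k' • y (.ro k') = 0 := by simp
  rw [h1, zero_add, Finset.sum_eq_single e, Finset.sum_eq_single k]
  · simp
  · intro b _ hb
    rw [Pi.single_eq_same, Pi.single_eq_of_ne hb, zero_smul]
  · intro h
    exact absurd (Finset.mem_univ k) h
  · intro b _ hb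
    rw [Pi.single_eq_of_ne hb]
    simp
  · intro h
    exact absurd (Finset.mem_univ e) h

theorem top (hp : p.Prime) (hz : Zer v) {e : E} {n : Rw E → ℤ} {c : Nd V E → ℤ}
    (h : Good p s t v y (.ta e) n c) (h1 : ∀ i, Comb y (v (.sg i))) (h2 : ∀ i, Comb y (v (.zz i)))
    (h3 : ∀ i, Comb y (v (.aa i))) (h4 : ∀ i, Comb y (v (.bb i))) (h5 : ∀ i, Comb y (v (.ph i))) :
    ∃ (la : Fin 2 → ℤ) (ka : E → Fin 2 → ℤ), v (.ta e) = n (.rc e) • y (.rc e) +
      ∑ k, la k • y (.ro k) + ∑ e', ∑ k, ka e' k • y (.rm e' k) := by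
  have hp0 : (p : ℤ) ≠ 0 := by exact_mod_cast hp.ne_zero
  have g1 : ∀ k, n (.rz k) = 0 := fun k => h.row _ (by simp [Al])
  have g2 : ∀ e', e' ≠ e → n (.rc e') = 0 := fun k hk => h.row _ (by simp [Al, hk])
  have g3 : ∀ k, n (.rt k) = 0 := fun k => h.row _ (by simp [Al])
  have g4 : ∀ k, n (.rb k) = 0 := fun k => h.row _ (by simp [Al])
  have g5 : ∀ k, n (.rp k) = 0 := fun k => h.row _ (by simp [Al])
  have hcv : ∀ i, Comb y (c i • v i) := by
    intro i
    cases i with
    | sg i => exact (h1 i).smul _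
    | zz i => exact (h2 i).smul _
    | ta i =>
      have h6 := h.col (.ta i) (by simp [LT])
      rw [show cs s t n (.ta i) = 0 by simp [cs, g3], add_zero] at h6
      rw [(mul_eq_zero.1 h6).resolve_left hp0, zero_smul]
      exact Comb.zero
    | aa i => exact (h3 i).smul _
    | bb i => exact (h4 i).smul _
    | ph i => exact (h5 i).smul _
    | mu e k => rw [hz.mu, smul_zero]; exact Comb.zero
    | mm k => rw [hz.mm, smul_zero]; exact Comb.zero
    | oo k => rw [hz.oo, smul_zero]; exact Comb.zero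
    | p1 => rw [hz.p1, smul_zero]; exact Comb.zero
    | p2 => rw [hz.p2, smul_zero]; exact Comb.zero
  have hlow : Comb y (∑ k, n (.ro k) • y (.ro k) + ∑ e', ∑ k, n (.rm e' k) • y (.rm e' k) +
      ∑ i, c i • v i) :=
    Comb.add ⟨fun k => n (.ro k), fun e k => n (.rm e k), rfl⟩ (Comb.sum _ _ fun i _ => hcv i)
  obtain ⟨la, ka, hk⟩ := hlow
  refine ⟨la, ka, ?_⟩
  rw [add_assoc, ← hk, h.eq, sum_Rw]
  have h7 : ∑ e', n (.rc e') • y (.rc e') = n (.rc e) • y (.rc e) := by
    rw [Finset.sum_eq_single e]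
    · intro b _ hb
      rw [g2 b hb, zero_smul]
    · intro h
      exact absurd (Finset.mem_univ e) h
  rw [h7]
  simp only [g1, g3, g4, g5, zero_smul, Finset.sum_const_zero, add_zero, zero_add]
  abel

end ShapeAux

open ShapeAux in
theorem exists_shape {p : ℕ} (hp : p.Prime) {s t : E → V} {X : Type} [AddCommGroup X]
    (v : Nd V E → X) (y : Rw E → X)
    (hrel : ∀ (n : Rw E → ℤ) (c : Nd V E → ℤ), (∀ i, (p : ℤ) * c i + cs s t n i = 0) →
      ∑ r, n r • y r + ∑ i, c i • v i = 0)
    (hup : ∀ j, ∃ (n : Rw E → ℤ) (c : Nd V E → ℤ),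
      (∀ i, ¬ LT s t j i → (p : ℤ) * c i + cs s t n i = 0) ∧
        v j = ∑ r, n r • y r + ∑ i, c i • v i) :
    ∃ x z al ph be ta la ka, Shape p s t v y x z al ph be ta la ka := by
  have hg := good hp hrel hup
  choose n c hg using hg
  have hz : Zer v := by
    refine ⟨fun k => ?_, fun k => ?_, fun e k => ?_, ?_, ?_⟩
    · exact good_zero hp (hg _) (by intro r; simp [Al]) (by intro i; simp [LT])
    · exact good_zero hp (hg _) (by intro r; simp [Al]) (by intro i; simp [LT])
    · exact good_zero hp (hg _) (by intro r; simp [Al]) (by intro i; simp [LT])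
    · exact good_zero hp (hg _) (by intro r; simp [Al]) (by intro i; simp [LT])
    · exact good_zero hp (hg _) (by intro r; simp [Al]) (by intro i; simp [LT])
  have hrow := rel_row hrel
  have y_ro : ∀ k, (p : ℤ) • y (.ro k) = 0 := by
    intro k
    rw [hrow]
    simp only [Dm, Pi.sub_apply, sub_smul, Finset.sum_sub_distrib, sum_single, hz.oo, hz.mm,
      sub_zero]
  have l_sg : ∀ i, v (.sg i) = ∑ k, n (.sg i) (.ro k) • y (.ro k) := by
    intro i
    have h := low hp hz (hg (.sg i)) (by simp [Al]) (by simp [Al]) (by simp [Al]) (by simp [Al])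
      (by simp [Al]) (by simp [LT]) (by simp [LT]) (by simp [LT]) (by simp [LT]) (by simp [LT])
      (by simp [LT])
    have h0 : ∀ e k, n (.sg i) (.rm e k) = 0 := fun e k => (hg _).row _ (by simp [Al])
    rw [h]
    simp [h0]
  have l_zz : ∀ i, v (.zz i) = ∑ k, n (.zz i) (.ro k) • y (.ro k) := by
    intro i
    have h := low hp hz (hg (.zz i)) (by simp [Al]) (by simp [Al]) (by simp [Al]) (by simp [Al])
      (by simp [Al]) (by simp [LT]) (by simp [LT]) (by simp [LT]) (by simp [LT]) (by simp [LT])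
      (by simp [LT])
    have h0 : ∀ e k, n (.zz i) (.rm e k) = 0 := fun e k => (hg _).row _ (by simp [Al])
    rw [h]
    simp [h0]
  have l_aa : ∀ e, v (.aa e) = ∑ k, n (.aa e) (.rm e k) • y (.rm e k) := by
    intro e
    have h := low hp hz (hg (.aa e)) (by simp [Al]) (by simp [Al]) (by simp [Al]) (by simp [Al])
      (by simp [Al]) (by simp [LT]) (by simp [LT]) (by simp [LT]) (by simp [LT]) (by simp [LT])
      (by simp [LT])
    have h0 : ∀ e' k, e' ≠ e → n (.aa e) (.rm e' k) = 0 :=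
      fun e' k hk => (hg _).row _ (by simp [Al, hk])
    have h1 : ∀ k, n (.aa e) (.ro k) = 0 := fun k => (hg _).row _ (by simp [Al])
    rw [h, Finset.sum_eq_single e]
    · simp [h1]
    · intro b _ hb
      simp [h0 b _ hb]
    · intro h
      exact absurd (Finset.mem_univ e) h
  have l_ph : ∀ e, v (.ph e) = ∑ k, n (.ph e) (.rm e k) • y (.rm e k) := by
    intro e
    have h := low hp hz (hg (.ph e)) (by simp [Al]) (by simp [Al]) (by simp [Al]) (by simp [Al])
      (by simp [Al]) (by simp [LT]) (by simp [LT]) (by simp [LT]) (by simp [LT]) (by simp [LT])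
      (by simp [LT])
    have h0 : ∀ e' k, e' ≠ e → n (.ph e) (.rm e' k) = 0 :=
      fun e' k hk => (hg _).row _ (by simp [Al, hk])
    have h1 : ∀ k, n (.ph e) (.ro k) = 0 := fun k => (hg _).row _ (by simp [Al])
    rw [h, Finset.sum_eq_single e]
    · simp [h1]
    · intro b _ hb
      simp [h0 b _ hb]
    · intro h
      exact absurd (Finset.mem_univ e) h
  have l_bb : ∀ e, v (.bb e) = ∑ k, n (.bb e) (.rm e k) • (y (.rm e k) - y (.ro k)) := by
    intro e
    have h := low hp hz (hg (.bb e)) (by simp [Al]) (by simp [Al]) (by simp [Al]) (by simp [Al])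
      (by simp [Al]) (by simp [LT]) (by simp [LT]) (by simp [LT]) (by simp [LT]) (by simp [LT])
      (by simp [LT])
    have h0 : ∀ e' k, e' ≠ e → n (.bb e) (.rm e' k) = 0 :=
      fun e' k hk => (hg _).row _ (by simp [Al, hk])
    have h1 : ∀ k, n (.bb e) (.ro k) • y (.ro k) = -(n (.bb e) (.rm e k) • y (.ro k)) := by
      intro k
      have h2 := (hg (.bb e)).col (.mm k) (by simp [LT])
      have h3 : cs s t (n (.bb e)) (.mm k) = -n (.bb e) (.ro k) - n (.bb e) (.rm e k) := by
        show -n (.bb e) (.ro k) - ∑ e', n (.bb e) (.rm e' k) = _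
        rw [Finset.sum_eq_single e]
        · intro b _ hb
          exact h0 b k hb
        · intro h
          exact absurd (Finset.mem_univ e) h
      rw [h3] at h2
      have h4 : n (.bb e) (.ro k) = c (.bb e) (.mm k) * p - n (.bb e) (.rm e k) := by linarith
      rw [h4, sub_smul, mul_smul, y_ro, smul_zero, zero_sub]
    rw [h, Finset.sum_eq_single e]
    · rw [Finset.sum_congr rfl fun k _ => h1 k, ← Finset.sum_add_distrib]
      refine Finset.sum_congr rfl fun k _ => ?_
      rw [smul_sub]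
      abel
    · intro b _ hb
      simp [h0 b _ hb]
    · intro h
      exact absurd (Finset.mem_univ e) h
  have t1 := fun e => top hp hz (hg (.ta e))
    (fun i => by rw [l_sg]; exact Comb.sum _ _ fun k _ => (Comb.ro k).smul _)
    (fun i => by rw [l_zz]; exact Comb.sum _ _ fun k _ => (Comb.ro k).smul _)
    (fun i => by rw [l_aa]; exact Comb.sum _ _ fun k _ => (Comb.rm i k).smul _)
    (fun i => by
      rw [l_bb]
      refine Comb.sum _ _ fun k _ => ?_
      rw [smul_sub, sub_eq_add_neg, ← neg_smul]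
      exact ((Comb.rm i k).smul _).add ((Comb.ro k).smul _))
    (fun i => by rw [l_ph]; exact Comb.sum _ _ fun k _ => (Comb.rm i k).smul _)
  choose la ka hta using t1
  refine ⟨fun i k => n (.sg i) (.ro k), fun i k => n (.zz i) (.ro k),
    fun e k => n (.aa e) (.rm e k), fun e k => n (.ph e) (.rm e k),
    fun e k => n (.bb e) (.rm e k), fun e => n (.ta e) (.rc e), la, ka, ?_⟩
  exact
    { v_oo := hz.oo
      v_mm := hz.mm
      v_mu := hz.mu
      v_p1 := hz.p1
      v_p2 := hz.p2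
      y_ro := y_ro
      y_rm := fun e k => by
        rw [hrow]
        simp only [Dm, Pi.sub_apply, sub_smul, Finset.sum_sub_distrib, sum_single, hz.mu, hz.mm,
          sub_zero]
      y_rz := fun k => by
        rw [hrow]
        simp only [Dm, Pi.add_apply, add_smul, Finset.sum_add_distrib, sum_single, hz.p2, add_zero]
      y_rt := fun k => by
        rw [hrow]
        simp only [Dm, Pi.add_apply, add_smul, Finset.sum_add_distrib, sum_single, hz.p1, add_zero]
      y_rb := fun k => by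
        rw [hrow]
        simp only [Dm, Pi.add_apply, add_smul, Finset.sum_add_distrib, sum_single, hz.p2, add_zero]
      y_rp := fun k => by
        rw [hrow]
        simp only [Dm, Pi.add_apply, add_smul, Finset.sum_add_distrib, sum_single, hz.p2, add_zero]
      y_rc := fun k => by
        rw [hrow]
        simp only [Dm, Pi.add_apply, Pi.sub_apply, add_smul, sub_smul, Finset.sum_add_distrib,
          Finset.sum_sub_distrib, sum_single]
      v_sg := l_sg
      v_zz := l_zz
      v_aa := l_aa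
      v_ph := l_ph
      v_bb := l_bb
      v_ta := hta }

end Pool.Agent.Lib.H8da
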