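import Pool.Agent.Lib.H8da.TabDefs
import Pool.Agent.Lib.H8da.Emb

set_option autoImplicit false

/-!
# The finite data of a graph satisfy `Emb`

Black boxes: `TabDefs.lean` (read it first), `Core.lean` (`Nd`, `Rw`, `LT`, `Dm`), `Emb.lean` (only
the structure `Emb`), `Inst.lean` (`Inst.primes`, `Inst.entry`, `Inst.pr_mem`, `Inst.primes_prime`,
`Inst.notMem_primes`) and `Pool/Agent/Lib/P2ba8ab/Poly.lean`: the bijection
`idx 8 7 N : Fin 8 ⊕ ((Fin N × Fin N) × Fin 7) ≃ Fin (8 + N * N * 7)` with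
`iT_inl : iT 8 7 (idx 8 7 N (inl u)) = u`, `iT_inr : iT 8 7 (idx 8 7 N (inr ((a, b), t))) = 8 + t`,
`iA_inr`, `iB_inr` (coordinates).

PROOF. Let `ι = idx ∘ ι0`, `ρ = idx ∘ ρ0` with
`ι0 (.zz k) = inl k`, `ι0 (.mm k) = inl (2 + k)`, `ι0 (.oo k) = inl (4 + k)`, `ι0 .p1 = inl 6`,
`ι0 .p2 = inl 7`, `ι0 (.sg i) = inr ((i, i), 0)`, `ι0 (.ta e) = inr (e.1, 1)`,
`ι0 (.aa e) = inr (e.1, 2)`, `ι0 (.bb e) = inr (e.1, 3)`, `ι0 (.ph e) = inr (e.1, 4)`,
`ι0 (.mu e k) = inr (e.1, 5 + k)`; and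
`ρ0 (.ro k) = ι0 (.oo k)`, `ρ0 (.rz k) = ι0 (.zz k)`, `ρ0 (.rm e k) = ι0 (.mu e k)`,
`ρ0 (.rc e) = ι0 (.aa e)`, `ρ0 (.rt e) = ι0 (.ta e)`, `ρ0 (.rb e) = ι0 (.bb e)`,
`ρ0 (.rp e) = ι0 (.ph e)`.
(It may be convenient to define `ρ r = ι (π r)` with `π : Rw E → Nd V E`.)
(1) `tg`, `ca`, `cb` of `ι u` are computed by `iT_inl, iT_inr, iA_inr, iB_inr`: tags
`zz k ↦ k, mm k ↦ 2 + k, oo k ↦ 4 + k, p1 ↦ 6, p2 ↦ 7, sg ↦ 8, ta ↦ 9, aa ↦ 10, bb ↦ 11, ph ↦ 12,
mu k ↦ 13 + k`.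
(2) `usN F N (ι u) = true` for all `u`, and `usN F N x = true` implies `x ∈ range ι`
(write `x = idx w`, cases on `w`, `fin_cases` on the tag).
(3) `ltB` of (`ι u`, `ι w`) `= true ↔ LT sN tN u w` (cases on `u`, `w`).
(4) `(mkI N F).T x y = true ↔ x = y ∨ (∃ u w, ι u = x ∧ ι w = y ∧ LT sN tN w u)`.
`LT` is transitive and irreflexive (cases). So by `Inst.pr_mem`:
`primes a ⊆ primes b ↔ T b a = true` (for `⊆` apply it to `pr p a`, as `T a a = true`; conversely
transitivity of `T`). This gives `anti`, `lt_iff` (`lt S a b ↔ a ≠ b ∧ T b a`), `junk`.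
(5) `D_eq`: cases on `r` and `j`: `entry = [P] - [M]`; on the diagonal `ρ r = ι j` only if
`π r = j`. `D_row`: a row index `a ∉ range ρ` is unused or has a tag in `2, 3, 6, 7, 8`, so all
entries vanish. `D_col`: unused columns vanish.
Remark: `F a a = true` is allowed (then `sN e = tN e`, the entries `1` and `-1` at `sg (sN e)`
cancel both in `entry` and in `Dm`).
-/

namespace Pool.Agent.Lib.H8da

open Pool.Agent.Lib.P2ba8ab

namespace TabAux

variable {N : ℕ} {F : ℕ → ℕ → Bool}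

/-- tags -/
def tag : Nd (Fin N) (Ed N F) → ℕ
  | .sg _ => 8
  | .zz k => k
  | .ta _ => 9
  | .aa _ => 10
  | .bb _ => 11
  | .ph _ => 12
  | .mu _ k => 13 + k
  | .mm k => 2 + k
  | .oo k => 4 + k
  | .p1 => 6
  | .p2 => 7

/-- first coordinates -/
def cA : Nd (Fin N) (Ed N F) → ℕ
  | .sg i => i
  | .zz _ => 0
  | .ta e => e.1.1
  | .aa e => e.1.1
  | .bb e => e.1.1
  | .ph e => e.1.1
  | .mu e _ => e.1.1
  | .mm _ => 0
  | .oo _ => 0
  | .p1 => 0
  | .p2 => 0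

/-- second coordinates -/
def cB : Nd (Fin N) (Ed N F) → ℕ
  | .sg i => i
  | .zz _ => 0
  | .ta e => e.1.2
  | .aa e => e.1.2
  | .bb e => e.1.2
  | .ph e => e.1.2
  | .mu e _ => e.1.2
  | .mm _ => 0
  | .oo _ => 0
  | .p1 => 0
  | .p2 => 0

/-- positions -/
def io : Nd (Fin N) (Ed N F) → Fin 8 ⊕ ((Fin N × Fin N) × Fin 7)
  | .sg i => .inr ((i, i), 0)
  | .zz k => .inl ⟨k, by omega⟩
  | .ta e => .inr (e.1, 1)
  | .aa e => .inr (e.1, 2)
  | .bb e => .inr (e.1, 3)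
  | .ph e => .inr (e.1, 4)
  | .mu e k => .inr (e.1, ⟨5 + k, by omega⟩)
  | .mm k => .inl ⟨2 + k, by omega⟩
  | .oo k => .inl ⟨4 + k, by omega⟩
  | .p1 => .inl 6
  | .p2 => .inl 7

/-- the embedding -/
def io' (u : Nd (Fin N) (Ed N F)) : Fin (mkI N F).k := idx 8 7 N (io u)

/-- rows -/
def pr' : Rw (Ed N F) → Nd (Fin N) (Ed N F)
  | .ro k => .oo k
  | .rz k => .zz k
  | .rm e k => .mu e k
  | .rc e => .aa e
  | .rt e => .ta e
  | .rb e => .bb e
  | .rp e => .ph e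

theorem ca_inl (u : Fin 8) : iA 8 7 N (idx 8 7 N (Sum.inl u)) = 0 := by
  rw [idx_inl]
  have : (u : ℕ) - 8 = 0 := by omega
  simp [iA, this]

theorem cb_inl (u : Fin 8) : iB 8 7 N (idx 8 7 N (Sum.inl u)) = 0 := by
  rw [idx_inl]
  have : (u : ℕ) - 8 = 0 := by omega
  simp [iB, this]

theorem tg_io (u : Nd (Fin N) (Ed N F)) : tg (io' u : ℕ) = tag u := by
  cases u with
  | sg i => exact iT_inr 8 7 N i i 0
  | zz k => exact iT_inl 8 7 N _
  | ta e => exact iT_inr 8 7 N e.1.1 e.1.2 1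
  | aa e => exact iT_inr 8 7 N e.1.1 e.1.2 2
  | bb e => exact iT_inr 8 7 N e.1.1 e.1.2 3
  | ph e => exact iT_inr 8 7 N e.1.1 e.1.2 4
  | mu e k =>
    refine (iT_inr 8 7 N e.1.1 e.1.2 ⟨5 + k, by omega⟩).trans ?_
    show 8 + (5 + (k : ℕ)) = 13 + k
    omega
  | mm k => exact iT_inl 8 7 N _
  | oo k => exact iT_inl 8 7 N _
  | p1 => exact iT_inl 8 7 N _
  | p2 => exact iT_inl 8 7 N _

theorem ca_io (u : Nd (Fin N) (Ed N F)) : ca N (io' u : ℕ) = cA u := by
  cases u with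
  | sg i => exact iA_inr 8 7 N i i 0
  | zz k => exact ca_inl _
  | ta e => exact iA_inr 8 7 N e.1.1 e.1.2 1
  | aa e => exact iA_inr 8 7 N e.1.1 e.1.2 2
  | bb e => exact iA_inr 8 7 N e.1.1 e.1.2 3
  | ph e => exact iA_inr 8 7 N e.1.1 e.1.2 4
  | mu e k => exact iA_inr 8 7 N e.1.1 e.1.2 ⟨5 + k, by omega⟩
  | mm k => exact ca_inl _
  | oo k => exact ca_inl _
  | p1 => exact ca_inl _
  | p2 => exact ca_inl _

theorem cb_io (u : Nd (Fin N) (Ed N F)) : cb N (io' u : ℕ) = cB u := by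
  cases u with
  | sg i => exact iB_inr 8 7 N i i 0
  | zz k => exact cb_inl _
  | ta e => exact iB_inr 8 7 N e.1.1 e.1.2 1
  | aa e => exact iB_inr 8 7 N e.1.1 e.1.2 2
  | bb e => exact iB_inr 8 7 N e.1.1 e.1.2 3
  | ph e => exact iB_inr 8 7 N e.1.1 e.1.2 4
  | mu e k => exact iB_inr 8 7 N e.1.1 e.1.2 ⟨5 + k, by omega⟩
  | mm k => exact cb_inl _
  | oo k => exact cb_inl _
  | p1 => exact cb_inl _
  | p2 => exact cb_inl _

theorem us_tag (u : Nd (Fin N) (Ed N F)) : usB F (tag u) (cA u) (cB u) = true := by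
  cases u with
  | zz k => fin_cases k <;> simp [tag, cA, cB, usB]
  | mm k => fin_cases k <;> simp [tag, cA, cB, usB]
  | oo k => fin_cases k <;> simp [tag, cA, cB, usB]
  | mu e k => have := e.2; fin_cases k <;> simp [tag, cA, cB, usB, this]
  | ta e => have := e.2; simp [tag, cA, cB, usB, this]
  | aa e => have := e.2; simp [tag, cA, cB, usB, this]
  | bb e => have := e.2; simp [tag, cA, cB, usB, this]
  | ph e => have := e.2; simp [tag, cA, cB, usB, this]
  | sg i => simp [tag, cA, cB, usB]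
  | p1 => simp [tag, cA, cB, usB]
  | p2 => simp [tag, cA, cB, usB]

theorem us_io (u : Nd (Fin N) (Ed N F)) : usN F N (io' u : ℕ) = true := by
  unfold usN
  rw [tg_io, ca_io, cb_io]
  exact us_tag u

theorem io_inj : Function.Injective (io (N := N) (F := F)) := by
  intro u w h
  rcases u with i | t | e | e | e | e | ⟨e, t⟩ | t | t | _ | _ <;>
    rcases w with i' | t' | e' | e' | e' | e' | ⟨e', t'⟩ | t' | t' | _ | _ <;>
    (try fin_cases t) <;> (try fin_cases t') <;>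
    simp [io, Subtype.ext_iff, Fin.ext_iff] at h ⊢ <;> exact h

theorem io'_inj : Function.Injective (io' (N := N) (F := F)) :=
  (idx 8 7 N).injective.comp io_inj

theorem us_surj {x : Fin (mkI N F).k} (h : usN F N (x : ℕ) = true) :
    ∃ u : Nd (Fin N) (Ed N F), io' u = x := by
  obtain ⟨w, rfl⟩ : ∃ w, idx 8 7 N w = x := ⟨_, Equiv.apply_symm_apply _ _⟩
  rcases w with u | ⟨⟨a, b⟩, t⟩
  · fin_cases u
    · exact ⟨.zz 0, rfl⟩
    · exact ⟨.zz 1, rfl⟩
    · exact ⟨.mm 0, rfl⟩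
    · exact ⟨.mm 1, rfl⟩
    · exact ⟨.oo 0, rfl⟩
    · exact ⟨.oo 1, rfl⟩
    · exact ⟨.p1, rfl⟩
    · exact ⟨.p2, rfl⟩
  · unfold usN tg ca cb at h
    have h1 : iT 8 7 (idx 8 7 N (Sum.inr ((a, b), t)) : ℕ) = 8 + t := iT_inr 8 7 N a b t
    have h2 : iA 8 7 N (idx 8 7 N (Sum.inr ((a, b), t)) : ℕ) = a := iA_inr 8 7 N a b t
    have h3 : iB 8 7 N (idx 8 7 N (Sum.inr ((a, b), t)) : ℕ) = b := iB_inr 8 7 N a b t
    rw [h1, h2, h3] at h
    fin_cases t
    · have hab : a = b := by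
        apply Fin.ext
        simpa [usB] using h
      subst hab
      exact ⟨.sg a, rfl⟩
    · have hF : F a b = true := by simpa [usB] using h
      exact ⟨.ta ⟨(a, b), hF⟩, rfl⟩
    · have hF : F a b = true := by simpa [usB] using h
      exact ⟨.aa ⟨(a, b), hF⟩, rfl⟩
    · have hF : F a b = true := by simpa [usB] using h
      exact ⟨.bb ⟨(a, b), hF⟩, rfl⟩
    · have hF : F a b = true := by simpa [usB] using h
      exact ⟨.ph ⟨(a, b), hF⟩, rfl⟩
    · have hF : F a b = true := by simpa [usB] using h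
      exact ⟨.mu ⟨(a, b), hF⟩ 0, rfl⟩
    · have hF : F a b = true := by simpa [usB] using h
      exact ⟨.mu ⟨(a, b), hF⟩ 1, rfl⟩

theorem ed_eq {e e' : Ed N F} : (e.1.1 : ℕ) = e'.1.1 ∧ (e.1.2 : ℕ) = e'.1.2 ↔ e = e' := by
  rw [Subtype.ext_iff, Prod.ext_iff, Fin.ext_iff, Fin.ext_iff]

theorem lt_tag (u w : Nd (Fin N) (Ed N F)) :
    ltB (tag u) (cA u) (cB u) (tag w) (cA w) (cB w) = true ↔ LT sN tN u w := by
  rcases u with i | t | e | e | e | e | ⟨e, t⟩ | t | t | _ | _ <;>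
    rcases w with i' | t' | e' | e' | e' | e' | ⟨e', t'⟩ | t' | t' | _ | _ <;>
    (try fin_cases t) <;> (try fin_cases t') <;> simp only [tag, cA, cB] <;>
    simp [ltB, isM, isO, isMu, LT, sN, tN, ed_eq, Fin.ext_iff]

theorem LT_irrefl (u : Nd (Fin N) (Ed N F)) : ¬ LT sN tN u u := by
  cases u <;> simp [LT]

theorem LT_trans {u v w : Nd (Fin N) (Ed N F)} (h1 : LT sN tN u v) (h2 : LT sN tN v w) :
    LT sN tN u w := by
  cases u <;> cases v <;> simp only [LT] at h1 <;> cases w <;> simp only [LT] at h2 ⊢ <;>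
    simp_all

theorem T_iff {x y : Fin (mkI N F).k} : (mkI N F).T x y = true ↔
    x = y ∨ ∃ u w : Nd (Fin N) (Ed N F), io' u = x ∧ io' w = y ∧ LT sN tN w u := by
  show tF F N x y = true ↔ _
  unfold tF
  rw [Bool.or_eq_true, Bool.and_eq_true, Bool.and_eq_true, decide_eq_true_eq, ← Fin.ext_iff]
  apply or_congr_right
  constructor
  · rintro ⟨⟨hx, hy⟩, h⟩
    obtain ⟨u, rfl⟩ := us_surj hx
    obtain ⟨w, rfl⟩ := us_surj hy
    refine ⟨u, w, rfl, rfl, ?_⟩
    rw [tg_io, tg_io, ca_io, ca_io, cb_io, cb_io] at h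
    exact (lt_tag w u).1 h
  · rintro ⟨u, w, rfl, rfl, h⟩
    refine ⟨⟨us_io u, us_io w⟩, ?_⟩
    rw [tg_io, tg_io, ca_io, ca_io, cb_io, cb_io]
    exact (lt_tag w u).2 h

theorem T_refl (x : Fin (mkI N F).k) : (mkI N F).T x x = true := T_iff.2 (Or.inl rfl)

theorem T_trans {x y z : Fin (mkI N F).k} (h1 : (mkI N F).T x y = true)
    (h2 : (mkI N F).T y z = true) : (mkI N F).T x z = true := by
  rcases T_iff.1 h1 with rfl | ⟨u, w, rfl, rfl, h⟩
  · exact h2
  rcases T_iff.1 h2 with h3 | ⟨u', w', h4, rfl, h'⟩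
  · rw [← h3]; exact h1
  · have h5 : u' = w := io'_inj h4
    subst h5
    exact T_iff.2 (Or.inr ⟨u, w', rfl, rfl, LT_trans h' h⟩)

theorem T_antisymm {x y : Fin (mkI N F).k} (h1 : (mkI N F).T x y = true)
    (h2 : (mkI N F).T y x = true) : x = y := by
  rcases T_iff.1 h1 with h | ⟨u, w, rfl, rfl, h⟩
  · exact h
  rcases T_iff.1 h2 with h3 | ⟨u', w', h4, h5, h'⟩
  · exact h3.symm
  · have e1 : u' = w := io'_inj h4
    have e2 : w' = u := io'_inj h5
    subst e1 e2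
    exact absurd (LT_trans h h') (LT_irrefl _)

theorem sub_iff {p : ℕ} {a b : Fin (mkI N F).k} :
    (mkI N F).primes p a ⊆ (mkI N F).primes p b ↔ (mkI N F).T b a = true := by
  constructor
  · intro h
    exact Inst.pr_mem.1 (h (Inst.pr_mem.2 (T_refl a)))
  · rintro h q ⟨j, hj, rfl⟩
    exact Inst.pr_mem.2 (T_trans h hj)

/-- entries in coordinates -/
theorem entry_io (u w : Nd (Fin N) (Ed N F)) : (mkI N F).entry (io' u) (io' w) =
    (if (u = w ∧ ndB (tag u) = false) ∨ plB (tag u) (cA u) (cB u) (tag w) (cA w) (cB w) = true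
      then 1 else 0) -
    (if miB (tag u) (cA u) (cB u) (tag w) (cA w) (cB w) = true then 1 else 0) := by
  unfold Inst.entry
  have h1 : (mkI N F).P (io' u) (io' w) = true ↔ ((u = w ∧ ndB (tag u) = false) ∨
      plB (tag u) (cA u) (cB u) (tag w) (cA w) (cB w) = true) := by
    show pF F N (io' u) (io' w) = true ↔ _
    unfold pF
    rw [us_io, us_io, tg_io, tg_io, ca_io, ca_io, cb_io, cb_io]
    simp only [Bool.and_self, Bool.true_and, Bool.or_eq_true, Bool.and_eq_true, decide_eq_true_eq,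
      Bool.not_eq_true']
    rw [← Fin.ext_iff, io'_inj.eq_iff]
  have h2 : (mkI N F).M (io' u) (io' w) = true ↔
      miB (tag u) (cA u) (cB u) (tag w) (cA w) (cB w) = true := by
    show mF F N (io' u) (io' w) = true ↔ _
    unfold mF
    rw [us_io, us_io, tg_io, tg_io, ca_io, ca_io, cb_io, cb_io]
    simp only [Bool.and_self, Bool.true_and]
  simp only [h1, h2]

theorem entry_zero {a b : Fin (mkI N F).k} (h : usN F N (a : ℕ) = false ∨ usN F N (b : ℕ) = false) :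
    (mkI N F).entry a b = 0 := by
  unfold Inst.entry
  have h1 : (mkI N F).P a b = false := by
    show pF F N a b = false
    unfold pF
    rcases h with h | h <;> simp [h]
  have h2 : (mkI N F).M a b = false := by
    show mF F N a b = false
    unfold mF
    rcases h with h | h <;> simp [h]
  simp [h1, h2]

theorem pr'_inj : Function.Injective (pr' (N := N) (F := F)) := by
  intro u w h
  cases u <;> cases w <;> simp_all [pr']

theorem D_eq (r : Rw (Ed N F)) (j : Nd (Fin N) (Ed N F)) :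
    (mkI N F).entry (io' (pr' r)) (io' j) = Dm sN tN r j := by
  rw [entry_io]
  rcases r with t | t | ⟨e, t⟩ | e | e | e | e <;>
    rcases j with i' | t' | e' | e' | e' | e' | ⟨e', t'⟩ | t' | t' | _ | _ <;>
    (try fin_cases t) <;> (try fin_cases t') <;> simp only [pr', tag, cA, cB] <;>
    simp [ndB, plB, miB, isM, Dm, Pi.single_apply, sN, tN, ed_eq, Fin.ext_iff] <;>
    exact if_congr eq_comm rfl rfl

theorem row_zero {u : Nd (Fin N) (Ed N F)} (hu : ∀ r : Rw (Ed N F), pr' r ≠ u)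
    (w : Nd (Fin N) (Ed N F)) : (mkI N F).entry (io' u) (io' w) = 0 := by
  rw [entry_io]
  rcases u with i | t | e | e | e | e | ⟨e, t⟩ | t | t | _ | _
  · rcases w with i' | t' | e' | e' | e' | e' | ⟨e', t'⟩ | t' | t' | _ | _ <;>
      (try fin_cases t') <;> simp [ndB, plB, miB, isM, tag]
  · exact absurd rfl (hu (.rz t))
  · exact absurd rfl (hu (.rt e))
  · exact absurd rfl (hu (.rc e))
  · exact absurd rfl (hu (.rb e))
  · exact absurd rfl (hu (.rp e))
  · exact absurd rfl (hu (.rm e t))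
  · rcases w with i' | t' | e' | e' | e' | e' | ⟨e', t'⟩ | t' | t' | _ | _ <;>
      fin_cases t <;> (try fin_cases t') <;> simp [ndB, plB, miB, isM, tag]
  · exact absurd rfl (hu (.ro t))
  · rcases w with i' | t' | e' | e' | e' | e' | ⟨e', t'⟩ | t' | t' | _ | _ <;>
      (try fin_cases t') <;> simp [ndB, plB, miB, isM, tag]
  · rcases w with i' | t' | e' | e' | e' | e' | ⟨e', t'⟩ | t' | t' | _ | _ <;>
      (try fin_cases t') <;> simp [ndB, plB, miB, isM, tag]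

end TabAux

open TabAux

theorem emb_mkI (p N : ℕ) (F : ℕ → ℕ → Bool) :
    ∃ (ι : Nd (Fin N) (Ed N F) → Fin (mkI N F).k) (ρ : Rw (Ed N F) → Fin (mkI N F).k),
      Emb p ((mkI N F).primes p) (mkI N F).entry ι ρ (Dm sN tN) (LT sN tN) := by
  refine ⟨io', fun r => io' (pr' r), ?_⟩
  constructor
  · exact fun a => Inst.notMem_primes p _ a
  · exact fun a q hq => Inst.primes_prime hq
  · exact fun a b h1 h2 => T_antisymm (sub_iff.1 h2) (sub_iff.1 h1)
  · exact io'_inj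
  · exact io'_inj.comp pr'_inj
  · intro i j
    unfold lt
    rw [sub_iff, sub_iff]
    constructor
    · rintro ⟨h1, h2⟩
      rcases T_iff.1 h1 with h | ⟨u, w, hu, hw, h⟩
      · exact absurd (by rw [h]; exact T_refl _) h2
      · rw [io'_inj hu, io'_inj hw] at h
        exact h
    · intro h
      have h1 : (mkI N F).T (io' j) (io' i) = true := T_iff.2 (Or.inr ⟨j, i, rfl, rfl, h⟩)
      refine ⟨h1, fun h2 => ?_⟩
      have h3 := io'_inj (T_antisymm h1 h2)
      rw [h3] at h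
      exact LT_irrefl _ h
  · rintro a b ha ⟨h1, h2⟩
    rw [sub_iff] at h1 h2
    rcases T_iff.1 h1 with h | ⟨u, w, hu, hw, h⟩
    · exact h2 (by rw [h]; exact T_refl _)
    · exact ha ⟨w, hw⟩
  · exact fun r j => D_eq r j
  · intro a b ha
    by_cases h1 : usN F N (a : ℕ) = true
    · by_cases h2 : usN F N (b : ℕ) = true
      · obtain ⟨u, rfl⟩ := us_surj h1
        obtain ⟨w, rfl⟩ := us_surj h2
        exact row_zero (fun r hr => ha ⟨r, by rw [← hr]⟩) w
      · exact entry_zero (Or.inr (by simpa using h2))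
    · exact entry_zero (Or.inl (by simpa using h1))
  · intro a b hb
    refine entry_zero (Or.inr ?_)
    by_contra h
    obtain ⟨w, hw⟩ := us_surj (by simpa using h)
    exact hb ⟨w, hw⟩

end Pool.Agent.Lib.H8da
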