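import Pool.Agent.Lib.H8da.Inst
import Pool.Agent.Lib.H8da.Core
import Pool.Agent.Lib.P2ba8ab.Poly

set_option autoImplicit false

/-!
The finite data attached to a graph with vertices `0, ..., N - 1` and edges `(a, b)` with
`F a b = true`.

There are `8 + N * N * 7` indices: `8` special ones with the tags `0, ..., 7`
(`zz 0, zz 1, mm 0, mm 1, oo 0, oo 1, p1, p2`), and for every position `(a, b)` seven indices with
the tags `8, ..., 14` (`sg, ta, aa, bb, ph, mu 0, mu 1`).
-/

namespace Pool.Agent.Lib.H8da

open Pool.Agent.Lib.P2ba8ab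

/-- the tag of an index -/
def tg (i : ℕ) : ℕ := iT 8 7 i

/-- the first coordinate of the position of an index -/
def ca (N i : ℕ) : ℕ := iA 8 7 N i

/-- the second coordinate of the position of an index -/
def cb (N i : ℕ) : ℕ := iB 8 7 N i

/-- the indices that occur in the construction -/
def usB (F : ℕ → ℕ → Bool) (x a b : ℕ) : Bool :=
  decide (x < 8) || ((decide (x = 8) && decide (a = b)) || (!decide (x < 9) && F a b))

/-- tags `mm` -/
def isM (x : ℕ) : Bool := !decide (x < 2) && decide (x < 4)

/-- tags `oo` -/
def isO (x : ℕ) : Bool := !decide (x < 4) && decide (x < 6)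

/-- tags `mu` -/
def isMu (x : ℕ) : Bool := !decide (x < 13)

/-- the strict order of the types -/
def ltB (x a b x' a' b' : ℕ) : Bool :=
  ((decide (x = 8) || decide (x < 2)) && (isM x' || isO x')) ||
  (((decide (x = 10) || decide (x = 12)) &&
    (isM x' || (isMu x' && (decide (a = a') && decide (b = b'))))) ||
  ((decide (x = 11) && (isO x' || (isMu x' && (decide (a = a') && decide (b = b'))))) ||
  (decide (x = 9) && ((decide (x' = 8) && (decide (a' = a) || decide (a' = b))) ||
    (((decide (x' = 10) || (decide (x' = 11) || isMu x')) &&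
      (decide (a = a') && decide (b = b'))) || (isM x' || isO x'))))))

/-- the entries `1` outside the diagonal -/
def plB (x a b x' a' b' : ℕ) : Bool :=
  (decide (x = 10) && (decide (x' = 8) && decide (a' = a))) ||
  ((decide (x = 10) && (decide (x' = 11) && (decide (a = a') && decide (b = b')))) ||
  ((decide (x = 9) && decide (x' = 6)) ||
  ((decide (x = 11) || (decide (x = 12) || decide (x < 2))) && decide (x' = 7))))

/-- rows without an entry `1` on the diagonal -/
def ndB (x : ℕ) : Bool := isM x || (!decide (x < 6) && decide (x < 9))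

/-- the entries `-1` -/
def miB (x _a b x' a' _b' : ℕ) : Bool :=
  (((decide (x = 4) || decide (x = 13)) && decide (x' = 2)) ||
  (((decide (x = 5) || decide (x = 14)) && decide (x' = 3)) ||
  (decide (x = 10) && (decide (x' = 8) && decide (a' = b)))))

/-- the indices that occur in the construction -/
def usN (F : ℕ → ℕ → Bool) (N i : ℕ) : Bool := usB F (tg i) (ca N i) (cb N i)

/-- the matrix of the types: `j ≤ i` -/
def tF (F : ℕ → ℕ → Bool) (N i j : ℕ) : Bool :=
  decide (i = j) || ((usN F N i && usN F N j) &&
    ltB (tg j) (ca N j) (cb N j) (tg i) (ca N i) (cb N i))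

/-- the entries `1` -/
def pF (F : ℕ → ℕ → Bool) (N i j : ℕ) : Bool :=
  (usN F N i && usN F N j) && ((decide (i = j) && !ndB (tg i)) ||
    plB (tg i) (ca N i) (cb N i) (tg j) (ca N j) (cb N j))

/-- the entries `-1` -/
def mF (F : ℕ → ℕ → Bool) (N i j : ℕ) : Bool :=
  (usN F N i && usN F N j) && miB (tg i) (ca N i) (cb N i) (tg j) (ca N j) (cb N j)

/-- the finite data of a graph -/
def mkI (N : ℕ) (F : ℕ → ℕ → Bool) : Inst where
  k := 8 + N * N * 7
  T i j := tF F N i j
  P i j := pF F N i j
  M i j := mF F N i j

/-- the edges -/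
abbrev Ed (N : ℕ) (F : ℕ → ℕ → Bool) : Type := {e : Fin N × Fin N // F e.1 e.2 = true}

/-- first end point -/
def sN {N : ℕ} {F : ℕ → ℕ → Bool} (e : Ed N F) : Fin N := e.1.1

/-- second end point -/
def tN {N : ℕ} {F : ℕ → ℕ → Bool} (e : Ed N F) : Fin N := e.1.2

/-- the edges of the graph `g` joined with a complete graph on the vertices `≥ g.n`, each edge being
directed from the smaller to the larger end point -/
noncomputable def eF (g : Gr) (a b : ℕ) : Bool :=
  decide (a < b) && (adjN g a b || !decide (b < g.n))

end Pool.Agent.Lib.H8da
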